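import Pool.Agent.T6.H44.AR.Defs3

set_option autoImplicit false

open MeasureTheory
open scoped Pointwise

namespace Pool.Agent.T6.H44.AR

namespace ModAPX

theorem bdd_sup {K : Set (ℝ × ℝ)} (hK : IsCompact K) (v : ℝ × ℝ) :
    BddAbove ((fun h : ℝ × ℝ => h.1 * v.1 + h.2 * v.2) '' K) :=
  (hK.image (by fun_prop)).bddAbove

theorem le_sup' {K : Set (ℝ × ℝ)} (hK : IsCompact K) (v : ℝ × ℝ) {h : ℝ × ℝ} (hh : h ∈ K) :
    h.1 * v.1 + h.2 * v.2 ≤ sup K v :=
  le_csSup (bdd_sup hK v) ⟨h, hh, rfl⟩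

theorem sup_le' {K : Set (ℝ × ℝ)} (h0 : K.Nonempty) (v : ℝ × ℝ) {c : ℝ}
    (h : ∀ p ∈ K, p.1 * v.1 + p.2 * v.2 ≤ c) : sup K v ≤ c := by
  refine csSup_le (h0.image _) ?_
  rintro _ ⟨p, hp, rfl⟩
  exact h p hp

theorem sup_smul {K : Set (ℝ × ℝ)} (hK : IsCompact K) (h0 : K.Nonempty) (v : ℝ × ℝ) {c : ℝ}
    (hc : 0 ≤ c) : sup K (c • v) ≤ c * sup K v := by
  refine sup_le' h0 _ fun p hp => ?_
  have h := mul_le_mul_of_nonneg_left (le_sup' hK v hp) hc
  simp only [Prod.smul_fst, Prod.smul_snd, smul_eq_mul]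
  linarith [h]

theorem sup_pos {K : Set (ℝ × ℝ)} (hK : IsCompact K) (h0 : (0 : ℝ × ℝ) ∈ interior K)
    {v : ℝ × ℝ} (hv : v ≠ 0) : 0 < sup K v := by
  have hnh : K ∈ nhds (0 : ℝ × ℝ) := mem_interior_iff_mem_nhds.1 h0
  have hcont : Filter.Tendsto (fun c : ℝ => c • v) (nhds 0) (nhds (0 : ℝ × ℝ)) := by
    have : Continuous (fun c : ℝ => c • v) := by fun_prop
    have h := this.tendsto 0
    simpa using h
  have hev := hcont.eventually hnh
  obtain ⟨δ, hδ, hball⟩ := Metric.eventually_nhds_iff.1 hev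
  have hc : (δ / 2) • v ∈ K := by
    apply hball
    rw [Real.dist_eq, sub_zero, abs_of_pos (half_pos hδ)]
    linarith
  have h1 := le_sup' hK v hc
  simp only [Prod.smul_fst, Prod.smul_snd, smul_eq_mul] at h1
  have h2 : 0 < v.1 ^ 2 + v.2 ^ 2 := by
    have h3 : v.1 ≠ 0 ∨ v.2 ≠ 0 := by
      by_contra hcon
      push Not at hcon
      exact hv (Prod.ext hcon.1 hcon.2)
    rcases h3 with h3 | h3
    · positivity
    · positivity
  have h4 : δ / 2 * v.1 * v.1 + δ / 2 * v.2 * v.2 = δ / 2 * (v.1 ^ 2 + v.2 ^ 2) := by ring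
  rw [h4] at h1
  have h5 : 0 < δ / 2 * (v.1 ^ 2 + v.2 ^ 2) := by positivity
  linarith

variable {N : ℕ}

theorem zn_compact (z : Fin N → ℝ × ℝ) : IsCompact (Zn z) := by
  have h1 : IsCompact (Set.pi Set.univ fun _ : Fin N => Set.Icc (-1 : ℝ) 1) :=
    isCompact_univ_pi fun _ => isCompact_Icc
  have h2 : Zn z = (fun t : Fin N → ℝ => ∑ j, t j • z j) ''
      (Set.pi Set.univ fun _ : Fin N => Set.Icc (-1 : ℝ) 1) := by
    ext x
    constructor
    · rintro ⟨t, ht, rfl⟩
      exact ⟨t, fun j _ => abs_le.1 (ht j), rfl⟩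
    · rintro ⟨t, ht, rfl⟩
      exact ⟨t, fun j => abs_le.2 (ht j (Set.mem_univ j)), rfl⟩
  rw [h2]
  refine h1.image ?_
  fun_prop

/-- support function of a zonogon from above -/
theorem zn_dot_le (z : Fin N → ℝ × ℝ) (v : ℝ × ℝ) {x : ℝ × ℝ} (hx : x ∈ Zn z) :
    x.1 * v.1 + x.2 * v.2 ≤ ∑ j, |(z j).1 * v.1 + (z j).2 * v.2| := by
  obtain ⟨t, ht, rfl⟩ := hx
  have h1 : (∑ j, t j • z j).1 * v.1 + (∑ j, t j • z j).2 * v.2 =
      ∑ j, t j * ((z j).1 * v.1 + (z j).2 * v.2) := by
    simp only [Prod.fst_sum, Prod.snd_sum, Prod.smul_fst, Prod.smul_snd, smul_eq_mul]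
    rw [Finset.sum_mul, Finset.sum_mul, ← Finset.sum_add_distrib]
    refine Finset.sum_congr rfl fun j _ => ?_
    ring
  rw [h1]
  refine Finset.sum_le_sum fun j _ => ?_
  calc t j * ((z j).1 * v.1 + (z j).2 * v.2) ≤ |t j * ((z j).1 * v.1 + (z j).2 * v.2)| :=
        le_abs_self _
    _ = |t j| * |(z j).1 * v.1 + (z j).2 * v.2| := abs_mul _ _
    _ ≤ 1 * |(z j).1 * v.1 + (z j).2 * v.2| := mul_le_mul_of_nonneg_right (ht j) (abs_nonneg _)
    _ = _ := one_mul _

theorem zn_det_le (z : Fin N → ℝ × ℝ) (v : ℝ × ℝ) {x : ℝ × ℝ} (hx : x ∈ Zn z) :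
    |det v x| ≤ ∑ i, |det v (z i)| := by
  rw [abs_le]
  constructor
  · have h := zn_dot_le z (v.2, -v.1) hx
    have h2 : ∑ j, |(z j).1 * v.2 + (z j).2 * -v.1| = ∑ i, |det v (z i)| := by
      refine Finset.sum_congr rfl fun j _ => ?_
      rw [← abs_neg]
      congr 1
      simp only [det]
      ring
    rw [← h2]
    simp only at h
    simp only [det]
    linarith
  · have h := zn_dot_le z (-v.2, v.1) hx
    have h2 : ∑ j, |(z j).1 * -v.2 + (z j).2 * v.1| = ∑ i, |det v (z i)| := by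
      refine Finset.sum_congr rfl fun j _ => ?_
      congr 1
      simp only [det]
      ring
    rw [← h2]
    simp only at h
    simp only [det]
    linarith

theorem max_abs (a b : ℝ) : max |a| |b| = (|a - b| + |a + b|) / 2 := by
  rcases le_total |a| |b| with h | h
  · rw [max_eq_right h]
    rcases abs_cases a with ha | ha <;> rcases abs_cases b with hb | hb <;>
      rcases abs_cases (a - b) with h1 | h1 <;> rcases abs_cases (a + b) with h2 | h2 <;> linarith
  · rw [max_eq_left h]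
    rcases abs_cases a with ha | ha <;> rcases abs_cases b with hb | hb <;>
      rcases abs_cases (a - b) with h1 | h1 <;> rcases abs_cases (a + b) with h2 | h2 <;> linarith

/-- `D ≤ D'` -/
theorem D_le (h1 : StmtWZ) (h2 : StmtVZ) (z : Fin N → ℝ × ℝ) :
    ∑ i, ∑ j, |det (z i) (z j)| ≤ ∑ i, ∑ j, |det (z i) ((z j).1, -(z j).2)| := by
  set z' : Fin N → ℝ × ℝ := fun j => ((z j).1, -(z j).2) with hz'
  have hw := h1 N z (Zn z') (fun j => ∑ i, |det (z j) (z' i)|) (zn_compact z')
    (fun j => Finset.sum_nonneg fun _ _ => abs_nonneg _) (fun j x hx => zn_det_le z' _ hx)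
  have hv := (h2 N z').1
  have h3 : ∑ i, ∑ j, |det (z' i) (z' j)| = ∑ i, ∑ j, |det (z i) (z j)| := by
    refine Finset.sum_congr rfl fun i _ => Finset.sum_congr rfl fun j _ => ?_
    rw [← abs_neg]
    congr 1
    simp only [det, hz']
    ring
  rw [h3] at hv
  set D : ℝ := ∑ i, ∑ j, |det (z i) (z j)| with hD
  have hD0 : 0 ≤ D := Finset.sum_nonneg fun _ _ => Finset.sum_nonneg fun _ _ => abs_nonneg _
  have h4 : D ≤ √(volume.real (Zn z') * (D / 2)) := by
    apply Real.le_sqrt_of_sq_le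
    nlinarith [mul_le_mul_of_nonneg_right hv (half_pos (lt_of_lt_of_le one_pos le_rfl) : (0:ℝ) < 1 / 2).le,
      mul_le_mul_of_nonneg_right hv (by positivity : (0 : ℝ) ≤ D / 2)]
  exact h4.trans hw

end ModAPX

open ModAPX in
theorem apx (h1 : StmtWZ) (h2 : StmtVZ) (h3 : StmtPZ) : StmtAPX := by
  intro K hconv hK h0 hR r hr η hη
  have hsym : ∀ h ∈ K, -h ∈ K := by
    intro h hh
    have := (hR _ (hR h hh).1).2
    exact this
  have hKne : K.Nonempty := ⟨0, interior_subset h0⟩
  set S : ℝ := √(volume.real K) with hS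
  have hS0 : 0 ≤ S := Real.sqrt_nonneg _
  obtain ⟨ε, hε, hε1, hεη⟩ : ∃ ε : ℝ, 0 < ε ∧ ε ≤ 1 / 2 ∧ 8 * r * S * ε ≤ η := by
    refine ⟨min (1 / 2) (η / (8 * r * S + 1)), ?_, min_le_left _ _, ?_⟩
    · exact lt_min (by norm_num) (by positivity)
    · calc 8 * r * S * min (1 / 2) (η / (8 * r * S + 1)) ≤ 8 * r * S * (η / (8 * r * S + 1)) :=
            mul_le_mul_of_nonneg_left (min_le_right _ _) (by positivity)
        _ = η * (8 * r * S / (8 * r * S + 1)) := by ring
        _ ≤ η * 1 := by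
            apply mul_le_mul_of_nonneg_left _ hη.le
            rw [div_le_one (by positivity)]
            linarith
        _ = η := mul_one η
  obtain ⟨N, z, hz⟩ := h3 K hconv hK h0 hsym ε hε (by linarith)
  set D : ℝ := ∑ i, ∑ j, |det (z i) (z j)| with hD
  have hD0 : 0 ≤ D := Finset.sum_nonneg fun _ _ => Finset.sum_nonneg fun _ _ => abs_nonneg _
  have h1e : 0 < 1 - ε := by linarith
  have hHpos : ∀ v : ℝ × ℝ, v ≠ 0 → 0 < ∑ j, |(z j).1 * v.1 + (z j).2 * v.2| := fun v hv =>
    lt_of_lt_of_le (mul_pos h1e (sup_pos hK h0 hv)) (hz v).1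
  -- (a)
  have hDpos : 0 < D := by
    rcases hD0.eq_or_lt with h | h
    · exfalso
      have hall : ∀ i j, det (z i) (z j) = 0 := by
        intro i j
        have h5 := (Finset.sum_eq_zero_iff_of_nonneg
          (fun i _ => Finset.sum_nonneg fun j _ => abs_nonneg (det (z i) (z j)))).1 h.symm i
          (Finset.mem_univ i)
        have h6 := (Finset.sum_eq_zero_iff_of_nonneg
          (fun j _ => abs_nonneg (det (z i) (z j)))).1 h5 j (Finset.mem_univ j)
        exact abs_eq_zero.1 h6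
      by_cases hex : ∃ i, z i ≠ 0
      · obtain ⟨i, hi⟩ := hex
        have hv : ((-(z i).2, (z i).1) : ℝ × ℝ) ≠ 0 := by
          intro hcon
          apply hi
          have ha := congrArg Prod.fst hcon
          have hb := congrArg Prod.snd hcon
          simp at ha hb
          exact Prod.ext hb ha
        have h7 := hHpos _ hv
        have h8 : ∑ j, |(z j).1 * -(z i).2 + (z j).2 * (z i).1| = 0 := by
          apply Finset.sum_eq_zero
          intro j _
          rw [abs_eq_zero, ← hall i j]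
          simp only [det]
          ring
        simp only at h7
        linarith
      · push Not at hex
        have h7 := hHpos ((1, 0) : ℝ × ℝ) (by simp)
        have h8 : ∑ j, |(z j).1 * ((1, 0) : ℝ × ℝ).1 + (z j).2 * ((1, 0) : ℝ × ℝ).2| = 0 := by
          apply Finset.sum_eq_zero
          intro j _
          rw [hex j]
          simp
        linarith
    · exact h
  set V : ℝ := 2 * D with hV
  have hVpos : 0 < V := by positivity
  -- (b)
  have hsub : Zn z ⊆ (1 + ε) • K := by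
    intro x hx
    have hne : (1 + ε) ≠ 0 := by positivity
    rw [Set.mem_smul_set_iff_inv_smul_mem₀ hne]
    by_contra hcon
    obtain ⟨f, u, hf1, hf2⟩ := geometric_hahn_banach_closed_point hconv hK.isClosed hcon
    set v : ℝ × ℝ := (f (1, 0), f (0, 1)) with hv
    have hfx : ∀ p : ℝ × ℝ, f p = p.1 * v.1 + p.2 * v.2 := by
      intro p
      have : p = p.1 • ((1, 0) : ℝ × ℝ) + p.2 • ((0, 1) : ℝ × ℝ) := by ext <;> simp
      conv_lhs => rw [this]
      rw [map_add, map_smul, map_smul]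
      rfl
    have h5 : sup K v ≤ u := sup_le' hKne v fun p hp => by
      rw [← hfx]
      exact (hf1 p hp).le
    have h6 := zn_dot_le z v hx
    have h7 := (hz v).2
    rw [map_smul, hfx x, smul_eq_mul] at hf2
    have h8 : (1 + ε)⁻¹ * (x.1 * v.1 + x.2 * v.2) ≤ sup K v := by
      rw [inv_mul_le_iff₀ (by positivity)]
      linarith
    linarith
  have hvol : volume.real (Zn z) ≤ (1 + ε) ^ 2 * volume.real K := by
    have h5 : volume (Zn z) ≤ ENNReal.ofReal ((1 + ε) ^ 2) * volume K := by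
      refine (measure_mono hsub).trans (le_of_eq ?_)
      rw [Measure.addHaar_smul]
      congr 2
      rw [Module.finrank_prod, Module.finrank_self]
      norm_num
    have h6 : volume K ≠ ⊤ := hK.measure_lt_top.ne
    calc volume.real (Zn z) ≤ (ENNReal.ofReal ((1 + ε) ^ 2) * volume K).toReal :=
          ENNReal.toReal_mono (ENNReal.mul_ne_top ENNReal.ofReal_ne_top h6) h5
      _ = (1 + ε) ^ 2 * volume.real K := by
          rw [ENNReal.toReal_mul, ENNReal.toReal_ofReal (by positivity)]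
          rfl
  have hVle : V ≤ (1 + ε) ^ 2 * volume.real K := ((h2 N z).1).trans hvol
  have hsV : √V ≤ (1 + ε) * S := by
    rw [hS, Real.sqrt_le_left (by positivity)]
    rw [mul_pow, Real.sq_sqrt measureReal_nonneg]
    exact hVle
  have hsVpos : 0 < √V := Real.sqrt_pos.2 hVpos
  -- (c)
  set lam : ℝ := r / √V with hlam
  have hlampos : 0 < lam := by positivity
  let w : Fin N → ℝ × ℝ := fun j => (4 * lam) • ((-(z j).2, (z j).1) : ℝ × ℝ)
  refine ⟨List.ofFn w, ?_, ?_⟩
  · -- (d)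
    have hGG : GG (List.ofFn w) = (∑ i, ∑ j, Mk (w i) (w j)) / 8 := by
      unfold GG BB
      rw [List.map_ofFn, List.sum_ofFn]
      congr 1
      refine Finset.sum_congr rfl fun i _ => ?_
      simp only [Function.comp]
      rw [List.map_ofFn, List.sum_ofFn]
      rfl
    have hMk : ∀ i j, Mk (w i) (w j) =
        8 * lam ^ 2 * (|det (z i) (z j)| + |det (z i) ((z j).1, -(z j).2)|) := by
      intro i j
      have ha : (w i).1 * (w j).2 = 16 * lam ^ 2 * (-((z i).2 * (z j).1)) := by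
        simp only [w, Prod.smul_fst, Prod.smul_snd, smul_eq_mul]; ring
      have hb : (w j).1 * (w i).2 = 16 * lam ^ 2 * (-((z i).1 * (z j).2)) := by
        simp only [w, Prod.smul_fst, Prod.smul_snd, smul_eq_mul]; ring
      unfold Mk
      rw [ha, hb]
      rw [abs_mul (16 * lam ^ 2) (-((z i).2 * (z j).1)),
        abs_mul (16 * lam ^ 2) (-((z i).1 * (z j).2)),
        abs_of_pos (by positivity : 0 < 16 * lam ^ 2),
        ← mul_max_of_nonneg _ _ (by positivity), max_abs]
      have hc : |-((z i).2 * (z j).1) - -((z i).1 * (z j).2)| = |det (z i) (z j)| := by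
        congr 1
        simp only [det]
        ring
      have hd : |-((z i).2 * (z j).1) + -((z i).1 * (z j).2)| =
          |det (z i) ((z j).1, -(z j).2)| := by
        congr 1
        simp only [det]
        ring
      rw [hc, hd]
      ring
    rw [hGG]
    have hsum : ∑ i, ∑ j, Mk (w i) (w j) =
        8 * lam ^ 2 * (D + ∑ i, ∑ j, |det (z i) ((z j).1, -(z j).2)|) := by
      simp only [hMk]
      rw [hD, ← Finset.sum_add_distrib, Finset.mul_sum]
      refine Finset.sum_congr rfl fun i _ => ?_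
      rw [← Finset.sum_add_distrib, Finset.mul_sum]
    rw [hsum]
    have hDD := D_le h1 h2 z
    rw [← hD] at hDD
    have hl2 : lam ^ 2 * (2 * D) = r ^ 2 := by
      rw [hlam, div_pow, Real.sq_sqrt hVpos.le, hV]
      field_simp
    calc r ^ 2 = 8 * lam ^ 2 * (D + D) / 8 := by rw [← hl2]; ring
      _ ≤ 8 * lam ^ 2 * (D + ∑ i, ∑ j, |det (z i) ((z j).1, -(z j).2)|) / 8 := by
          gcongr
  · rw [List.map_ofFn, List.sum_ofFn]
    have hs1 : ∀ j, sup K (w j) ≤
        4 * lam * ((∑ i, |det (z j) (z i)|) / (1 - ε)) := by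
      intro j
      refine (sup_smul hK hKne _ (by positivity)).trans ?_
      apply mul_le_mul_of_nonneg_left _ (by positivity)
      rw [le_div_iff₀ h1e, mul_comm]
      refine (hz _).1.trans (le_of_eq ?_)
      refine Finset.sum_congr rfl fun i _ => ?_
      congr 1
      simp only [det]
      ring
    have hs2 : ∑ j, sup K (w j) ≤ 4 * lam * (D / (1 - ε)) := by
      refine (Finset.sum_le_sum fun j _ => hs1 j).trans (le_of_eq ?_)
      rw [← Finset.mul_sum, ← Finset.sum_div]
    have hs3 : 4 * lam * (D / (1 - ε)) = 2 * r * √V / (1 - ε) := by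
      have h5 : √V * √V = V := Real.mul_self_sqrt hVpos.le
      have h6 : lam * √V = r := by rw [hlam]; field_simp
      calc 4 * lam * (D / (1 - ε)) = 2 * lam * V / (1 - ε) := by rw [hV]; ring
        _ = 2 * lam * (√V * √V) / (1 - ε) := by rw [h5]
        _ = 2 * (lam * √V) * √V / (1 - ε) := by ring
        _ = _ := by rw [h6]
    have hs4 : 2 * r * √V / (1 - ε) ≤ 2 * r * S + η := by
      rw [div_le_iff₀ h1e]
      have h5 : 2 * r * √V ≤ 2 * r * ((1 + ε) * S) := mul_le_mul_of_nonneg_left hsV (by positivity)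
      have h6 : 4 * r * S * ε ≤ η * (1 - ε) := by
        have h7 : η * (1 / 2) ≤ η * (1 - ε) := mul_le_mul_of_nonneg_left (by linarith) hη.le
        linarith
      nlinarith [h5, h6]
    calc ∑ i, (sup K ∘ w) i = ∑ j, sup K (w j) := rfl
      _ ≤ _ := hs2
      _ = _ := hs3
      _ ≤ _ := hs4

end Pool.Agent.T6.H44.AR
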