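import Pool.Agent.T6.H44.AR.WUL

/-! Module ARR (helper24): the symmetrised polygon as a closed polygon. -/

set_option autoImplicit false

open MeasureTheory

namespace Pool.Agent.T6.H44.AR

namespace ModARR

open ModWUL (cj)

open Classical in
/-- slope -/
noncomputable def key (v : ℝ × ℝ) : WithTop ℝ :=
  if v.1 = 0 then ⊤ else ((v.2 / v.1 : ℝ) : WithTop ℝ)

/-- closed half plane -/
def Hp (v : ℝ × ℝ) : Prop := 0 < v.1 ∨ (v.1 = 0 ∧ 0 ≤ v.2)

theorem det_of_key {v w : ℝ × ℝ} (hv : Hp v) (hw : Hp w) (h : key w ≤ key v) : 0 ≤ det w v := by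
  have hw0 : 0 ≤ w.1 := by
    rcases hw with h | h
    · exact h.le
    · rw [h.1]
  unfold det
  rcases hv with hv | hv
  · rcases hw with hw | hw
    · unfold key at h
      rw [if_neg hw.ne', if_neg hv.ne', WithTop.coe_le_coe, div_le_div_iff₀ hw hv] at h
      linarith
    · unfold key at h
      rw [if_pos hw.1, if_neg hv.ne', top_le_iff] at h
      exact absurd h (WithTop.coe_ne_top)
  · rw [hv.1, mul_zero, sub_zero]
    exact mul_nonneg hw0 hv.2

open Classical in
/-- the multiple by a sign in the closed half plane -/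
noncomputable def nm (v : ℝ × ℝ) : ℝ × ℝ := if Hp v then v else -v

theorem hp_nm (v : ℝ × ℝ) : Hp (nm v) := by
  unfold nm
  by_cases h : Hp v
  · rwa [if_pos h]
  · rw [if_neg h]
    unfold Hp at h ⊢
    push Not at h
    rcases lt_or_eq_of_le h.1 with h1 | h1
    · left
      show 0 < -v.1
      linarith
    · right
      exact ⟨by show -v.1 = 0; linarith, by show 0 ≤ -v.2; linarith [h.2 h1]⟩

theorem nm_cases (v : ℝ × ℝ) : nm v = v ∨ nm v = -v := by
  unfold nm
  by_cases h : Hp v
  · left; rw [if_pos h]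
  · right; rw [if_neg h]

theorem det_neg_left (v w : ℝ × ℝ) : det (-v) w = - det v w := by
  unfold det
  show -v.1 * w.2 - -v.2 * w.1 = _
  ring

theorem det_neg_right (v w : ℝ × ℝ) : det v (-w) = - det v w := by
  unfold det
  show v.1 * -w.2 - v.2 * -w.1 = _
  ring

theorem det_nm (v w : ℝ × ℝ) : |det (nm v) (nm w)| = |det v w| := by
  rcases nm_cases v with h1 | h1 <;> rcases nm_cases w with h2 | h2 <;> rw [h1, h2] <;>
    simp only [det_neg_left, det_neg_right, abs_neg, neg_neg]

/-- double sum -/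
noncomputable def DS (L : List (ℝ × ℝ)) : ℝ := (L.map fun v => (L.map fun w => |det v w|).sum).sum

theorem ds_nm (L : List (ℝ × ℝ)) : DS (L.map nm) = DS L := by
  unfold DS
  rw [List.map_map]
  congr 1
  apply List.map_congr_left
  intro v _
  show ((L.map nm).map fun w => |det (nm v) w|).sum = _
  rw [List.map_map]
  congr 1
  apply List.map_congr_left
  intro w _
  exact det_nm v w

theorem ds_perm {L L' : List (ℝ × ℝ)} (h : L.Perm L') : DS L = DS L' := by
  unfold DS
  rw [(h.map _).sum_eq]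
  congr 1
  apply List.map_congr_left
  intro v _
  exact (h.map _).sum_eq

theorem det_sum_left (L : List (ℝ × ℝ)) (v : ℝ × ℝ) : det L.sum v = (L.map fun w => det w v).sum := by
  induction L with
  | nil => simp [det]
  | cons w L ih =>
    rw [List.sum_cons, List.map_cons, List.sum_cons, ← ih]
    unfold det
    show (w.1 + L.sum.1) * v.2 - (w.2 + L.sum.2) * v.1 = _
    ring

theorem det_self (v : ℝ × ℝ) : det v v = 0 := by
  unfold det
  ring

theorem abs_det_comm (v w : ℝ × ℝ) : |det v w| = |det w v| := by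
  rw [← abs_neg]
  congr 1
  unfold det
  ring

theorem two_s2 (L : List (ℝ × ℝ)) (h : L.Pairwise fun v w => 0 ≤ det w v) : 2 * S2 L = DS L := by
  induction L with
  | nil => simp [S2, DS]
  | cons v L ih =>
    rw [List.pairwise_cons] at h
    have ih' := ih h.2
    have e1 : det L.sum v = (L.map fun w => |det v w|).sum := by
      rw [det_sum_left]
      congr 1
      apply List.map_congr_left
      intro w hw
      rw [abs_det_comm, abs_of_nonneg (h.1 w hw)]
    have e2 : DS (v :: L) = (L.map fun w => |det v w|).sum + ((L.map fun w => |det v w|).sum +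
        DS L) := by
      unfold DS
      rw [List.map_cons, List.sum_cons, List.map_cons, List.sum_cons, det_self, abs_zero, zero_add]
      congr 1
      have : (L.map fun u => ((v :: L).map fun w => |det u w|).sum) =
          L.map fun u => (|det v u| + (L.map fun w => |det u w|).sum) := by
        apply List.map_congr_left
        intro u _
        rw [List.map_cons, List.sum_cons, abs_det_comm]
      rw [this, List.sum_map_add]
    show 2 * (det L.sum v + S2 L) = _
    rw [e2, ← ih', e1]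
    ring

theorem s2_append (A B : List (ℝ × ℝ)) : S2 (A ++ B) = S2 A + S2 B + det B.sum A.sum := by
  induction A with
  | nil => simp [S2, det]
  | cons v A ih =>
    rw [List.cons_append]
    show det (A ++ B).sum v + S2 (A ++ B) = det A.sum v + S2 A + S2 B + det B.sum (v :: A).sum
    rw [ih, List.sum_append, List.sum_cons]
    unfold det
    show (A.sum.1 + B.sum.1) * v.2 - (A.sum.2 + B.sum.2) * v.1 + _ = _ + _ +
      (B.sum.1 * (v.2 + A.sum.2) - B.sum.2 * (v.1 + A.sum.1))
    ring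

theorem sum_neg (A : List (ℝ × ℝ)) : (A.map fun v => -v).sum = - A.sum := by
  induction A with
  | nil => simp
  | cons v A ih => rw [List.map_cons, List.sum_cons, List.sum_cons, ih, neg_add]

theorem s2_neg (A : List (ℝ × ℝ)) : S2 (A.map fun v => -v) = S2 A := by
  induction A with
  | nil => rfl
  | cons v A ih =>
    rw [List.map_cons]
    show det (A.map fun v => -v).sum (-v) + S2 (A.map fun v => -v) = det A.sum v + S2 A
    rw [ih, sum_neg, det_neg_left, det_neg_right, neg_neg]

/-- the order by slope -/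
def rel (e e' : ℝ × (ℝ × ℝ)) : Prop := key e'.2 ≤ key e.2

instance : Std.Total rel := ⟨fun a b => le_total (key b.2) (key a.2)⟩
instance : IsTrans (ℝ × (ℝ × ℝ)) rel := ⟨fun _ _ _ h1 h2 => le_trans h2 h1⟩

open Classical in
/-- the arrangement -/
theorem arrange (F : List (ℝ × (ℝ × ℝ))) : ∃ A : List (ℝ × (ℝ × ℝ)),
    A.Perm (F.map fun e => (e.1, nm e.2)) ∧ 2 * S2 (A.map Prod.snd) = DS (F.map Prod.snd) := by
  refine ⟨List.insertionSort rel (F.map fun e => (e.1, nm e.2)), List.perm_insertionSort _ _, ?_⟩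
  obtain ⟨A, hA⟩ : ∃ A, A = List.insertionSort rel (F.map fun e => (e.1, nm e.2)) := ⟨_, rfl⟩
  have hperm : A.Perm (F.map fun e => (e.1, nm e.2)) := hA ▸ List.perm_insertionSort _ _
  have hsort : A.Pairwise rel := hA ▸ List.pairwise_insertionSort _ _
  rw [← hA, two_s2]
  · rw [ds_perm (hperm.map Prod.snd), List.map_map]
    have : (F.map (Prod.snd ∘ fun e : ℝ × (ℝ × ℝ) => (e.1, nm e.2))) = (F.map Prod.snd).map nm := by
      rw [List.map_map]
      rfl
    rw [this, ds_nm]
  · rw [List.pairwise_map]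
    apply hsort.imp_of_mem
    intro a b ha hb hab
    have hmem : ∀ a ∈ A, Hp a.2 := by
      intro a ha
      obtain ⟨e, _, rfl⟩ := List.mem_map.1 (hperm.mem_iff.1 ha)
      exact hp_nm _
    exact det_of_key (hmem a ha) (hmem b hb) hab

/-- the cost of an edge -/
noncomputable def ct (I : ℝ × ℝ → ℝ) (e : ℝ × (ℝ × ℝ)) : ℝ :=
  e.1 * I (e.2.1 / e.1, e.2.2 / e.1)

/-- admissible edges -/
def Ok (e : ℝ × (ℝ × ℝ)) : Prop := 0 < e.1 ∧ |e.2.1| + |e.2.2| ≤ e.1

theorem in_dia {e : ℝ × (ℝ × ℝ)} (h : Ok e) : |e.2.1 / e.1| + |e.2.2 / e.1| ≤ 1 := by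
  rw [abs_div, abs_div, abs_of_pos h.1, ← add_div, div_le_one h.1]
  exact h.2

theorem ct_cj {I : ℝ × ℝ → ℝ} (hI : Rt I) {e : ℝ × (ℝ × ℝ)} (h : Ok e) :
    ct I (e.1, cj e.2) = ct I e := by
  unfold ct cj
  show e.1 * I (e.2.1 / e.1, -e.2.2 / e.1) = _
  rw [neg_div, (hI.refl _ _ (in_dia h)).2]

theorem ct_neg {I : ℝ × ℝ → ℝ} (hI : Rt I) {e : ℝ × (ℝ × ℝ)} (h : Ok e) :
    ct I (e.1, -e.2) = ct I e := by
  unfold ct
  show e.1 * I (-e.2.1 / e.1, -e.2.2 / e.1) = _
  rw [neg_div, neg_div, (hI.refl _ _ (by rw [abs_neg]; exact in_dia h)).1,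
    (hI.refl _ _ (in_dia h)).2]

theorem ct_nm {I : ℝ × ℝ → ℝ} (hI : Rt I) {e : ℝ × (ℝ × ℝ)} (h : Ok e) :
    ct I (e.1, nm e.2) = ct I e := by
  rcases nm_cases e.2 with h1 | h1 <;> rw [h1]
  exact ct_neg hI h

theorem ok_neg {e : ℝ × (ℝ × ℝ)} (h : Ok e) : Ok (e.1, -e.2) := by
  refine ⟨h.1, ?_⟩
  show |-e.2.1| + |-e.2.2| ≤ e.1
  rw [abs_neg, abs_neg]
  exact h.2

theorem ok_cj {e : ℝ × (ℝ × ℝ)} (h : Ok e) : Ok (e.1, cj e.2) := by
  refine ⟨h.1, ?_⟩
  show |e.2.1| + |-e.2.2| ≤ e.1
  rw [abs_neg]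
  exact h.2

theorem ok_nm {e : ℝ × (ℝ × ℝ)} (h : Ok e) : Ok (e.1, nm e.2) := by
  rcases nm_cases e.2 with h1 | h1 <;> rw [h1]
  · exact h
  · exact ok_neg h

/-- a quarter of an edge -/
noncomputable def qe (e : ℝ × (ℝ × ℝ)) : ℝ × (ℝ × ℝ) := (e.1 / 4, (e.2.1 / 4, e.2.2 / 4))

theorem ok_qe {e : ℝ × (ℝ × ℝ)} (h : Ok e) : Ok (qe e) := by
  obtain ⟨h1, h2⟩ := h
  refine ⟨by show 0 < e.1 / 4; linarith, ?_⟩
  show |e.2.1 / 4| + |e.2.2 / 4| ≤ e.1 / 4
  rw [abs_div, abs_div, abs_of_pos (by norm_num : (0:ℝ) < 4), ← add_div]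
  linarith

theorem ct_qe (I : ℝ × ℝ → ℝ) {e : ℝ × (ℝ × ℝ)} (h : Ok e) : ct I (qe e) = ct I e / 4 := by
  unfold ct qe
  show e.1 / 4 * I (e.2.1 / 4 / (e.1 / 4), e.2.2 / 4 / (e.1 / 4)) = _
  have h1 : e.1 ≠ 0 := h.1.ne'
  have e1 : e.2.1 / 4 / (e.1 / 4) = e.2.1 / e.1 := by field_simp
  have e2 : e.2.2 / 4 / (e.1 / 4) = e.2.2 / e.1 := by field_simp
  rw [e1, e2]
  ring

/-- a quarter of a vector -/
noncomputable def qv (v : ℝ × ℝ) : ℝ × ℝ := (v.1 / 4, v.2 / 4)

theorem mk_qv (v w : ℝ × ℝ) : Mk (qv v) (qv w) = (1 / 16 : ℝ) * Mk v w := by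
  unfold Mk qv
  show max |v.1 / 4 * (w.2 / 4)| |w.1 / 4 * (v.2 / 4)| = (1 / 16 : ℝ) * max |v.1 * w.2| |w.1 * v.2|
  have e1 : v.1 / 4 * (w.2 / 4) = (1 / 16 : ℝ) * (v.1 * w.2) := by ring
  have e2 : w.1 / 4 * (v.2 / 4) = (1 / 16 : ℝ) * (w.1 * v.2) := by ring
  rw [e1, e2, abs_mul (1 / 16 : ℝ), abs_mul (1 / 16 : ℝ), abs_of_pos (by norm_num : (0:ℝ) < 1 / 16),
    mul_max_of_nonneg _ _ (by norm_num)]

theorem gg_qv (L : List (ℝ × ℝ)) : GG (L.map qv) = (1 / 16 : ℝ) * GG L := by
  unfold GG BB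
  rw [List.map_map]
  have : (L.map ((fun v => ((L.map qv).map fun w => Mk v w).sum) ∘ qv)) =
      L.map fun v => (1 / 16 : ℝ) * (L.map fun w => Mk v w).sum := by
    apply List.map_congr_left
    intro v _
    show ((L.map qv).map fun w => Mk (qv v) w).sum = _
    rw [List.map_map, ← List.sum_map_mul_left]
    congr 1
    apply List.map_congr_left
    intro w _
    exact mk_qv v w
  rw [this, List.sum_map_mul_left]
  ring

end ModARR

open ModARR in
theorem arr : StmtARR := by
  intro I hI u E hE hsum hu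
  have hok : ∀ e ∈ E, Ok e := fun e he => hE e he
  obtain ⟨F, hF⟩ : ∃ F : List (ℝ × (ℝ × ℝ)), F = E.map qe ++ (E.map qe).map
    (fun e => (e.1, ModWUL.cj e.2)) := ⟨_, rfl⟩
  have hokF : ∀ e ∈ F, Ok e := by
    intro e he
    rw [hF, List.mem_append] at he
    rcases he with he | he
    · obtain ⟨a, ha, rfl⟩ := List.mem_map.1 he
      exact ok_qe (hok a ha)
    · obtain ⟨b, hb, rfl⟩ := List.mem_map.1 he
      obtain ⟨a, ha, rfl⟩ := List.mem_map.1 hb
      exact ok_cj (ok_qe (hok a ha))
  obtain ⟨A, hA, hS⟩ := arrange F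
  have hokA : ∀ e ∈ A, Ok e := by
    intro e he
    obtain ⟨a, ha, rfl⟩ := List.mem_map.1 (hA.mem_iff.1 he)
    exact ok_nm (hokF a ha)
  -- sums
  have hfstF : (F.map Prod.fst).sum = 1 := by
    have e1 : ((E.map qe).map Prod.fst).sum = 1 / 2 := by
      rw [List.map_map]
      have : (E.map (Prod.fst ∘ qe)) = E.map fun e => (1 / 4 : ℝ) * e.1 := by
        apply List.map_congr_left
        intro e _
        show e.1 / 4 = _
        ring
      rw [this, List.sum_map_mul_left, show (E.map fun e => e.1) = E.map Prod.fst from rfl, hsum]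
      norm_num
    have e2 : ((E.map qe).map (fun e => (e.1, ModWUL.cj e.2))).map Prod.fst =
        (E.map qe).map Prod.fst := by
      rw [List.map_map]
      rfl
    rw [hF, List.map_append, List.sum_append, e2, e1]
    norm_num
  have hfstA : (A.map Prod.fst).sum = 1 := by
    rw [(hA.map Prod.fst).sum_eq, List.map_map, ← hfstF]
    rfl
  have hctF : (F.map (ct I)).sum = cost I E / 2 := by
    have e1 : ((E.map qe).map (ct I)).sum = cost I E / 4 := by
      rw [List.map_map]
      have : (E.map (ct I ∘ qe)) = E.map fun e => (1 / 4 : ℝ) * ct I e := by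
        apply List.map_congr_left
        intro e he
        show ct I (qe e) = _
        rw [ct_qe I (hok e he)]
        ring
      rw [this, List.sum_map_mul_left]
      show 1 / 4 * cost I E = _
      ring
    have e2 : ((E.map qe).map (fun e => (e.1, ModWUL.cj e.2))).map (ct I) =
        (E.map qe).map (ct I) := by
      rw [List.map_map]
      apply List.map_congr_left
      intro e he
      obtain ⟨a, ha, rfl⟩ := List.mem_map.1 he
      exact ct_cj hI (ok_qe (hok a ha))
    rw [hF, List.map_append, List.sum_append, e2, e1]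
    ring
  have hctA : (A.map (ct I)).sum = cost I E / 2 := by
    rw [(hA.map (ct I)).sum_eq, List.map_map, ← hctF]
    congr 1
    apply List.map_congr_left
    intro e he
    exact ct_nm hI (hokF e he)
  have hDS : DS (F.map Prod.snd) = 2 * GG (E.map Prod.snd) := by
    have e1 : F.map Prod.snd = (E.map Prod.snd).map qv ++ ((E.map Prod.snd).map qv).map
        ModWUL.cj := by
      rw [hF, List.map_append, List.map_map, List.map_map, List.map_map, List.map_map, List.map_map]
      rfl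
    rw [e1]
    unfold DS
    rw [ModWUL.sum_four, gg_qv]
    ring
  refine ⟨A ++ A.map (fun e => (e.1, -e.2)), ⟨?_, ?_, ?_, ?_⟩, ?_⟩
  · intro e he
    rw [List.mem_append] at he
    rcases he with he | he
    · exact hokA e he
    · obtain ⟨a, ha, rfl⟩ := List.mem_map.1 he
      exact ok_neg (hokA a ha)
  · rw [List.map_append, List.sum_append, List.map_map, hfstA]
    have : (A.map (Prod.fst ∘ fun e : ℝ × (ℝ × ℝ) => (e.1, -e.2))).sum = 1 := by
      rw [← hfstA]
      rfl
    rw [this]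
    norm_num
  · rw [List.map_append, List.sum_append, List.map_map]
    have : (A.map (Prod.snd ∘ fun e : ℝ × (ℝ × ℝ) => (e.1, -e.2))) =
        (A.map Prod.snd).map fun v => -v := by
      rw [List.map_map]
      rfl
    rw [this, sum_neg, add_neg_cancel]
  · rw [List.map_append, List.map_map]
    have : (A.map (Prod.snd ∘ fun e : ℝ × (ℝ × ℝ) => (e.1, -e.2))) =
        (A.map Prod.snd).map fun v => -v := by
      rw [List.map_map]
      rfl
    rw [this, s2_append, s2_neg, sum_neg, det_neg_left, det_self]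
    linarith
  · show ((A ++ A.map (fun e => (e.1, -e.2))).map (ct I)).sum = cost I E
    rw [List.map_append, List.sum_append, List.map_map]
    have : (A.map (ct I ∘ fun e : ℝ × (ℝ × ℝ) => (e.1, -e.2))) = A.map (ct I) := by
      apply List.map_congr_left
      intro e he
      exact ct_neg hI (hokA e he)
    rw [this, hctA]
    ring

end Pool.Agent.T6.H44.AR
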