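import Pool.Agent.T6.H44.AR.WUL

/-! Module BMG (helper24): the inequality of Brunn and Minkowski for symmetrised polygons. -/

set_option autoImplicit false

open MeasureTheory

namespace Pool.Agent.T6.H44.AR

namespace ModBMG

open ModWUL (cj)

/-- the vectors and their reflections -/
noncomputable def zz (n : ℕ) (a : Fin n → ℝ × ℝ) : Fin (n + n) → ℝ × ℝ :=
  fun j => Sum.elim a (fun i => cj (a i)) (finSumFinEquiv.symm j)

theorem sum_zz {E : Type} [AddCommMonoid E] (n : ℕ) (a : Fin n → ℝ × ℝ)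
    (f : Fin (n + n) → ℝ × ℝ → E) :
    ∑ j, f j (zz n a j) = ∑ i, f (finSumFinEquiv (Sum.inl i)) (a i) +
      ∑ i, f (finSumFinEquiv (Sum.inr i)) (cj (a i)) := by
  unfold zz
  rw [← Equiv.sum_comp finSumFinEquiv, Fintype.sum_sum_type]
  simp only [Equiv.symm_apply_apply, Sum.elim_inl, Sum.elim_inr]

theorem mem_zn (n : ℕ) (a : Fin n → ℝ × ℝ) (x : ℝ × ℝ) :
    x ∈ Zn (zz n a) ↔ ∃ s s' : Fin n → ℝ, (∀ i, |s i| ≤ 1) ∧ (∀ i, |s' i| ≤ 1) ∧
      x = ∑ i, s i • a i + ∑ i, s' i • cj (a i) := by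
  constructor
  · rintro ⟨t, ht, hx⟩
    refine ⟨fun i => t (finSumFinEquiv (Sum.inl i)), fun i => t (finSumFinEquiv (Sum.inr i)),
      fun i => ht _, fun i => ht _, ?_⟩
    rw [hx, sum_zz n a (fun j v => t j • v)]
  · rintro ⟨s, s', hs, hs', hx⟩
    refine ⟨fun j => Sum.elim s s' (finSumFinEquiv.symm j), ?_, ?_⟩
    · intro j
      show |Sum.elim s s' (finSumFinEquiv.symm j)| ≤ 1
      rcases finSumFinEquiv.symm j with i | i
      · exact hs i
      · exact hs' i
    · rw [hx, sum_zz n a (fun j v => Sum.elim s s' (finSumFinEquiv.symm j) • v)]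
      simp only [Equiv.symm_apply_apply, Sum.elim_inl, Sum.elim_inr]

theorem cj_sum (n : ℕ) (s : Fin n → ℝ) (a : Fin n → ℝ × ℝ) :
    ((∑ i, s i • a i).1, -(∑ i, s i • a i).2) = ∑ i, s i • cj (a i) := by
  apply Prod.ext
  · simp only [Prod.fst_sum, Prod.smul_fst, cj]
  · simp only [Prod.snd_sum, Prod.smul_snd, cj, smul_eq_mul, mul_neg, Finset.sum_neg_distrib]

theorem cj_cj (v : ℝ × ℝ) : cj (cj v) = v := by
  unfold cj
  rw [neg_neg]

theorem refl_zn (n : ℕ) (a : Fin n → ℝ × ℝ) : Refl (Zn (zz n a)) := by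
  intro x hx
  obtain ⟨s, s', hs, hs', hx⟩ := (mem_zn n a x).1 hx
  have h1 := cj_sum n s a
  have h2 := cj_sum n s' (fun i => cj (a i))
  simp only [cj_cj] at h2
  have h3 : (x.1, -x.2) = ∑ i, s' i • a i + ∑ i, s i • cj (a i) := by
    rw [← h1, ← h2, hx]
    apply Prod.ext
    · simp only [Prod.fst_add]
      ring
    · simp only [Prod.snd_add]
      ring
  constructor
  · rw [mem_zn]
    refine ⟨fun i => - s' i, fun i => - s i, fun i => by rw [abs_neg]; exact hs' i,
      fun i => by rw [abs_neg]; exact hs i, ?_⟩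
    simp only [neg_smul, Finset.sum_neg_distrib]
    rw [← neg_add, ← h3]
    apply Prod.ext
    · rfl
    · show x.2 = - -x.2
      ring
  · rw [mem_zn]
    exact ⟨s', s, hs', hs, h3⟩

theorem compact_zn {N : ℕ} (z : Fin N → ℝ × ℝ) : IsCompact (Zn z) := by
  have : Zn z = (fun t : Fin N → ℝ => ∑ j, t j • z j) ''
      (Set.univ.pi fun _ => Set.Icc (-1 : ℝ) 1) := by
    ext x
    constructor
    · rintro ⟨t, ht, hx⟩
      exact ⟨t, fun j _ => abs_le.1 (ht j), hx.symm⟩
    · rintro ⟨t, ht, hx⟩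
      exact ⟨t, fun j => abs_le.2 (ht j (Set.mem_univ j)), hx.symm⟩
  rw [this]
  apply IsCompact.image
  · exact isCompact_univ_pi fun _ => isCompact_Icc
  · fun_prop

theorem sup_le {N : ℕ} (z : Fin N → ℝ × ℝ) (v : ℝ × ℝ) :
    sup (Zn z) v ≤ ∑ j, |(z j).1 * v.1 + (z j).2 * v.2| := by
  apply csSup_le
  · refine ⟨_, ⟨0, ⟨fun _ => 0, fun _ => by simp, by simp⟩, rfl⟩⟩
  · rintro _ ⟨x, ⟨t, ht, rfl⟩, rfl⟩
    show (∑ j, t j • z j).1 * v.1 + (∑ j, t j • z j).2 * v.2 ≤ _
    have : (∑ j, t j • z j).1 * v.1 + (∑ j, t j • z j).2 * v.2 =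
        ∑ j, t j * ((z j).1 * v.1 + (z j).2 * v.2) := by
      rw [Prod.fst_sum, Prod.snd_sum, Finset.sum_mul, Finset.sum_mul, ← Finset.sum_add_distrib]
      apply Finset.sum_congr rfl
      intro j _
      simp only [Prod.smul_fst, Prod.smul_snd, smul_eq_mul]
      ring
    rw [this]
    apply Finset.sum_le_sum
    intro j _
    refine (le_abs_self _).trans ?_
    rw [abs_mul]
    exact mul_le_of_le_one_left (abs_nonneg _) (ht j)

/-- an eighth of a vector -/
noncomputable def ei (w : ℝ × ℝ) : ℝ × ℝ := (w.1 / 8, w.2 / 8)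

theorem mk_ei (v w : ℝ × ℝ) : Mk (ei v) (ei w) = Mk v w / 64 := by
  unfold Mk ei
  show max |v.1 / 8 * (w.2 / 8)| |w.1 / 8 * (v.2 / 8)| = max |v.1 * w.2| |w.1 * v.2| / 64
  have e1 : v.1 / 8 * (w.2 / 8) = (v.1 * w.2) / 64 := by ring
  have e2 : w.1 / 8 * (v.2 / 8) = (w.1 * v.2) / 64 := by ring
  rw [e1, e2, abs_div, abs_div, abs_of_pos (by norm_num : (0:ℝ) < 64), max_div_div_right
    (by norm_num)]

theorem mk_nonneg (v w : ℝ × ℝ) : 0 ≤ Mk v w := (abs_nonneg _).trans (le_max_left _ _)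

theorem gg_nonneg (L : List (ℝ × ℝ)) : 0 ≤ GG L := by
  unfold GG BB
  apply div_nonneg _ (by norm_num)
  apply List.sum_nonneg
  intro x hx
  obtain ⟨v, _, rfl⟩ := List.mem_map.1 hx
  apply List.sum_nonneg
  intro y hy
  obtain ⟨w, _, rfl⟩ := List.mem_map.1 hy
  exact mk_nonneg _ _

theorem two_det (v w : ℝ × ℝ) :
    |(ei w).1 * v.2 + (ei w).2 * v.1| + |(cj (ei w)).1 * v.2 + (cj (ei w)).2 * v.1| =
      Mk v w / 4 := by
  have h := ModWUL.abs_pair (w.1 * v.2) (v.1 * w.2)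
  have e1 : |(ei w).1 * v.2 + (ei w).2 * v.1| = |w.1 * v.2 + v.1 * w.2| / 8 := by
    unfold ei
    show |w.1 / 8 * v.2 + w.2 / 8 * v.1| = _
    rw [show w.1 / 8 * v.2 + w.2 / 8 * v.1 = (w.1 * v.2 + v.1 * w.2) / 8 by ring, abs_div,
      abs_of_pos (by norm_num : (0:ℝ) < 8)]
  have e2 : |(cj (ei w)).1 * v.2 + (cj (ei w)).2 * v.1| = |w.1 * v.2 - v.1 * w.2| / 8 := by
    unfold ei cj
    show |w.1 / 8 * v.2 + -(w.2 / 8) * v.1| = _
    rw [show w.1 / 8 * v.2 + -(w.2 / 8) * v.1 = (w.1 * v.2 - v.1 * w.2) / 8 by ring, abs_div,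
      abs_of_pos (by norm_num : (0:ℝ) < 8)]
  rw [e1, e2]
  unfold Mk
  rw [max_comm]
  linarith

end ModBMG

open ModBMG in
theorem bmg (h1 : StmtWUL) (h2 : StmtVZ) : StmtBMG := by
  intro L L'
  obtain ⟨a, ha⟩ : ∃ a : Fin L'.length → ℝ × ℝ, a = fun i => ei (L'.get i) := ⟨_, rfl⟩
  have hvol := (h2 _ (zz L'.length a)).1
  have hsum : ∑ i, ∑ j, |det (zz L'.length a i) (zz L'.length a j)| = GG L' / 2 := by
    have e1 : ∀ v : ℝ × ℝ, ∑ j, |det v (zz L'.length a j)| =
        ∑ i, (|det v (a i)| + |det v (ModWUL.cj (a i))|) := by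
      intro v
      rw [sum_zz _ a (fun _ w => |det v w|), ← Finset.sum_add_distrib]
    have e2 : ∑ i, ∑ j, |det (zz L'.length a i) (zz L'.length a j)| =
        ∑ i, ∑ j, (4 * Mk (a i) (a j)) := by
      rw [Finset.sum_congr rfl fun i _ => e1 (zz L'.length a i),
        sum_zz _ a (fun _ v => ∑ i, (|det v (a i)| + |det v (ModWUL.cj (a i))|)),
        ← Finset.sum_add_distrib]
      apply Finset.sum_congr rfl
      intro i _
      rw [← Finset.sum_add_distrib]
      apply Finset.sum_congr rfl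
      intro j _
      exact ModWUL.det_four _ _
    rw [e2]
    have e3 : ∀ i j, 4 * Mk (a i) (a j) = Mk (L'.get i) (L'.get j) / 16 := by
      intro i j
      rw [ha, mk_ei]
      ring
    rw [Finset.sum_congr rfl fun i _ => Finset.sum_congr rfl fun j _ => e3 i j]
    unfold GG BB
    rw [← ModWUL.sum_get L' (fun v => (L'.map fun w => Mk v w).sum)]
    rw [Finset.sum_div, Finset.sum_div]
    apply Finset.sum_congr rfl
    intro i _
    rw [← ModWUL.sum_get L' (fun w => Mk (L'.get i) w), ← Finset.sum_div]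
    ring
  rw [hsum] at hvol
  have hvol' : GG L' ≤ volume.real (Zn (zz L'.length a)) := by linarith
  have hw := h1 (Zn (zz L'.length a)) (compact_zn _) (refl_zn _ a) L
  have hsup : (L.map fun v => sup (Zn (zz L'.length a)) (v.2, v.1)).sum ≤ 2 * BB L L' := by
    have : 2 * BB L L' = (L.map fun v => (L'.map fun w => Mk v w / 4).sum).sum := by
      unfold BB
      have e4 : (L.map fun v => (L'.map fun w => Mk v w / 4).sum) =
          L.map fun v => (1 / 4 : ℝ) * (L'.map fun w => Mk v w).sum := by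
        apply List.map_congr_left
        intro v _
        rw [← List.sum_map_mul_left]
        congr 1
        apply List.map_congr_left
        intro w _
        ring
      rw [e4, List.sum_map_mul_left]
      ring
    rw [this]
    apply List.sum_le_sum
    intro v _
    refine (sup_le _ (v.2, v.1)).trans (le_of_eq ?_)
    rw [sum_zz _ a (fun _ w => |w.1 * (v.2, v.1).1 + w.2 * (v.2, v.1).2|),
      ← Finset.sum_add_distrib, ← ModWUL.sum_get L' (fun w => Mk v w / 4)]
    apply Finset.sum_congr rfl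
    intro i _
    rw [ha]
    exact two_det v (L'.get i)
  have hmono : √(GG L * GG L') ≤ √(volume.real (Zn (zz L'.length a)) * GG L) := by
    apply Real.sqrt_le_sqrt
    rw [mul_comm]
    exact mul_le_mul_of_nonneg_right hvol' (gg_nonneg L)
  linarith

end Pool.Agent.T6.H44.AR
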