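import Mathlib

/-!
Project AR (area of planar self-avoiding polygons: the exact large deviation rate).
Definitions and statements of the modules that need only Mathlib.
-/

set_option autoImplicit false

namespace Pool.Agent.T6.H44.AR

/-! ### polygons as lists of edges -/

/-- the determinant of two vectors of the plane -/
def det {R : Type} [CommRing R] (v w : R × R) : R := v.1 * w.2 - v.2 * w.1

/-- twice the signed area (clockwise = positive) of the polygon with the successive edges `L`: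
the sum over `i < j` of `det (v j) (v i)` -/
def S2 {R : Type} [CommRing R] : List (R × R) → R
  | [] => 0
  | v :: L => det L.sum v + S2 L

/-- the vertices of the polygon with the edges `L`, starting from the origin -/
def vt {R : Type} [CommRing R] (L : List (R × R)) (j : ℕ) : R × R := (L.take j).sum

/-- every three vertices are seen clockwise -/
def Cw (L : List (ℝ × ℝ)) : Prop :=
  ∀ i j m, i ≤ j → j ≤ m → 0 ≤ det (vt L m - vt L j) (vt L j - vt L i)

/-- convex polygon with upper chain `U` from the leftmost vertex (the origin) to the rightmost one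
and lower chain `W` back -/
structure Shape (U W : List (ℝ × ℝ)) : Prop where
  sum0 : (U ++ W).sum = 0
  cw : Cw (U ++ W)
  rng : ∀ j, 0 ≤ (vt (U ++ W) j).1 ∧ (vt (U ++ W) j).1 ≤ U.sum.1
  pos : 0 < U.sum.1
  up : ∀ A v B, U = A ++ v :: B → 0 < v.1 ∨ (v.1 = 0 ∧ 0 < v.2 ∧ A.sum.1 = 0)
  lo : ∀ A v B, W = A ++ v :: B → v.1 < 0 ∨ (v.1 = 0 ∧ 0 < v.2 ∧ (U ++ A).sum.1 = 0) ∨
    (v.1 = 0 ∧ v.2 < 0 ∧ (U ++ A).sum.1 = U.sum.1)

/-- **R1**: the arrangement of the edges of largest signed area is clockwise for every three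
vertices; it may be started at a leftmost vertex -/
def StmtR1 : Prop := ∀ (α : Type) (f : α → ℝ × ℝ) (E : List α), (E.map f).sum = 0 →
  ∃ E' : List α, E'.Perm E ∧ S2 (E.map f) ≤ S2 (E'.map f) ∧ Cw (E'.map f) ∧
    ∀ j, 0 ≤ (vt (E'.map f) j).1

/-- **R2**: the two chains of a clockwise polygon of positive area -/
def StmtR2 : Prop := ∀ L : List (ℝ × ℝ), (∀ v ∈ L, v ≠ 0) → L.sum = 0 → 0 < S2 L → Cw L →
  (∀ j, 0 ≤ (vt L j).1) → ∃ b, Shape (L.take b) (L.drop b)

/-- an integer vector as a real vector -/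
def cs (v : ℤ × ℤ) : ℝ × ℝ := (v.1, v.2)

/-- the `ℓ¹` norm -/
def l1 {R : Type} [CommRing R] [LinearOrder R] (v : R × R) : R := |v.1| + |v.2|

/-- **X1**: the outer half planes of an upper and of a lower edge do not meet strictly between the
leftmost and the rightmost vertex -/
def StmtX1 : Prop := ∀ U W : List (ℝ × ℝ), Shape U W → 0 < S2 (U ++ W) →
  ∀ A v B, U = A ++ v :: B → ∀ A' v' B', W = A' ++ v' :: B' → ∀ z : ℝ × ℝ, 0 < z.1 →
    z.1 < U.sum.1 → 0 ≤ det v (z - A.sum) → 0 ≤ det v' (z - (U ++ A').sum) → False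

/-- **X2**: the number of lattice points strictly inside -/
def StmtX2 : Prop := ∀ U W : List (ℤ × ℤ), Shape (U.map cs) (W.map cs) → 0 < S2 (U ++ W) →
  ∃ X : Finset (ℤ × ℤ), ((S2 (U ++ W) : ℤ) : ℝ) / 2 -
      2 * (((U ++ W).map l1).sum : ℤ) ≤ (X.card : ℝ) ∧
    ∀ p ∈ X, 0 < p.1 ∧ p.1 < U.sum.1 ∧ ∀ A v B, U ++ W = A ++ v :: B → det v (p - A.sum) < 0

/-! ### the variational problem -/

/-- the unit ball of the `ℓ¹` norm -/
def Dia : Set (ℝ × ℝ) := {v | |v.1| + |v.2| ≤ 1}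

/-- closed polygons with edges `e.2`, covered in time `2` with speed at most `1`, the edge `e.2` in
time `e.1`, and of signed area at least `u` -/
def Adm (u : ℝ) (E : List (ℝ × (ℝ × ℝ))) : Prop :=
  (∀ e ∈ E, 0 < e.1 ∧ |e.2.1| + |e.2.2| ≤ e.1) ∧ (E.map Prod.fst).sum = 2 ∧
    (E.map Prod.snd).sum = 0 ∧ 2 * u ≤ S2 (E.map Prod.snd)

/-- the same with speed smaller than `1` -/
def AdmS (u : ℝ) (E : List (ℝ × (ℝ × ℝ))) : Prop :=
  (∀ e ∈ E, 0 < e.1 ∧ |e.2.1| + |e.2.2| < e.1) ∧ (E.map Prod.fst).sum = 2 ∧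
    (E.map Prod.snd).sum = 0 ∧ 2 * u ≤ S2 (E.map Prod.snd)

/-- the cost of a polygon covered with given speeds -/
noncomputable def cost (I : ℝ × ℝ → ℝ) (E : List (ℝ × (ℝ × ℝ))) : ℝ :=
  (E.map (fun e => e.1 * I (e.2.1 / e.1, e.2.2 / e.1))).sum

/-- **P1**: among the clockwise arrangements the area is at most width times height and width and
height are half the variations (from R1, R2 for the list and for the list turned by a right angle);
so adding the four sides of a small square increases the area at first order -/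
def StmtP1 : Prop := ∀ L : List (ℝ × ℝ), L.sum = 0 → 0 < S2 L → ∀ s : ℝ, 0 ≤ s →
  ∃ L' : List (ℝ × ℝ), L'.Perm ([(s, 0), (0, s), (-s, 0), (0, -s)] ++ L) ∧
    S2 L + 2 * s * Real.sqrt (2 * S2 L) - 8 * s ^ 2 ≤ S2 L'

/-- **P2**: perturbation of an admissible polygon -/
def StmtP2 : Prop := ∀ I : ℝ × ℝ → ℝ, ConvexOn ℝ Dia I → I 0 = 0 → (∀ v ∈ Dia, 0 ≤ I v) →
  (∃ B, ∀ v ∈ Dia, I v ≤ B) → ∀ u : ℝ, 0 < u → u < 1 / 4 → ∀ ε : ℝ, 0 < ε → ∃ δ : ℝ, 0 < δ ∧
    ∀ E, Adm (u - δ) E → ∃ E', AdmS (u + δ) E' ∧ cost I E' ≤ cost I E + ε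

/-! ### the area of a lattice polygon -/

/-- a closed nearest-neighbour loop on `ℤ²` with `m` steps -/
def IsLoop (m : ℕ) (f : ZMod m → ℤ × ℤ) : Prop :=
  f 0 = 0 ∧ Function.Injective f ∧
    ∀ i : ZMod m, |(f (i + 1)).1 - (f i).1| + |(f (i + 1)).2 - (f i).2| = 1

def Above (m : ℕ) (f : ZMod m → ℤ × ℤ) (a b : ℤ) (k : ZMod m) : Prop :=
  (((f k).1 = a ∧ (f (k + 1)).1 = a + 1) ∨ ((f k).1 = a + 1 ∧ (f (k + 1)).1 = a)) ∧ b < (f k).2

/-- the unit cell `[a, a+1] × [b, b+1]` is enclosed by the loop (parity of the upward ray) -/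
def Encl (m : ℕ) (f : ZMod m → ℤ × ℤ) (c : ℤ × ℤ) : Prop :=
  Odd (Nat.card {k : ZMod m // Above m f c.1 c.2 k})

noncomputable def area (m : ℕ) (f : ZMod m → ℤ × ℤ) : ℕ := Nat.card {c : ℤ × ℤ // Encl m f c}

/-- **J**: the number of the enclosed cells is the absolute value of `∮ y dx` -/
def StmtJ : Prop := ∀ m : ℕ, 3 ≤ m → ∀ _ : NeZero m, ∀ f : ZMod m → ℤ × ℤ, IsLoop m f →
  (area m f : ℤ) = |∑ k : ZMod m, (f k).2 * ((f (k + 1)).1 - (f k).1)|

end Pool.Agent.T6.H44.AR
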