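import Pool.Agent.T6.H44.AR.Defs

/-!
Project AR: statement of the module LAT (needs only Mathlib).
-/

set_option autoImplicit false

namespace Pool.Agent.T6.H44.AR

/-- **LAT**: lattice approximation of a polygon covered with speed smaller than `1`: a list `F` of
pairs (length, integer edge), closed, of total length at most `2n`, with signed area (minus a
perimeter term) at least `u' n²` and with cost at most `n (cost + ε)` -/
def StmtLAT : Prop := ∀ I : ℝ × ℝ → ℝ, ContinuousOn I {v : ℝ × ℝ | |v.1| + |v.2| < 1} → I 0 = 0 →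
  ∀ (u u' : ℝ) (E : List (ℝ × (ℝ × ℝ))), u' < u → AdmS u E → ∀ ε : ℝ, 0 < ε → ∃ n₀ : ℕ, ∀ n : ℕ,
    n₀ ≤ n → ∃ F : List (ℕ × (ℤ × ℤ)), F.length ≤ E.length ∧
      (∀ e ∈ F, e.2 ≠ 0 ∧ 2 ≤ e.1 ∧ (e.2.1 + e.2.2 - e.1) % 2 = 0 ∧
        |e.2.1| + |e.2.2| ≤ (e.1 : ℤ)) ∧
      (F.map Prod.fst).sum ≤ 2 * n ∧ (F.map Prod.snd).sum = 0 ∧
      u' * (n : ℝ) ^ 2 ≤ ((S2 (F.map Prod.snd) : ℤ) : ℝ) / 2 -
        2 * (((F.map Prod.snd).map l1).sum : ℤ) ∧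
      (F.map (fun e => (e.1 : ℝ) * I ((e.2.1 : ℝ) / e.1, (e.2.2 : ℝ) / e.1))).sum ≤
        n * (cost I E + ε)

end Pool.Agent.T6.H44.AR
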