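import Pool.Agent.T6.H44.AR.Defs
import Pool.Agent.H354R3.ZN.Defs4

/-!
Project AR, part 2 (Wulff formula for the large deviation rate of the area).
-/

set_option autoImplicit false

open MeasureTheory

namespace Pool.Agent.T6.H44.AR

/-- `max (|x y'|, |x' y|)` -/
noncomputable def Mk (v w : ℝ × ℝ) : ℝ := max |v.1 * w.2| |w.1 * v.2|

/-- mixed area of the polygons with the edges `(± x, ± y) / 4`, `(x, y) ∈ L` and `(x, y) ∈ L'` -/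
noncomputable def BB (L L' : List (ℝ × ℝ)) : ℝ := (L.map fun v => (L'.map fun w => Mk v w).sum).sum / 8

/-- area of the convex polygon with the edges `(± x, ± y) / 4`, `(x, y) ∈ L` -/
noncomputable def GG (L : List (ℝ × ℝ)) : ℝ := BB L L

/-- support function -/
noncomputable def sup (K : Set (ℝ × ℝ)) (v : ℝ × ℝ) : ℝ :=
  sSup ((fun h : ℝ × ℝ => h.1 * v.1 + h.2 * v.2) '' K)

/-- `{h : h · w ≤ E + I w for all w in the diamond}` -/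
def KE (I : ℝ × ℝ → ℝ) (E : ℝ) : Set (ℝ × ℝ) := {h | ∀ w ∈ Dia, h.1 * w.1 + h.2 * w.2 ≤ E + I w}

/-- timed edges -/
def Fam (E : List (ℝ × (ℝ × ℝ))) : Prop := ∀ e ∈ E, 0 < e.1 ∧ |e.2.1| + |e.2.2| ≤ e.1

/-- invariant under the two reflections -/
def Refl (K : Set (ℝ × ℝ)) : Prop := ∀ h ∈ K, (-h.1, h.2) ∈ K ∧ (h.1, -h.2) ∈ K

/-- invariant under the exchange of the coordinates -/
def Swp (K : Set (ℝ × ℝ)) : Prop := ∀ h ∈ K, (h.2, h.1) ∈ K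

/-- the standing assumptions on the rate function -/
structure Rt (I : ℝ × ℝ → ℝ) : Prop where
  conv : ConvexOn ℝ Dia I
  zero : I 0 = 0
  nonneg : ∀ v ∈ Dia, 0 ≤ I v
  bdd : ∃ B, ∀ v ∈ Dia, I v ≤ B
  refl : ∀ x y : ℝ, |x| + |y| ≤ 1 → I (-x, y) = I (x, y) ∧ I (x, -y) = I (x, y)
  swp : ∀ x y : ℝ, |x| + |y| ≤ 1 → I (y, x) = I (x, y)

/-- the zonogon `∑ [-z_j, z_j]` -/
def Zn {N : ℕ} (z : Fin N → ℝ × ℝ) : Set (ℝ × ℝ) :=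
  {x | ∃ t : Fin N → ℝ, (∀ j, |t j| ≤ 1) ∧ x = ∑ j, t j • z j}

/-- **WZ**: Wulff's inequality for zonogons (from `S_LOG` and `S_KSUM` for `m = 1`) -/
def StmtWZ : Prop := ∀ (N : ℕ) (z : Fin N → ℝ × ℝ) (K : Set (ℝ × ℝ)) (l : Fin N → ℝ),
  IsCompact K → (∀ j, 0 ≤ l j) → (∀ j, ∀ x ∈ K, |det (z j) x| ≤ l j) →
  √(volume.real K * ((∑ i, ∑ j, |det (z i) (z j)|) / 2)) ≤ ∑ j, l j

/-- **VZ**: the area of a zonogon (from `S_TILE` and `S_VOL` for `m = 1`) -/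
def StmtVZ : Prop := ∀ (N : ℕ) (z : Fin N → ℝ × ℝ),
  2 * ∑ i, ∑ j, |det (z i) (z j)| ≤ volume.real (Zn z) ∧
  (0 < ∑ i, ∑ j, |det (z i) (z j)| →
    volume.real (Zn z) ≤ 2 * ∑ i, ∑ j, |det (z i) (z j)|)

/-- **PZ**: symmetric convex bodies in the plane are between homothetic zonogons (from `S_PLZ` and
`S_SAND` for `n = 2`) -/
def StmtPZ : Prop := ∀ K : Set (ℝ × ℝ), Convex ℝ K → IsCompact K → (0 : ℝ × ℝ) ∈ interior K →
  (∀ h ∈ K, -h ∈ K) → ∀ ε : ℝ, 0 < ε → ε < 1 → ∃ (N : ℕ) (z : Fin N → ℝ × ℝ), ∀ v : ℝ × ℝ,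
    (1 - ε) * sup K v ≤ ∑ j, |(z j).1 * v.1 + (z j).2 * v.2| ∧
    ∑ j, |(z j).1 * v.1 + (z j).2 * v.2| ≤ (1 + ε) * sup K v

/-- **SYM**: the area of a closed polygon is at most the area of the symmetrised one -/
def StmtSYM : Prop := ∀ L : List (ℝ × ℝ), L.sum = 0 → S2 L ≤ 2 * GG L

/-- **ARR**: the symmetrised polygon as a closed polygon -/
def StmtARR : Prop := ∀ I : ℝ × ℝ → ℝ, Rt I → ∀ (u : ℝ) (E : List (ℝ × (ℝ × ℝ))), Fam E →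
  (E.map Prod.fst).sum = 2 → u ≤ GG (E.map Prod.snd) →
  ∃ E', Adm u E' ∧ cost I E' = cost I E

/-- **WUL**: Wulff's inequality -/
def StmtWUL : Prop := ∀ K : Set (ℝ × ℝ), IsCompact K → Refl K → ∀ L : List (ℝ × ℝ),
  2 * √(volume.real K * GG L) ≤ (L.map fun v => sup K (v.2, v.1)).sum

/-- **BMG**: the inequality of Brunn and Minkowski for symmetrised polygons -/
def StmtBMG : Prop := ∀ L L' : List (ℝ × ℝ), √(GG L * GG L') ≤ BB L L'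

/-- **APX**: almost equality in Wulff's inequality -/
def StmtAPX : Prop := ∀ K : Set (ℝ × ℝ), Convex ℝ K → IsCompact K → (0 : ℝ × ℝ) ∈ interior K →
  Refl K → ∀ r : ℝ, 0 < r → ∀ η : ℝ, 0 < η →
  ∃ L : List (ℝ × ℝ), r ^ 2 ≤ GG L ∧ (L.map fun v => sup K v).sum ≤ 2 * r * √(volume.real K) + η

/-- **LEG**: duality -/
def StmtLEG : Prop := ∀ I : ℝ × ℝ → ℝ, Rt I → ∀ E : ℝ, 0 < E → ∀ (v : ℝ × ℝ) (η : ℝ), 0 < η →
  ∃ t : ℝ, 0 < t ∧ |v.1| + |v.2| ≤ t ∧ t * (I (v.1 / t, v.2 / t) + E) ≤ sup (KE I E) v + η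

/-- **KEP**: the sets `KE I E` are symmetric convex bodies -/
def StmtKEP : Prop := ∀ I : ℝ × ℝ → ℝ, Rt I → ∀ E : ℝ, 0 < E → Convex ℝ (KE I E) ∧
  IsCompact (KE I E) ∧ (0 : ℝ × ℝ) ∈ interior (KE I E) ∧ Refl (KE I E) ∧ Swp (KE I E) ∧
  (∀ (t : ℝ) (v : ℝ × ℝ), 0 < t → |v.1| + |v.2| ≤ t →
    sup (KE I E) v ≤ t * (I (v.1 / t, v.2 / t) + E))

/-- **FRM**: the formula -/
def StmtFRM : Prop := ∀ I : ℝ × ℝ → ℝ, Rt I → ∀ u : ℝ, 0 < u → u < 1 / 4 →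
  BddAbove ((fun E : ℝ => 2 * √(u * volume.real (KE I E)) - 2 * E) '' Set.Ioi 0) ∧
  sInf (cost I '' {E | Adm u E}) =
    sSup ((fun E : ℝ => 2 * √(u * volume.real (KE I E)) - 2 * E) '' Set.Ioi 0)

end Pool.Agent.T6.H44.AR
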