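import Pool.Agent.T6.H44.AR.Defs3

/-!
Project AR, part 2, module FRM: the formula for the variational problem.
-/

set_option autoImplicit false

open MeasureTheory

namespace Pool.Agent.T6.H44.AR

namespace ModFRM

theorem Mk_comm (v w : ℝ × ℝ) : Mk v w = Mk w v := by
  unfold Mk
  exact max_comm _ _

theorem Mk_nonneg (v w : ℝ × ℝ) : 0 ≤ Mk v w := (abs_nonneg _).trans (le_max_left _ _)

/-- scaling of a vector -/
def sv (a : ℝ) (v : ℝ × ℝ) : ℝ × ℝ := (a * v.1, a * v.2)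

theorem Mk_sv {a : ℝ} (ha : 0 ≤ a) (v w : ℝ × ℝ) : Mk (sv a v) w = a * Mk v w := by
  unfold Mk sv
  simp only
  rw [mul_assoc, abs_mul a, mul_left_comm w.1, abs_mul a, abs_of_nonneg ha,
    mul_max_of_nonneg _ _ ha]

theorem BB_nil (L' : List (ℝ × ℝ)) : BB [] L' = 0 := by simp [BB]

theorem BB_nil' (L : List (ℝ × ℝ)) : BB L [] = 0 := by
  unfold BB
  simp

theorem BB_cons (v : ℝ × ℝ) (L L' : List (ℝ × ℝ)) :
    BB (v :: L) L' = (L'.map fun w => Mk v w).sum / 8 + BB L L' := by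
  unfold BB
  rw [List.map_cons, List.sum_cons, add_div]

theorem BB_cons' (w : ℝ × ℝ) (L L' : List (ℝ × ℝ)) :
    BB L (w :: L') = (L.map fun v => Mk v w).sum / 8 + BB L L' := by
  induction L with
  | nil => simp [BB]
  | cons v L ih =>
    rw [BB_cons, BB_cons, ih, List.map_cons, List.sum_cons, List.map_cons, List.sum_cons]
    ring

theorem BB_append (A B L' : List (ℝ × ℝ)) : BB (A ++ B) L' = BB A L' + BB B L' := by
  unfold BB
  rw [List.map_append, List.sum_append, add_div]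

theorem BB_comm (L L' : List (ℝ × ℝ)) : BB L L' = BB L' L := by
  induction L with
  | nil => rw [BB_nil, BB_nil']
  | cons v L ih =>
    rw [BB_cons, BB_cons', ih]
    simp only [Mk_comm v]

theorem BB_append' (L A B : List (ℝ × ℝ)) : BB L (A ++ B) = BB L A + BB L B := by
  rw [BB_comm, BB_append, BB_comm A, BB_comm B]

theorem BB_sv {a : ℝ} (ha : 0 ≤ a) (L L' : List (ℝ × ℝ)) :
    BB (L.map (sv a)) L' = a * BB L L' := by
  induction L with
  | nil => simp [BB]
  | cons v L ih =>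
    rw [List.map_cons, BB_cons, BB_cons, ih]
    simp only [Mk_sv ha]
    rw [List.sum_map_mul_left]
    ring

theorem BB_sv' {a : ℝ} (ha : 0 ≤ a) (L L' : List (ℝ × ℝ)) :
    BB L (L'.map (sv a)) = a * BB L L' := by
  rw [BB_comm, BB_sv ha, BB_comm]

theorem BB_nonneg (L L' : List (ℝ × ℝ)) : 0 ≤ BB L L' := by
  unfold BB
  apply div_nonneg _ (by norm_num)
  apply List.sum_nonneg
  intro x hx
  rw [List.mem_map] at hx
  obtain ⟨v, -, rfl⟩ := hx
  apply List.sum_nonneg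
  intro y hy
  rw [List.mem_map] at hy
  obtain ⟨w, -, rfl⟩ := hy
  exact Mk_nonneg _ _

theorem GG_combo {a b : ℝ} (ha : 0 ≤ a) (hb : 0 ≤ b) (A B : List (ℝ × ℝ)) :
    GG (A.map (sv a) ++ B.map (sv b)) = a ^ 2 * GG A + 2 * (a * b) * BB A B + b ^ 2 * GG B := by
  unfold GG
  rw [BB_append, BB_append', BB_append', BB_sv ha, BB_sv ha, BB_sv hb, BB_sv hb, BB_sv' ha,
    BB_sv' hb, BB_sv' ha, BB_sv' hb, BB_comm B A]
  ring

/-- scaling of a family -/
def sc (a : ℝ) (F : List (ℝ × (ℝ × ℝ))) : List (ℝ × (ℝ × ℝ)) :=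
  F.map fun e => (a * e.1, sv a e.2)

theorem sc_snd (a : ℝ) (F : List (ℝ × (ℝ × ℝ))) :
    (sc a F).map Prod.snd = (F.map Prod.snd).map (sv a) := by
  unfold sc
  rw [List.map_map, List.map_map]
  rfl

theorem sc_fst (a : ℝ) (F : List (ℝ × (ℝ × ℝ))) :
    ((sc a F).map Prod.fst).sum = a * (F.map Prod.fst).sum := by
  unfold sc
  rw [List.map_map]
  exact List.sum_map_mul_left _ _ _

theorem sc_fam {a : ℝ} (ha : 0 < a) {F : List (ℝ × (ℝ × ℝ))} (hF : Fam F) : Fam (sc a F) := by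
  intro e he
  unfold sc at he
  rw [List.mem_map] at he
  obtain ⟨f, hf, rfl⟩ := he
  obtain ⟨h1, h2⟩ := hF f hf
  refine ⟨mul_pos ha h1, ?_⟩
  unfold sv
  simp only
  rw [abs_mul, abs_mul, abs_of_pos ha, ← mul_add]
  exact mul_le_mul_of_nonneg_left h2 ha.le

theorem sc_cost {a : ℝ} (ha : 0 < a) (I : ℝ × ℝ → ℝ) (F : List (ℝ × (ℝ × ℝ))) :
    cost I (sc a F) = a * cost I F := by
  unfold cost sc
  rw [List.map_map, ← List.sum_map_mul_left]
  congr 1
  apply List.map_congr_left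
  intro e _
  simp only [Function.comp, sv]
  rw [mul_div_mul_left _ _ ha.ne', mul_div_mul_left _ _ ha.ne', mul_assoc]

theorem fam_dia {F : List (ℝ × (ℝ × ℝ))} (h : Fam F) {e : ℝ × (ℝ × ℝ)} (he : e ∈ F) :
    (e.2.1 / e.1, e.2.2 / e.1) ∈ Dia := by
  obtain ⟨h1, h2⟩ := h e he
  show |e.2.1 / e.1| + |e.2.2 / e.1| ≤ 1
  rw [abs_div, abs_div, abs_of_pos h1, ← add_div, div_le_one h1]
  exact h2

theorem cost_nonneg {I : ℝ × ℝ → ℝ} (hI : Rt I) {F : List (ℝ × (ℝ × ℝ))} (h : Fam F) :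
    0 ≤ cost I F := by
  unfold cost
  apply List.sum_nonneg
  intro x hx
  rw [List.mem_map] at hx
  obtain ⟨e, he, rfl⟩ := hx
  exact mul_nonneg (h e he).1.le (hI.nonneg _ (fam_dia h he))

theorem sup_swp {K : Set (ℝ × ℝ)} (hK : Swp K) (v : ℝ × ℝ) : sup K (v.2, v.1) = sup K v := by
  unfold sup
  congr 1
  ext x
  constructor
  · rintro ⟨h, hh, rfl⟩
    exact ⟨(h.2, h.1), hK h hh, by simp only; ring⟩
  · rintro ⟨h, hh, rfl⟩
    exact ⟨(h.2, h.1), hK h hh, by simp only; ring⟩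

/-- families with time `T` -/
def FF (u T : ℝ) : Set (List (ℝ × (ℝ × ℝ))) :=
  {F | Fam F ∧ (F.map Prod.fst).sum = T ∧ u ≤ GG (F.map Prod.snd)}

noncomputable def psi (I : ℝ × ℝ → ℝ) (u T : ℝ) : ℝ := sInf (cost I '' FF u T)

theorem psi_le {I : ℝ × ℝ → ℝ} (hI : Rt I) {u T : ℝ} {F : List (ℝ × (ℝ × ℝ))} (h : F ∈ FF u T) :
    psi I u T ≤ cost I F := by
  unfold psi
  apply csInf_le
  · refine ⟨0, ?_⟩
    rintro x ⟨G, hG, rfl⟩
    exact cost_nonneg hI hG.1
  · exact ⟨F, h, rfl⟩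

theorem le_psi {I : ℝ × ℝ → ℝ} {u T x : ℝ} (hne : (FF u T).Nonempty)
    (h : ∀ F ∈ FF u T, x ≤ cost I F) : x ≤ psi I u T := by
  unfold psi
  apply le_csInf
  · exact hne.image _
  · rintro y ⟨F, hF, rfl⟩
    exact h F hF

/-- weak duality -/
theorem weak (hWUL : StmtWUL) (hKEP : StmtKEP) {I : ℝ × ℝ → ℝ} (hI : Rt I) {E : ℝ} (hE : 0 < E)
    {F : List (ℝ × (ℝ × ℝ))} (hF : Fam F) :
    2 * √(volume.real (KE I E) * GG (F.map Prod.snd)) ≤
      cost I F + E * (F.map Prod.fst).sum := by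
  obtain ⟨-, h2, -, h4, h5, h6⟩ := hKEP I hI E hE
  refine (hWUL (KE I E) h2 h4 (F.map Prod.snd)).trans ?_
  have e1 : cost I F + E * (F.map Prod.fst).sum =
      (F.map fun e => e.1 * (I (e.2.1 / e.1, e.2.2 / e.1) + E)).sum := by
    unfold cost
    rw [← List.sum_map_mul_left, ← List.sum_map_add]
    congr 1
    apply List.map_congr_left
    intro e _
    ring
  rw [e1, List.map_map]
  apply List.sum_le_sum
  intro e he
  simp only [Function.comp]
  rw [sup_swp h5]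
  exact h6 e.1 e.2 (hF e he).1 (hF e he).2

theorem square_mem {u T : ℝ} (hT : 0 < T) (h : 16 * u ≤ T ^ 2) :
    [(T / 2, ((T / 2, 0) : ℝ × ℝ)), (T / 2, (0, T / 2))] ∈ FF u T := by
  have hT2 : 0 < T / 2 := by linarith
  refine ⟨?_, ?_, ?_⟩
  · intro e he
    simp only [List.mem_cons, List.not_mem_nil, or_false] at he
    rcases he with rfl | rfl
    · simp only [abs_zero, add_zero]
      exact ⟨hT2, by rw [abs_of_pos hT2]⟩
    · simp only [abs_zero, zero_add]
      exact ⟨hT2, by rw [abs_of_pos hT2]⟩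
  · simp
  · simp only [GG, BB, Mk, List.map_cons, List.map_nil, List.sum_cons, List.sum_nil, mul_zero,
      zero_mul, abs_zero, max_self, zero_add, add_zero]
    have h1 : 0 ≤ T / 2 * (T / 2) := by positivity
    rw [abs_of_nonneg h1, max_eq_left h1, max_eq_right h1]
    nlinarith

theorem exists_slope {D : Set ℝ} {f : ℝ → ℝ} (hf : ConvexOn ℝ D f) {x a b : ℝ} (ha : a ∈ D)
    (hb : b ∈ D) (_hx : x ∈ D) (hax : a < x) (hxb : x < b) :
    ∃ s : ℝ, ∀ y ∈ D, f x + s * (y - x) ≤ f y := by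
  have key : ∀ y ∈ D, ∀ z ∈ D, y < x → x < z → (f x - f y) / (x - y) ≤ (f z - f x) / (z - x) :=
    fun y hy z hz h1 h2 => hf.slope_mono_adjacent hy hz h1 h2
  obtain ⟨s, hs⟩ : ∃ s, s = sSup ((fun y => (f x - f y) / (x - y)) '' {y | y ∈ D ∧ y < x}) :=
    ⟨_, rfl⟩
  have hbdd : BddAbove ((fun y => (f x - f y) / (x - y)) '' {y | y ∈ D ∧ y < x}) := by
    refine ⟨(f b - f x) / (b - x), ?_⟩
    rintro _ ⟨y, ⟨hy, hyx⟩, rfl⟩
    exact key y hy b hb hyx hxb
  refine ⟨s, ?_⟩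
  intro y hy
  rcases lt_trichotomy y x with h | h | h
  · have h1 : (f x - f y) / (x - y) ≤ s := by
      rw [hs]
      exact le_csSup hbdd ⟨y, ⟨hy, h⟩, rfl⟩
    rw [div_le_iff₀ (by linarith)] at h1
    linarith
  · rw [h]
    simp
  · have h1 : s ≤ (f y - f x) / (y - x) := by
      rw [hs]
      apply csSup_le
      · exact ⟨_, a, ⟨ha, hax⟩, rfl⟩
      · rintro _ ⟨z, ⟨hz, hzx⟩, rfl⟩
        exact key z hz y hy hzx h
    rw [le_div_iff₀ (by linarith)] at h1
    linarith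

theorem combo_mem (hBMG : StmtBMG) {u : ℝ} (hu : 0 ≤ u) {T1 T2 a b : ℝ} (ha : 0 < a) (hb : 0 < b)
    (hab : a + b = 1) {F1 F2 : List (ℝ × (ℝ × ℝ))} (h1 : F1 ∈ FF u T1) (h2 : F2 ∈ FF u T2) :
    sc a F1 ++ sc b F2 ∈ FF u (a * T1 + b * T2) := by
  obtain ⟨f1, t1, g1⟩ := h1
  obtain ⟨f2, t2, g2⟩ := h2
  refine ⟨?_, ?_, ?_⟩
  · intro e he
    rw [List.mem_append] at he
    rcases he with he | he
    · exact sc_fam ha f1 e he
    · exact sc_fam hb f2 e he
  · rw [List.map_append, List.sum_append, sc_fst, sc_fst, t1, t2]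
  · rw [List.map_append, sc_snd, sc_snd, GG_combo ha.le hb.le]
    have h3 := hBMG (F1.map Prod.snd) (F2.map Prod.snd)
    have h4 : u ≤ BB (F1.map Prod.snd) (F2.map Prod.snd) := by
      refine le_trans ?_ h3
      apply Real.le_sqrt_of_sq_le
      rw [sq]
      exact mul_le_mul g1 g2 hu (hu.trans g1)
    have h5 : 0 < a * b := mul_pos ha hb
    have e : u = a ^ 2 * u + 2 * (a * b) * u + b ^ 2 * u := by
      have : (a + b) ^ 2 * u = u := by rw [hab]; ring
      linear_combination -this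
    rw [e]
    have k1 := mul_le_mul_of_nonneg_left g1 (sq_nonneg a)
    have k2 := mul_le_mul_of_nonneg_left g2 (sq_nonneg b)
    have k3 := mul_le_mul_of_nonneg_left h4 (by positivity : 0 ≤ 2 * (a * b))
    linarith

theorem combo_cost (I : ℝ × ℝ → ℝ) {a b : ℝ} (ha : 0 < a) (hb : 0 < b)
    (F1 F2 : List (ℝ × (ℝ × ℝ))) :
    cost I (sc a F1 ++ sc b F2) = a * cost I F1 + b * cost I F2 := by
  have h : cost I (sc a F1 ++ sc b F2) = cost I (sc a F1) + cost I (sc b F2) := by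
    unfold cost
    rw [List.map_append, List.sum_append]
  rw [h, sc_cost ha, sc_cost hb]

theorem near {I : ℝ × ℝ → ℝ} {u T : ℝ} (hne : (FF u T).Nonempty) {η : ℝ} (hη : 0 < η) :
    ∃ F ∈ FF u T, cost I F < psi I u T + η := by
  obtain ⟨x, ⟨F, hF, rfl⟩, hx⟩ := exists_lt_of_csInf_lt (hne.image (cost I))
    (show sInf (cost I '' FF u T) < psi I u T + η by unfold psi; linarith)
  exact ⟨F, hF, hx⟩

theorem psi_convex (hBMG : StmtBMG) {I : ℝ × ℝ → ℝ} (hI : Rt I) {u : ℝ} (hu : 0 ≤ u) :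
    ConvexOn ℝ {T | (FF u T).Nonempty} (psi I u) := by
  have hc : Convex ℝ {T | (FF u T).Nonempty} := by
    intro x hx y hy a b ha hb hab
    rcases ha.eq_or_lt with h | h
    · have : b = 1 := by linarith
      rw [← h, this]
      simpa using hy
    rcases hb.eq_or_lt with h' | h'
    · have : a = 1 := by linarith
      rw [← h', this]
      simpa using hx
    obtain ⟨F1, h1⟩ := hx
    obtain ⟨F2, h2⟩ := hy
    exact ⟨_, combo_mem hBMG hu h h' hab h1 h2⟩
  refine ⟨hc, ?_⟩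
  intro x hx y hy a b ha hb hab
  rcases ha.eq_or_lt with h | h
  · have : b = 1 := by linarith
    rw [← h, this]
    simp
  rcases hb.eq_or_lt with h' | h'
  · have : a = 1 := by linarith
    rw [← h', this]
    simp
  simp only [smul_eq_mul]
  apply le_of_forall_pos_lt_add
  intro η hη
  obtain ⟨F1, h1, c1⟩ := near hx hη (I := I)
  obtain ⟨F2, h2, c2⟩ := near hy hη (I := I)
  have h3 := psi_le hI (combo_mem hBMG hu h h' hab h1 h2)
  rw [combo_cost I h h'] at h3
  have k1 := mul_lt_mul_of_pos_left c1 h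
  have k2 := mul_lt_mul_of_pos_left c2 h'
  have k3 : a * η + b * η = η := by rw [← add_mul, hab, one_mul]
  linarith

theorem psi_anti {I : ℝ × ℝ → ℝ} (hI : Rt I) {u T T' : ℝ} (h : T < T')
    (hne : (FF u T).Nonempty) : (FF u T').Nonempty ∧ psi I u T' ≤ psi I u T := by
  have key : ∀ F ∈ FF u T, ((T' - T, ((0, 0) : ℝ × ℝ)) :: F) ∈ FF u T' ∧
      cost I ((T' - T, ((0, 0) : ℝ × ℝ)) :: F) = cost I F := by
    rintro F ⟨h1, h2, h3⟩
    refine ⟨⟨?_, ?_, ?_⟩, ?_⟩
    · intro e he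
      rw [List.mem_cons] at he
      rcases he with rfl | he
      · simp only [abs_zero, add_zero]
        exact ⟨by linarith, by linarith⟩
      · exact h1 e he
    · rw [List.map_cons, List.sum_cons, h2]
      simp
    · rw [List.map_cons]
      unfold GG
      rw [BB_cons, BB_cons']
      have e1 : ∀ w : ℝ × ℝ, Mk (0, 0) w = 0 := by intro w; simp [Mk]
      have e2 : ∀ w : ℝ × ℝ, Mk w (0, 0) = 0 := by intro w; simp [Mk]
      simp only [e1, e2]
      simp only [List.map_const', List.sum_replicate, smul_zero, zero_div, zero_add]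
      exact h3
    · unfold cost
      rw [List.map_cons, List.sum_cons]
      simp only [zero_div]
      have : I (0, 0) = 0 := hI.zero
      rw [this, mul_zero, zero_add]
  constructor
  · obtain ⟨F, hF⟩ := hne
    exact ⟨_, (key F hF).1⟩
  · apply le_psi hne
    intro F hF
    obtain ⟨k1, k2⟩ := key F hF
    have := psi_le hI k1
    rwa [k2] at this

/-- strong side -/
theorem strong (hAPX : StmtAPX) (hLEG : StmtLEG) (hKEP : StmtKEP) {I : ℝ × ℝ → ℝ} (hI : Rt I)
    {E : ℝ} (hE : 0 < E) {u : ℝ} (hu : 0 < u) {η : ℝ} (hη : 0 < η) :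
    ∃ F : List (ℝ × (ℝ × ℝ)), Fam F ∧ u ≤ GG (F.map Prod.snd) ∧
      cost I F + E * (F.map Prod.fst).sum ≤ 2 * √(u * volume.real (KE I E)) + η := by
  obtain ⟨h1, h2, h3, h4, -, -⟩ := hKEP I hI E hE
  obtain ⟨L, hL1, hL2⟩ := hAPX (KE I E) h1 h2 h3 h4 (√u) (Real.sqrt_pos.2 hu) (η / 2) (by linarith)
  rw [Real.sq_sqrt hu.le] at hL1
  rw [mul_assoc, ← Real.sqrt_mul hu.le] at hL2
  obtain ⟨ζ, hζ⟩ : ∃ ζ, ζ = η / (2 * (L.length + 1)) := ⟨_, rfl⟩
  have hζ0 : 0 < ζ := by rw [hζ]; positivity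
  choose t ht1 ht2 ht3 using fun v : ℝ × ℝ => hLEG I hI E hE v ζ hζ0
  refine ⟨L.map fun v => (t v, v), ?_, ?_, ?_⟩
  · intro e he
    rw [List.mem_map] at he
    obtain ⟨v, -, rfl⟩ := he
    exact ⟨ht1 v, ht2 v⟩
  · rw [List.map_map]
    have : (Prod.snd ∘ fun v : ℝ × ℝ => (t v, v)) = id := rfl
    rw [this, List.map_id]
    exact hL1
  · have e1 : cost I (L.map fun v => (t v, v)) + E * ((L.map fun v => (t v, v)).map Prod.fst).sum =
        (L.map fun v => t v * (I (v.1 / t v, v.2 / t v) + E)).sum := by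
      unfold cost
      rw [List.map_map, List.map_map, ← List.sum_map_mul_left, ← List.sum_map_add]
      congr 1
      apply List.map_congr_left
      intro e _
      simp only [Function.comp]
      ring
    rw [e1]
    have h5 : (L.map fun v => t v * (I (v.1 / t v, v.2 / t v) + E)).sum ≤
        (L.map fun v => sup (KE I E) v + ζ).sum :=
      List.sum_le_sum (fun v _ => ht3 v)
    refine h5.trans ?_
    rw [List.sum_map_add, List.map_const', List.sum_replicate, nsmul_eq_mul]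
    have h6 : (L.length : ℝ) * ζ ≤ η / 2 := by
      rw [hζ, mul_div_assoc', div_le_div_iff₀ (by positivity) (by norm_num)]
      nlinarith [Nat.cast_nonneg (α := ℝ) L.length]
    linarith

end ModFRM

open ModFRM in
theorem frm (hSYM : StmtSYM) (hARR : StmtARR) (hWUL : StmtWUL) (hBMG : StmtBMG)
    (hAPX : StmtAPX) (hLEG : StmtLEG) (hKEP : StmtKEP) : StmtFRM := by
  intro I hI u hu hu4
  obtain ⟨A, hA⟩ : ∃ A : ℝ → ℝ, A = fun E : ℝ => 2 * √(u * volume.real (KE I E)) - 2 * E := ⟨_, rfl⟩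
  obtain ⟨Phi, hPhi⟩ : ∃ Phi, Phi = sInf (cost I '' {E | Adm u E}) := ⟨_, rfl⟩
  rw [← hA, ← hPhi]
  have fam_of : ∀ E0, Adm u E0 → Fam E0 := fun E0 h => h.1
  -- weak side
  have hweak : ∀ E0, Adm u E0 → ∀ E, 0 < E → A E ≤ cost I E0 := by
    intro E0 h E hE
    have h1 := weak hWUL hKEP hI hE (fam_of E0 h)
    have h2 := hSYM (E0.map Prod.snd) h.2.2.1
    have h3 : u ≤ GG (E0.map Prod.snd) := by
      have := h.2.2.2
      linarith
    have h4 : √(u * volume.real (KE I E)) ≤ √(volume.real (KE I E) * GG (E0.map Prod.snd)) := by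
      apply Real.sqrt_le_sqrt
      rw [mul_comm]
      exact mul_le_mul_of_nonneg_left h3 measureReal_nonneg
    rw [h.2.1] at h1
    rw [hA]
    simp only
    linarith
  have hsq : Adm u [(1 / 2, (0, 1 / 2)), (1 / 2, (1 / 2, 0)), (1 / 2, (0, -(1 / 2))),
      (1 / 2, (-(1 / 2), 0))] := by
    refine ⟨?_, ?_, ?_, ?_⟩
    · intro e he
      simp only [List.mem_cons, List.not_mem_nil, or_false] at he
      rcases he with rfl | rfl | rfl | rfl <;> norm_num [abs_of_pos, abs_neg]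
    · norm_num
    · norm_num
    · simp only [List.map_cons, List.map_nil, AR.S2, AR.det, List.sum_cons, List.sum_nil,
        Prod.fst_add, Prod.snd_add, Prod.fst_zero, Prod.snd_zero]
      norm_num
      linarith
  have hbdd : BddAbove (A '' Set.Ioi 0) := by
    refine ⟨cost I [(1 / 2, (0, 1 / 2)), (1 / 2, (1 / 2, 0)), (1 / 2, (0, -(1 / 2))),
      (1 / 2, (-(1 / 2), 0))], ?_⟩
    rintro x ⟨E, hE, rfl⟩
    exact hweak _ hsq E hE
  refine ⟨hbdd, ?_⟩
  have hle1 : sSup (A '' Set.Ioi 0) ≤ Phi := by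
    apply csSup_le
    · exact ⟨_, 1, by norm_num, rfl⟩
    · rintro x ⟨E, hE, rfl⟩
      rw [hPhi]
      apply le_csInf
      · exact ⟨_, _, hsq, rfl⟩
      · rintro y ⟨E0, h0, rfl⟩
        exact hweak E0 h0 E hE
  -- the function psi
  have h2D : (FF u 2).Nonempty := ⟨_, square_mem (by norm_num) (by linarith)⟩
  have hle2 : Phi ≤ psi I u 2 := by
    apply le_psi h2D
    rintro F ⟨f1, f2, f3⟩
    obtain ⟨E', h1, h2⟩ := hARR I hI u F f1 f2 f3
    rw [← h2, hPhi]
    apply csInf_le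
    · refine ⟨0, ?_⟩
      rintro x ⟨G, hG, rfl⟩
      exact cost_nonneg hI (fam_of G hG)
    · exact ⟨E', h1, rfl⟩
  have hle3 : psi I u 2 ≤ sSup (A '' Set.Ioi 0) := by
    obtain ⟨T0, hT0, hT0', hT0''⟩ : ∃ T0 : ℝ, 0 < T0 ∧ T0 < 2 ∧ 16 * u ≤ T0 ^ 2 := by
      refine ⟨4 * √u, by positivity, ?_, ?_⟩
      · have : √u < 1 / 2 := by
          rw [Real.sqrt_lt' (by norm_num)]
          linarith
        linarith
      · rw [mul_pow, Real.sq_sqrt hu.le]
        linarith
    have hT0D : (FF u T0).Nonempty := ⟨_, square_mem hT0 hT0''⟩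
    have h3D : (FF u 3).Nonempty := ⟨_, square_mem (by norm_num) (by linarith)⟩
    obtain ⟨s, hs⟩ := exists_slope (psi_convex hBMG hI hu.le) hT0D h3D h2D hT0' (by norm_num)
    have hs0 : s ≤ 0 := by
      have h1 := hs 3 h3D
      have h2 := (psi_anti hI (show (2 : ℝ) < 3 by norm_num) h2D).2
      linarith
    have hstar : ∀ F, Fam F → u ≤ GG (F.map Prod.snd) →
        psi I u 2 + 2 * (-s) ≤ cost I F + (-s) * (F.map Prod.fst).sum := by
      intro F f1 f2
      have hm : F ∈ FF u (F.map Prod.fst).sum := ⟨f1, rfl, f2⟩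
      have h1 := hs _ ⟨F, hm⟩
      have h2 := psi_le hI hm
      linarith
    have hfin : ∀ E, 0 < E → -s ≤ E → psi I u 2 + 2 * (-s) ≤ A E + 2 * E := by
      intro E hE hsE
      apply le_of_forall_pos_le_add
      intro η hη
      obtain ⟨F, f1, f2, f3⟩ := strong hAPX hLEG hKEP hI hE hu hη
      have h1 := hstar F f1 f2
      have hT : 0 ≤ (F.map Prod.fst).sum := by
        apply List.sum_nonneg
        intro x hx
        rw [List.mem_map] at hx
        obtain ⟨e, he, rfl⟩ := hx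
        exact (f1 e he).1.le
      have h2 : -s * (F.map Prod.fst).sum ≤ E * (F.map Prod.fst).sum :=
        mul_le_mul_of_nonneg_right hsE hT
      rw [hA]
      simp only
      linarith
    rcases hs0.lt_or_eq with h | h
    · have h1 := hfin (-s) (by linarith) le_rfl
      have h2 : A (-s) ≤ sSup (A '' Set.Ioi 0) := le_csSup hbdd ⟨-s, by simpa using h, rfl⟩
      linarith
    · apply le_of_forall_pos_le_add
      intro η hη
      have h1 := hfin (η / 2) (by linarith) (by rw [h]; linarith)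
      have h2 : A (η / 2) ≤ sSup (A '' Set.Ioi 0) :=
        le_csSup hbdd ⟨η / 2, by simp only [Set.mem_Ioi]; linarith, rfl⟩
      rw [h] at h1
      linarith
  exact le_antisymm (hle2.trans hle3) hle1

end Pool.Agent.T6.H44.AR
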