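import Pool.Agent.T6.H44.AR.Defs

/-! Module J: the number of the cells enclosed by a lattice polygon. -/

set_option autoImplicit false

namespace Pool.Agent.T6.H44.AR

open Finset

namespace ModJ

/-- the indicator of `t < x` -/
def h (t x : ℤ) : ℤ := if t < x then 1 else 0

theorem h_sub (t x : ℤ) : h t x - h (t - 1) x = -(if x = t then 1 else 0) := by
  unfold h
  split_ifs <;> omega

theorem h_mem (t x : ℤ) : h t x = 0 ∨ h t x = 1 := by
  unfold h
  split_ifs <;> simp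

variable {m : ℕ} [NeZero m]

/-- the winding number of the cell -/
def w (f : ZMod m → ℤ × ℤ) (a b : ℤ) : ℤ :=
  ∑ k : ZMod m, h b (f k).2 * (h a (f (k + 1)).1 - h a (f k).1)

theorem sum_shift (g : ZMod m → ℤ) : ∑ k, g (k + 1) = ∑ k, g k :=
  Equiv.sum_comp (Equiv.addRight (1 : ZMod m)) g

theorem steps {f : ZMod m → ℤ × ℤ}
    (hf : ∀ i : ZMod m, |(f (i + 1)).1 - (f i).1| + |(f (i + 1)).2 - (f i).2| = 1) (k : ZMod m) :
    ((f (k + 1)).1 = (f k).1 + 1 ∧ (f (k + 1)).2 = (f k).2) ∨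
    ((f (k + 1)).1 = (f k).1 - 1 ∧ (f (k + 1)).2 = (f k).2) ∨
    ((f (k + 1)).1 = (f k).1 ∧ (f (k + 1)).2 = (f k).2 + 1) ∨
    ((f (k + 1)).1 = (f k).1 ∧ (f (k + 1)).2 = (f k).2 - 1) := by
  have h1 := hf k
  rcases abs_cases ((f (k + 1)).1 - (f k).1) with ⟨e1, _⟩ | ⟨e1, _⟩ <;>
    rcases abs_cases ((f (k + 1)).2 - (f k).2) with ⟨e2, _⟩ | ⟨e2, _⟩ <;>
    rw [e1, e2] at h1 <;> omega

/-- the step `k` is along the edge `u v` -/
def tr (f : ZMod m → ℤ × ℤ) (u v : ℤ × ℤ) (k : ZMod m) : Prop :=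
  (f k = u ∧ f (k + 1) = v) ∨ (f k = v ∧ f (k + 1) = u)

theorem two_ne (hm : 3 ≤ m) : (1 + 1 : ZMod m) ≠ 0 := by
  intro h0
  have h1 : ((2 : ℕ) : ZMod m) = 0 := by
    rw [← h0]
    norm_num
  rw [ZMod.natCast_eq_zero_iff] at h1
  have := Nat.le_of_dvd (by norm_num) h1
  omega

theorem one_ne (hm : 3 ≤ m) : (1 : ZMod m) ≠ 0 := by
  intro h0
  have h1 : ((1 : ℕ) : ZMod m) = 0 := by
    rw [Nat.cast_one]
    exact h0
  rw [ZMod.natCast_eq_zero_iff] at h1
  have := Nat.le_of_dvd (by norm_num) h1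
  omega

theorem tr_uniq (hm : 3 ≤ m) {f : ZMod m → ℤ × ℤ} (hi : Function.Injective f) {u v : ℤ × ℤ}
    {k l : ZMod m} (hk : tr f u v k) (hl : tr f u v l) : k = l := by
  have key : ∀ {u v : ℤ × ℤ} {k l : ZMod m}, f k = u → f (k + 1) = v → f l = v → f (l + 1) = u →
      False := by
    intro u v k l h1 h2 h3 h4
    have e1 : k + 1 = l := hi (h2.trans h3.symm)
    have e2 : l + 1 = k := hi (h4.trans h1.symm)
    rw [← e1, add_assoc] at e2
    exact two_ne hm (by simpa using e2)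
  rcases hk with ⟨h1, h2⟩ | ⟨h1, h2⟩ <;> rcases hl with ⟨h3, h4⟩ | ⟨h3, h4⟩
  · exact hi (h1.trans h3.symm)
  · exact (key h1 h2 h3 h4).elim
  · exact (key h3 h4 h1 h2).elim
  · exact hi (h1.trans h3.symm)

theorem dE (f : ZMod m → ℤ × ℤ) (a b : ℤ) : w f a b - w f a (b - 1) =
    -∑ k : ZMod m, (if (f k).2 = b then 1 else 0) * (h a (f (k + 1)).1 - h a (f k).1) := by
  unfold w
  rw [← Finset.sum_sub_distrib, ← Finset.sum_neg_distrib]
  refine Finset.sum_congr rfl fun k _ => ?_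
  rw [← sub_mul, h_sub]
  ring

theorem dN (f : ZMod m → ℤ × ℤ) (a b : ℤ) : w f a b - w f (a - 1) b =
    ∑ k : ZMod m, (if (f (k + 1)).1 = a then 1 else 0) * (h b (f (k + 1)).2 - h b (f k).2) := by
  have h1 := sum_shift (fun k : ZMod m => h b (f k).2 * (if (f k).1 = a then 1 else 0))
  have h2 : w f a b - w f (a - 1) b -
      ∑ k : ZMod m, (if (f (k + 1)).1 = a then 1 else 0) * (h b (f (k + 1)).2 - h b (f k).2) =
      ∑ k : ZMod m, (h b (f k).2 * (if (f k).1 = a then 1 else 0) -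
        h b (f (k + 1)).2 * (if (f (k + 1)).1 = a then 1 else 0)) := by
    unfold w
    rw [← Finset.sum_sub_distrib, ← Finset.sum_sub_distrib]
    refine Finset.sum_congr rfl fun k _ => ?_
    have e1 := h_sub a (f (k + 1)).1
    have e2 := h_sub a (f k).1
    linear_combination h b (f k).2 * e1 - h b (f k).2 * e2
  rw [Finset.sum_sub_distrib] at h2
  linarith

/-- a sum with at most one term, which is in `-1, 0, 1` -/
theorem sum_one (g : ZMod m → ℤ) (S : ZMod m → Prop) (h1 : ∀ k, g k ≠ 0 → S k)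
    (h2 : ∀ k l, S k → S l → k = l) (h3 : ∀ k, |g k| ≤ 1) : |∑ k, g k| ≤ 1 := by
  by_cases h4 : ∃ k, g k ≠ 0
  · obtain ⟨k, hk⟩ := h4
    rw [Finset.sum_eq_single k]
    · exact h3 k
    · intro l _ hl
      by_contra h5
      exact hl (h2 _ _ (h1 l h5) (h1 k hk))
    · intro h5
      exact (h5 (Finset.mem_univ _)).elim
  · push Not at h4
    rw [Finset.sum_eq_zero fun k _ => h4 k]
    simp

section

variable {f : ZMod m → ℤ × ℤ}
    (hf : ∀ i : ZMod m, |(f (i + 1)).1 - (f i).1| + |(f (i + 1)).2 - (f i).2| = 1)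

include hf

theorem gE_tr (a b : ℤ) (k : ZMod m)
    (h0 : (if (f k).2 = b then (1 : ℤ) else 0) * (h a (f (k + 1)).1 - h a (f k).1) ≠ 0) :
    tr f (a, b) (a + 1, b) k := by
  unfold h at h0
  unfold tr
  rw [Prod.ext_iff, Prod.ext_iff, Prod.ext_iff, Prod.ext_iff]
  rcases steps hf k with h1 | h1 | h1 | h1 <;> split_ifs at h0 <;> simp at h0 ⊢ <;> omega

theorem gN_tr (a b : ℤ) (k : ZMod m)
    (h0 : (if (f (k + 1)).1 = a then (1 : ℤ) else 0) * (h b (f (k + 1)).2 - h b (f k).2) ≠ 0) :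
    tr f (a, b) (a, b + 1) k := by
  unfold h at h0
  unfold tr
  rw [Prod.ext_iff, Prod.ext_iff, Prod.ext_iff, Prod.ext_iff]
  rcases steps hf k with h1 | h1 | h1 | h1 <;> split_ifs at h0 <;> simp at h0 ⊢ <;> omega

omit [NeZero m] hf in
theorem g_le (P : Prop) [Decidable P] (a x y : ℤ) :
    |(if P then (1 : ℤ) else 0) * (h a x - h a y)| ≤ 1 := by
  rcases h_mem a x with e1 | e1 <;> rcases h_mem a y with e2 | e2 <;> rw [e1, e2] <;>
    split_ifs <;> simp

theorem zE {a b : ℤ} (h0 : ∀ k, ¬ tr f (a, b) (a + 1, b) k) : w f a b = w f a (b - 1) := by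
  have h1 := dE f a b
  rw [Finset.sum_eq_zero fun k _ => ?_] at h1
  · linarith
  · by_contra h2
    exact h0 k (gE_tr hf a b k h2)

theorem zN {a b : ℤ} (h0 : ∀ k, ¬ tr f (a, b) (a, b + 1) k) : w f a b = w f (a - 1) b := by
  have h1 := dN f a b
  rw [Finset.sum_eq_zero fun k _ => ?_] at h1
  · linarith
  · by_contra h2
    exact h0 k (gN_tr hf a b k h2)

variable (hm : 3 ≤ m) (hi : Function.Injective f)

include hm hi

theorem oE (a b : ℤ) : |w f a b - w f a (b - 1)| ≤ 1 := by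
  rw [dE, abs_neg]
  exact sum_one _ (tr f (a, b) (a + 1, b)) (gE_tr hf a b) (fun k l => tr_uniq hm hi)
    fun k => g_le _ _ _ _

theorem oN (a b : ℤ) : |w f a b - w f (a - 1) b| ≤ 1 := by
  rw [dN]
  exact sum_one _ (tr f (a, b) (a, b + 1)) (gN_tr hf a b) (fun k l => tr_uniq hm hi)
    fun k => g_le _ _ _ _

end

/-- parity at a vertex -/
theorem par (A B C D : Prop) (h0 : ¬ (A ↔ B) ∨ ¬ (C ↔ D) ∨ ¬ (A ↔ C) ∨ ¬ (B ↔ D))
    (n1 : ¬ (¬ (A ↔ B) ∧ ¬ (C ↔ D))) (n2 : ¬ (¬ (A ↔ B) ∧ ¬ (A ↔ C)))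
    (n3 : ¬ (¬ (A ↔ B) ∧ ¬ (B ↔ D))) (n4 : ¬ (¬ (C ↔ D) ∧ ¬ (A ↔ C)))
    (n5 : ¬ (¬ (C ↔ D) ∧ ¬ (B ↔ D))) (n6 : ¬ (¬ (A ↔ C) ∧ ¬ (B ↔ D))) : False := by
  by_cases hA : A <;> by_cases hB : B <;> by_cases hC : C <;> by_cases hD : D <;>
    simp only [hA, hB, hC, hD, iff_self, iff_true, iff_false, not_true, not_false_iff, and_true,
      true_and, or_false, false_or, and_self, or_self] at h0 n1 n2 n3 n4 n5 n6

/-- the horizontal edge from `(a, b)` separates the level set -/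
def sE (f : ZMod m → ℤ × ℤ) (t a b : ℤ) : Prop := ¬ (t ≤ w f a b ↔ t ≤ w f a (b - 1))

/-- the vertical edge from `(a, b)` separates the level set -/
def sN (f : ZMod m → ℤ × ℤ) (t a b : ℤ) : Prop := ¬ (t ≤ w f a b ↔ t ≤ w f (a - 1) b)

/-- the step `k` separates the level set -/
def P (f : ZMod m → ℤ × ℤ) (t : ℤ) (k : ZMod m) : Prop :=
  (∃ a b, tr f (a, b) (a + 1, b) k ∧ sE f t a b) ∨ ∃ a b, tr f (a, b) (a, b + 1) k ∧ sN f t a b

section

variable {f : ZMod m → ℤ × ℤ}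
    (hf : ∀ i : ZMod m, |(f (i + 1)).1 - (f i).1| + |(f (i + 1)).2 - (f i).2| = 1)
    (hm : 3 ≤ m) (hi : Function.Injective f)

include hf hm hi

theorem P_succ (t : ℤ) (k : ZMod m) (hP : P f t k) : P f t (k + 1) := by
  by_contra hN
  obtain ⟨x, y, hv⟩ : ∃ x y, f (k + 1) = (x, y) := ⟨_, _, rfl⟩
  -- an edge at the vertex is used by the step `k` or `k + 1`
  have hat : ∀ (u v : ℤ × ℤ) (l : ZMod m), tr f u v l → u = (x, y) ∨ v = (x, y) → l = k ∨
      l = k + 1 := by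
    intro u v l hl huv
    rcases hl with ⟨h1, h2⟩ | ⟨h1, h2⟩ <;> rcases huv with h3 | h3
    · right; exact hi (h1.trans (h3.trans hv.symm))
    · left; exact add_right_cancel (hi (h2.trans (h3.trans hv.symm)))
    · left; exact add_right_cancel (hi (h2.trans (h3.trans hv.symm)))
    · right; exact hi (h1.trans (h3.trans hv.symm))
  have hne : f k ≠ (x, y) := by
    intro h1
    have h2 := hi (h1.trans hv.symm)
    exact one_ne hm (by simpa using h2.symm)
  have hE : sE f t x y → f k = (x + 1, y) := by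
    intro hs
    have h1 : ∃ l, tr f (x, y) (x + 1, y) l := by
      by_contra h1
      push Not at h1
      apply hs
      rw [zE hf h1]
    obtain ⟨l, hl⟩ := h1
    rcases hat _ _ l hl (Or.inl rfl) with rfl | rfl
    · rcases hl with ⟨h1, _⟩ | ⟨h1, _⟩
      · exact (hne h1).elim
      · exact h1
    · exact (hN (Or.inl ⟨_, _, hl, hs⟩)).elim
  have hW : sE f t (x - 1) y → f k = (x - 1, y) := by
    intro hs
    have h1 : ∃ l, tr f (x - 1, y) (x - 1 + 1, y) l := by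
      by_contra h1
      push Not at h1
      apply hs
      rw [zE hf h1]
    obtain ⟨l, hl⟩ := h1
    rcases hat _ _ l hl (Or.inr (by rw [sub_add_cancel])) with rfl | rfl
    · rcases hl with ⟨h1, _⟩ | ⟨h1, _⟩
      · exact h1
      · rw [sub_add_cancel] at h1
        exact (hne h1).elim
    · exact (hN (Or.inl ⟨_, _, hl, hs⟩)).elim
  have hU : sN f t x y → f k = (x, y + 1) := by
    intro hs
    have h1 : ∃ l, tr f (x, y) (x, y + 1) l := by
      by_contra h1
      push Not at h1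
      apply hs
      rw [zN hf h1]
    obtain ⟨l, hl⟩ := h1
    rcases hat _ _ l hl (Or.inl rfl) with rfl | rfl
    · rcases hl with ⟨h1, _⟩ | ⟨h1, _⟩
      · exact (hne h1).elim
      · exact h1
    · exact (hN (Or.inr ⟨_, _, hl, hs⟩)).elim
  have hD : sN f t x (y - 1) → f k = (x, y - 1) := by
    intro hs
    have h1 : ∃ l, tr f (x, y - 1) (x, y - 1 + 1) l := by
      by_contra h1
      push Not at h1
      apply hs
      rw [zN hf h1]
    obtain ⟨l, hl⟩ := h1
    rcases hat _ _ l hl (Or.inr (by rw [sub_add_cancel])) with rfl | rfl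
    · rcases hl with ⟨h1, _⟩ | ⟨h1, _⟩
      · exact h1
      · rw [sub_add_cancel] at h1
        exact (hne h1).elim
    · exact (hN (Or.inr ⟨_, _, hl, hs⟩)).elim
  -- the edge of the step `k` is one of the four
  have hone : sE f t x y ∨ sE f t (x - 1) y ∨ sN f t x y ∨ sN f t x (y - 1) := by
    rcases hP with ⟨a, b, hk, hs⟩ | ⟨a, b, hk, hs⟩ <;> rcases hk with ⟨_, h2⟩ | ⟨_, h2⟩ <;>
      rw [hv, Prod.mk.injEq] at h2 <;> obtain ⟨rfl, rfl⟩ := h2
    · right; left
      rwa [add_sub_cancel_right]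
    · left; exact hs
    · right; right; right
      rwa [add_sub_cancel_right]
    · right; right; left; exact hs
  have n1 : ¬ (sE f t x y ∧ sE f t (x - 1) y) := by
    rintro ⟨h1, h2⟩
    have h3 := (hE h1).symm.trans (hW h2)
    rw [Prod.mk.injEq] at h3
    omega
  have n2 : ¬ (sE f t x y ∧ sN f t x y) := by
    rintro ⟨h1, h2⟩
    have h3 := (hE h1).symm.trans (hU h2)
    rw [Prod.mk.injEq] at h3
    omega
  have n3 : ¬ (sE f t x y ∧ sN f t x (y - 1)) := by
    rintro ⟨h1, h2⟩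
    have h3 := (hE h1).symm.trans (hD h2)
    rw [Prod.mk.injEq] at h3
    omega
  have n4 : ¬ (sE f t (x - 1) y ∧ sN f t x y) := by
    rintro ⟨h1, h2⟩
    have h3 := (hW h1).symm.trans (hU h2)
    rw [Prod.mk.injEq] at h3
    omega
  have n5 : ¬ (sE f t (x - 1) y ∧ sN f t x (y - 1)) := by
    rintro ⟨h1, h2⟩
    have h3 := (hW h1).symm.trans (hD h2)
    rw [Prod.mk.injEq] at h3
    omega
  have n6 : ¬ (sN f t x y ∧ sN f t x (y - 1)) := by
    rintro ⟨h1, h2⟩
    have h3 := (hU h1).symm.trans (hD h2)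
    rw [Prod.mk.injEq] at h3
    omega
  exact par _ _ _ _ hone n1 n2 n3 n4 n5 n6

theorem P_zero (t : ℤ) (k : ZMod m) (hP : P f t k) : P f t 0 := by
  have h1 : ∀ n : ℕ, P f t (k + n) := by
    intro n
    induction n with
    | zero => simpa using hP
    | succ n ih =>
      have := P_succ hf hm hi t _ ih
      rwa [add_assoc, ← Nat.cast_succ] at this
  have h2 := h1 (-k).val
  rwa [ZMod.natCast_zmod_val, add_neg_cancel] at h2

theorem P_uniq (t t' : ℤ) (k : ZMod m) (hP : P f t k) (hP' : P f t' k) : t = t' := by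
  have key : ∀ {p q : ℤ}, |p - q| ≤ 1 → ¬ (t ≤ p ↔ t ≤ q) → ¬ (t' ≤ p ↔ t' ≤ q) → t = t' := by
    intro p q h1 h2 h3
    rw [abs_le] at h1
    omega
  rcases hP with ⟨a, b, hk, hs⟩ | ⟨a, b, hk, hs⟩ <;>
    rcases hP' with ⟨a', b', hk', hs'⟩ | ⟨a', b', hk', hs'⟩
  · have h1 : a = a' ∧ b = b' := by
      rcases hk with ⟨h1, h2⟩ | ⟨h1, h2⟩ <;> rcases hk' with ⟨h3, h4⟩ | ⟨h3, h4⟩ <;>
        rw [h1] at h3 <;> rw [h2] at h4 <;> rw [Prod.mk.injEq] at h3 h4 <;> omega
    obtain ⟨rfl, rfl⟩ := h1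
    exact key (oE hf hm hi a b) hs hs'
  · exfalso
    rcases hk with ⟨h1, h2⟩ | ⟨h1, h2⟩ <;> rcases hk' with ⟨h3, h4⟩ | ⟨h3, h4⟩ <;>
      rw [h1] at h3 <;> rw [h2] at h4 <;> rw [Prod.mk.injEq] at h3 h4 <;> omega
  · exfalso
    rcases hk with ⟨h1, h2⟩ | ⟨h1, h2⟩ <;> rcases hk' with ⟨h3, h4⟩ | ⟨h3, h4⟩ <;>
      rw [h1] at h3 <;> rw [h2] at h4 <;> rw [Prod.mk.injEq] at h3 h4 <;> omega
  · have h1 : a = a' ∧ b = b' := by
      rcases hk with ⟨h1, h2⟩ | ⟨h1, h2⟩ <;> rcases hk' with ⟨h3, h4⟩ | ⟨h3, h4⟩ <;>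
        rw [h1] at h3 <;> rw [h2] at h4 <;> rw [Prod.mk.injEq] at h3 h4 <;> omega
    obtain ⟨rfl, rfl⟩ := h1
    exact key (oN hf hm hi a b) hs hs'

end

/-- a box containing the loop -/
theorem exists_box (f : ZMod m → ℤ × ℤ) : ∃ N : ℤ, 0 ≤ N ∧ ∀ k, -N ≤ (f k).1 ∧ (f k).1 ≤ N ∧
    -N ≤ (f k).2 ∧ (f k).2 ≤ N := by
  refine ⟨∑ k, (|(f k).1| + |(f k).2|), Finset.sum_nonneg fun k _ => by positivity, fun k => ?_⟩
  have h1 : |(f k).1| + |(f k).2| ≤ ∑ k, (|(f k).1| + |(f k).2|) :=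
    Finset.single_le_sum (f := fun k => |(f k).1| + |(f k).2|) (fun k _ => by positivity)
      (Finset.mem_univ k)
  have h2 := abs_le.1 (le_refl |(f k).1|)
  have h3 := abs_le.1 (le_refl |(f k).2|)
  have h4 := abs_nonneg (f k).1
  have h5 := abs_nonneg (f k).2
  refine ⟨?_, ?_, ?_, ?_⟩ <;> linarith

theorem w_out {f : ZMod m → ℤ × ℤ} {N : ℤ} (hN : ∀ k, -N ≤ (f k).1 ∧ (f k).1 ≤ N ∧
    -N ≤ (f k).2 ∧ (f k).2 ≤ N) {a b : ℤ} (hab : a < -N ∨ N ≤ a ∨ b < -N ∨ N ≤ b) :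
    w f a b = 0 := by
  rcases hab with h0 | h0 | h0 | h0
  · refine Finset.sum_eq_zero fun k _ => ?_
    have h1 := hN k
    have h2 := hN (k + 1)
    unfold h
    rw [if_pos (show a < (f (k + 1)).1 by omega), if_pos (show a < (f k).1 by omega)]
    simp
  · refine Finset.sum_eq_zero fun k _ => ?_
    have h1 := hN k
    have h2 := hN (k + 1)
    unfold h
    rw [if_neg (show ¬ a < (f (k + 1)).1 by omega), if_neg (show ¬ a < (f k).1 by omega)]
    simp
  · unfold w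
    have h3 : ∀ k : ZMod m, h b (f k).2 = 1 := by
      intro k
      have h1 := hN k
      unfold h
      rw [if_pos (by omega)]
    simp only [h3, one_mul]
    rw [Finset.sum_sub_distrib, sum_shift (fun k => h a (f k).1), sub_self]
  · refine Finset.sum_eq_zero fun k _ => ?_
    have h1 := hN k
    unfold h
    rw [if_neg (show ¬ b < (f k).2 by omega)]
    simp

section

variable {f : ZMod m → ℤ × ℤ}
    (hf : ∀ i : ZMod m, |(f (i + 1)).1 - (f i).1| + |(f (i + 1)).2 - (f i).2| = 1)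
    (hm : 3 ≤ m) (hi : Function.Injective f)

include hf hm hi

theorem level {t : ℤ} (h0 : ¬ P f t 0) (a b : ℤ) : t ≤ w f a b ↔ t ≤ 0 := by
  have h1 : ∀ b, (t ≤ w f a b ↔ t ≤ w f a (b - 1)) := by
    intro b
    by_contra hs
    apply h0
    have h2 : ∃ l, tr f (a, b) (a + 1, b) l := by
      by_contra h1
      push Not at h1
      apply hs
      rw [zE hf h1]
    obtain ⟨l, hl⟩ := h2
    exact P_zero hf hm hi t l (Or.inl ⟨a, b, hl, hs⟩)
  have h2 : ∀ n : ℕ, (t ≤ w f a (b + n) ↔ t ≤ w f a b) := by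
    intro n
    induction n with
    | zero => simp
    | succ n ih =>
      rw [← ih, h1]
      have e : b + ((n + 1 : ℕ) : ℤ) - 1 = b + n := by push_cast; ring
      rw [e]
  obtain ⟨N, hN0, hN⟩ := exists_box f
  have h3 := h2 (N - b).toNat
  rw [w_out hN (by right; right; right; have := Int.self_le_toNat (N - b); omega)] at h3
  exact h3.symm

theorem values : (∀ a b, w f a b = 0 ∨ w f a b = 1) ∨ ∀ a b, w f a b = 0 ∨ w f a b = -1 := by
  by_cases h1 : P f 1 0
  · left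
    intro a b
    have h2 : ¬ P f 2 0 := fun h => by
      have := P_uniq hf hm hi _ _ 0 h1 h
      omega
    have h3 : ¬ P f 0 0 := fun h => by
      have := P_uniq hf hm hi _ _ 0 h1 h
      omega
    have h4 := level hf hm hi h2 a b
    have h5 := level hf hm hi h3 a b
    omega
  · right
    intro a b
    have h4 := level hf hm hi h1 a b
    have h3 : ¬ P f (-1) 0 ∨ ¬ P f 0 0 := by
      by_contra h
      push Not at h
      have := P_uniq hf hm hi _ _ 0 h.1 h.2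
      omega
    rcases h3 with h3 | h3
    · have h5 := level hf hm hi h3 a b
      omega
    · have h5 := level hf hm hi h3 a b
      omega

end

open Classical in
theorem encl_iff {f : ZMod m → ℤ × ℤ}
    (hf : ∀ i : ZMod m, |(f (i + 1)).1 - (f i).1| + |(f (i + 1)).2 - (f i).2| = 1)
    (c : ℤ × ℤ) : Encl m f c ↔ Odd (w f c.1 c.2) := by
  unfold Encl
  rw [Nat.card_eq_fintype_card, Fintype.card_subtype, ← Int.odd_coe_nat,
    Finset.natCast_card_filter]
  have h1 : Even ((∑ k : ZMod m, if Above m f c.1 c.2 k then (1 : ℤ) else 0) - w f c.1 c.2) := by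
    unfold w
    rw [← Finset.sum_sub_distrib, even_iff_two_dvd]
    refine Finset.dvd_sum fun k _ => ?_
    unfold Above h
    rcases steps hf k with h1 | h1 | h1 | h1 <;> split_ifs <;> simp <;> omega
  obtain ⟨d, hd⟩ := h1
  rw [Int.odd_iff, Int.odd_iff]
  omega

theorem sum_h {N x : ℤ} (h1 : -N ≤ x) (h2 : x ≤ N) : ∑ a ∈ Finset.Ico (-N) N, h a x = x + N := by
  unfold h
  rw [Finset.sum_boole]
  have h3 : (Finset.Ico (-N) N).filter (fun a => a < x) = Finset.Ico (-N) x := by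
    ext a
    rw [Finset.mem_filter, Finset.mem_Ico, Finset.mem_Ico]
    omega
  rw [h3, Int.card_Ico, Int.toNat_of_nonneg (by omega)]
  ring

theorem sum_box {f : ZMod m → ℤ × ℤ} {N : ℤ} (hN : ∀ k, -N ≤ (f k).1 ∧ (f k).1 ≤ N ∧
    -N ≤ (f k).2 ∧ (f k).2 ≤ N) :
    ∑ c ∈ Finset.Ico (-N) N ×ˢ Finset.Ico (-N) N, w f c.1 c.2 =
      ∑ k : ZMod m, (f k).2 * ((f (k + 1)).1 - (f k).1) := by
  unfold w
  rw [Finset.sum_comm]
  have h1 : ∀ k : ZMod m, ∑ c ∈ Finset.Ico (-N) N ×ˢ Finset.Ico (-N) N,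
      h c.2 (f k).2 * (h c.1 (f (k + 1)).1 - h c.1 (f k).1) =
      (f k).2 * ((f (k + 1)).1 - (f k).1) + N * (f (k + 1)).1 - N * (f k).1 := by
    intro k
    have h2 := hN k
    have h3 := hN (k + 1)
    have h4 : (∑ a ∈ Finset.Ico (-N) N, (h a (f (k + 1)).1 - h a (f k).1)) *
        ∑ b ∈ Finset.Ico (-N) N, h b (f k).2 = ((f (k + 1)).1 - (f k).1) * ((f k).2 + N) := by
      rw [Finset.sum_sub_distrib, sum_h h3.1 h3.2.1, sum_h h2.1 h2.2.1, sum_h h2.2.2.1 h2.2.2.2]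
      ring
    rw [Finset.sum_mul_sum] at h4
    rw [Finset.sum_product]
    refine Eq.trans ?_ (h4.trans (by ring))
    refine Finset.sum_congr rfl fun a _ => Finset.sum_congr rfl fun b _ => ?_
    ring
  rw [Finset.sum_congr rfl fun k _ => h1 k, Finset.sum_sub_distrib, Finset.sum_add_distrib,
    sum_shift (fun k => N * (f k).1)]
  ring

end ModJ

open ModJ in
open Classical in
/-- Module J. -/
theorem j : StmtJ := by
  intro m hm _ f hl
  obtain ⟨_, hi, hf⟩ := hl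
  obtain ⟨N, hN0, hN⟩ := exists_box f
  have harea : area m f = ((Finset.Ico (-N) N ×ˢ Finset.Ico (-N) N).filter
      (fun c => Odd (w f c.1 c.2))).card := by
    unfold area
    refine Nat.subtype_card _ ?_
    intro c
    rw [encl_iff hf, Finset.mem_filter, Finset.mem_product, Finset.mem_Ico, Finset.mem_Ico]
    constructor
    · exact fun h => h.2
    · intro h
      refine ⟨?_, h⟩
      by_contra h2
      rw [w_out hN (by omega)] at h
      exact absurd h (by decide)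
  rw [harea, Finset.natCast_card_filter, ← sum_box hN]
  rcases values hf hm hi with hv | hv
  · have h1 : ∑ c ∈ Finset.Ico (-N) N ×ˢ Finset.Ico (-N) N, w f c.1 c.2 =
        ∑ c ∈ Finset.Ico (-N) N ×ˢ Finset.Ico (-N) N,
          (if Odd (w f c.1 c.2) then (1 : ℤ) else 0) := by
      refine Finset.sum_congr rfl fun c _ => ?_
      rcases hv c.1 c.2 with h2 | h2 <;> rw [h2]
      · rw [if_neg (by decide)]
      · rw [if_pos (by decide)]
    rw [h1, abs_of_nonneg]
    exact Finset.sum_nonneg fun c _ => by split_ifs <;> norm_num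
  · have h1 : ∑ c ∈ Finset.Ico (-N) N ×ˢ Finset.Ico (-N) N, w f c.1 c.2 =
        -∑ c ∈ Finset.Ico (-N) N ×ˢ Finset.Ico (-N) N,
          (if Odd (w f c.1 c.2) then (1 : ℤ) else 0) := by
      rw [← Finset.sum_neg_distrib]
      refine Finset.sum_congr rfl fun c _ => ?_
      rcases hv c.1 c.2 with h2 | h2 <;> rw [h2]
      · rw [if_neg (by decide)]
        rfl
      · rw [if_pos (by decide)]
    rw [h1, abs_neg, abs_of_nonneg]
    exact Finset.sum_nonneg fun c _ => by split_ifs <;> norm_num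

end Pool.Agent.T6.H44.AR
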