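import Pool.Agent.T6.H44.AR.Defs3

/-!
Project AR, part 2, module KEP: the sets `KE I E` are symmetric convex bodies.
-/

set_option autoImplicit false

open MeasureTheory

namespace Pool.Agent.T6.H44.AR

theorem kep : StmtKEP := by
  intro I hI E hE
  obtain ⟨B, hB⟩ := hI.bdd
  have hdia : ∀ w : ℝ × ℝ, w ∈ Dia → |w.1| + |w.2| ≤ 1 := fun w hw => hw
  have h0 : (0 : ℝ × ℝ) ∈ KE I E := by
    intro w hw
    simp only [Prod.fst_zero, Prod.snd_zero, zero_mul, add_zero]
    have := hI.nonneg w hw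
    linarith
  have heq : KE I E = ⋂ w ∈ Dia, {h : ℝ × ℝ | h.1 * w.1 + h.2 * w.2 ≤ E + I w} := by
    ext h
    simp only [Set.mem_iInter]
    rfl
  have hclosed : IsClosed (KE I E) := by
    rw [heq]
    apply isClosed_biInter
    intro w _
    exact isClosed_le (by fun_prop) continuous_const
  have hconv : Convex ℝ (KE I E) := by
    intro x hx y hy a b ha hb hab w hw
    have h1 := mul_le_mul_of_nonneg_left (hx w hw) ha
    have h2 := mul_le_mul_of_nonneg_left (hy w hw) hb
    simp only [Prod.fst_add, Prod.snd_add, Prod.smul_fst, Prod.smul_snd, smul_eq_mul]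
    have h3 : E + I w = a * (E + I w) + b * (E + I w) := by rw [← add_mul, hab, one_mul]
    rw [h3]
    linarith
  have hbd : ∀ h ∈ KE I E, |h.1| ≤ E + B ∧ |h.2| ≤ E + B := by
    intro h hh
    have e1 : ((1, 0) : ℝ × ℝ) ∈ Dia := by show |(1 : ℝ)| + |(0 : ℝ)| ≤ 1; simp
    have e2 : ((-1, 0) : ℝ × ℝ) ∈ Dia := by show |(-1 : ℝ)| + |(0 : ℝ)| ≤ 1; simp
    have e3 : ((0, 1) : ℝ × ℝ) ∈ Dia := by show |(0 : ℝ)| + |(1 : ℝ)| ≤ 1; simp
    have e4 : ((0, -1) : ℝ × ℝ) ∈ Dia := by show |(0 : ℝ)| + |(-1 : ℝ)| ≤ 1; simp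
    have f1 := hh _ e1
    have f2 := hh _ e2
    have f3 := hh _ e3
    have f4 := hh _ e4
    have g1 := hB _ e1
    have g2 := hB _ e2
    have g3 := hB _ e3
    have g4 := hB _ e4
    simp only at f1 f2 f3 f4
    refine ⟨abs_le.2 ⟨by linarith, by linarith⟩, abs_le.2 ⟨by linarith, by linarith⟩⟩
  have hcomp : IsCompact (KE I E) := by
    apply Metric.isCompact_of_isClosed_isBounded hclosed
    apply (Metric.isBounded_closedBall (x := (0 : ℝ × ℝ)) (r := E + B)).subset
    intro h hh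
    obtain ⟨k1, k2⟩ := hbd h hh
    rw [Metric.mem_closedBall, dist_zero_right, Prod.norm_def, max_le_iff, Real.norm_eq_abs,
      Real.norm_eq_abs]
    exact ⟨k1, k2⟩
  have hint : (0 : ℝ × ℝ) ∈ interior (KE I E) := by
    rw [mem_interior]
    refine ⟨{h : ℝ × ℝ | |h.1| < E ∧ |h.2| < E}, ?_, ?_, ?_⟩
    · rintro h ⟨k1, k2⟩ w hw
      have k3 := hdia w hw
      have k4 := hI.nonneg w hw
      have k5 : h.1 * w.1 ≤ E * |w.1| := by
        calc h.1 * w.1 ≤ |h.1 * w.1| := le_abs_self _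
          _ = |h.1| * |w.1| := abs_mul _ _
          _ ≤ E * |w.1| := mul_le_mul_of_nonneg_right k1.le (abs_nonneg _)
      have k6 : h.2 * w.2 ≤ E * |w.2| := by
        calc h.2 * w.2 ≤ |h.2 * w.2| := le_abs_self _
          _ = |h.2| * |w.2| := abs_mul _ _
          _ ≤ E * |w.2| := mul_le_mul_of_nonneg_right k2.le (abs_nonneg _)
      nlinarith
    · have o1 : IsOpen {h : ℝ × ℝ | |h.1| < E} := isOpen_lt (by fun_prop) continuous_const
      have o2 : IsOpen {h : ℝ × ℝ | |h.2| < E} := isOpen_lt (by fun_prop) continuous_const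
      exact o1.inter o2
    · simp [hE]
  refine ⟨hconv, hcomp, hint, ?_, ?_, ?_⟩
  · intro h hh
    constructor
    · intro w hw
      have hw' : ((-w.1, w.2) : ℝ × ℝ) ∈ Dia := by
        show |-w.1| + |w.2| ≤ 1
        rw [abs_neg]
        exact hw
      have k1 := hh _ hw'
      have k2 := (hI.refl w.1 w.2 (hdia w hw)).1
      simp only at k1 ⊢
      rw [k2] at k1
      linarith
    · intro w hw
      have hw' : ((w.1, -w.2) : ℝ × ℝ) ∈ Dia := by
        show |w.1| + |-w.2| ≤ 1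
        rw [abs_neg]
        exact hw
      have k1 := hh _ hw'
      have k2 := (hI.refl w.1 w.2 (hdia w hw)).2
      simp only at k1 ⊢
      rw [k2] at k1
      linarith
  · intro h hh w hw
    have hw' : ((w.2, w.1) : ℝ × ℝ) ∈ Dia := by
      show |w.2| + |w.1| ≤ 1
      rw [add_comm]
      exact hw
    have k1 := hh _ hw'
    have k2 := hI.swp w.1 w.2 (hdia w hw)
    simp only at k1 ⊢
    rw [k2] at k1
    linarith
  · intro t v ht hv
    unfold sup
    apply csSup_le
    · exact ⟨_, 0, h0, rfl⟩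
    · rintro x ⟨h, hh, rfl⟩
      have hw : ((v.1 / t, v.2 / t) : ℝ × ℝ) ∈ Dia := by
        show |v.1 / t| + |v.2 / t| ≤ 1
        rw [abs_div, abs_div, abs_of_pos ht, ← add_div, div_le_one ht]
        exact hv
      have k1 := mul_le_mul_of_nonneg_left (hh _ hw) ht.le
      simp only at k1 ⊢
      have k2 : t * (h.1 * (v.1 / t) + h.2 * (v.2 / t)) = h.1 * v.1 + h.2 * v.2 := by
        field_simp
      rw [k2] at k1
      linarith

end Pool.Agent.T6.H44.AR
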