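import Pool.Agent.T6.H44.AR.Defs2

/-!
Project AR: module LAT (helper75).
-/

set_option autoImplicit false

namespace Pool.Agent.T6.H44.AR

namespace ModLAT

open Filter Topology

/-- a sequence of lattice data which approximates `n e` -/
structure R (f : ℕ → ℕ × (ℤ × ℤ)) (e : ℝ × (ℝ × ℝ)) : Prop where
  t : Tendsto (fun n : ℕ => ((f n).1 : ℝ) / n) atTop (𝓝 e.1)
  x : Tendsto (fun n : ℕ => ((f n).2.1 : ℝ) / n) atTop (𝓝 e.2.1)
  y : Tendsto (fun n : ℕ => ((f n).2.2 : ℝ) / n) atTop (𝓝 e.2.2)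
  le : ∀ n : ℕ, ((f n).1 : ℝ) ≤ n * e.1
  e1 : ∀ n : ℕ, 2 ∣ (f n).1
  e2 : ∀ n : ℕ, (2 : ℤ) ∣ (f n).2.1
  e3 : ∀ n : ℕ, (2 : ℤ) ∣ (f n).2.2
  pos : 0 < e.1
  lt : |e.2.1| + |e.2.2| < e.1

/-- sum of the vectors -/
def sm (G : List (ℕ → ℕ × (ℤ × ℤ))) (n : ℕ) : ℤ × ℤ := (G.map (fun f => (f n).2)).sum

lemma sm_cons (f : ℕ → ℕ × (ℤ × ℤ)) (G : List (ℕ → ℕ × (ℤ × ℤ))) (n : ℕ) :
    sm (f :: G) n = (f n).2 + sm G n := by
  unfold sm
  simp

lemma T_sum {G : List (ℕ → ℕ × (ℤ × ℤ))} {E : List (ℝ × (ℝ × ℝ))} (h : List.Forall₂ R G E) :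
    Tendsto (fun n : ℕ => ((sm G n).1 : ℝ) / n) atTop (𝓝 ((E.map Prod.snd).sum).1) ∧
    Tendsto (fun n : ℕ => ((sm G n).2 : ℝ) / n) atTop (𝓝 ((E.map Prod.snd).sum).2) := by
  induction h with
  | nil => simp [sm]
  | @cons f e G E hfe _ ih =>
    constructor
    · have h1 := hfe.x.add ih.1
      simp only [List.map_cons, List.sum_cons, Prod.fst_add]
      refine h1.congr fun n => ?_
      rw [sm_cons]
      push_cast [Prod.fst_add]
      ring
    · have h1 := hfe.y.add ih.2
      simp only [List.map_cons, List.sum_cons, Prod.snd_add]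
      refine h1.congr fun n => ?_
      rw [sm_cons]
      push_cast [Prod.snd_add]
      ring

lemma T_S2 {G : List (ℕ → ℕ × (ℤ × ℤ))} {E : List (ℝ × (ℝ × ℝ))} (h : List.Forall₂ R G E) :
    Tendsto (fun n : ℕ => ((S2 (G.map (fun f => (f n).2)) : ℤ) : ℝ) / (n : ℝ) ^ 2) atTop
      (𝓝 (S2 (E.map Prod.snd))) := by
  induction h with
  | nil => simp [S2]
  | @cons f e G E hfe hGE ih =>
    have hs := T_sum hGE
    have h1 := ((hs.1.mul hfe.y).sub (hs.2.mul hfe.x)).add ih
    simp only [List.map_cons, S2, det]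
    refine h1.congr fun n => ?_
    have h2 : (G.map (fun f => (f n).2)).sum = sm G n := rfl
    rw [h2]
    push_cast
    rcases Nat.eq_zero_or_pos n with hn | hn
    · subst hn
      simp
    · have h3 : (n : ℝ) ≠ 0 := by positivity
      field_simp

lemma T_l1 {G : List (ℕ → ℕ × (ℤ × ℤ))} {E : List (ℝ × (ℝ × ℝ))} (h : List.Forall₂ R G E) :
    Tendsto (fun n : ℕ => (((G.map (fun f => l1 (f n).2)).sum : ℤ) : ℝ) / (n : ℝ) ^ 2) atTop
      (𝓝 0) := by
  induction h with
  | nil => simp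
  | @cons f e G E hfe hGE ih =>
    have h0 : Tendsto (fun n : ℕ => (1 : ℝ) / n) atTop (𝓝 0) := tendsto_one_div_atTop_nhds_zero_nat
    have h1 := ((hfe.x.abs.add hfe.y.abs).mul h0).add ih
    rw [mul_zero, zero_add] at h1
    refine h1.congr fun n => ?_
    simp only [List.map_cons, List.sum_cons, l1]
    push_cast
    rcases Nat.eq_zero_or_pos n with hn | hn
    · subst hn
      simp
    · have h3 : (0 : ℝ) < n := by positivity
      rw [abs_div, abs_div, abs_of_pos h3]
      field_simp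

lemma T_cost {I : ℝ × ℝ → ℝ} (hI : ContinuousOn I {v : ℝ × ℝ | |v.1| + |v.2| < 1})
    {G : List (ℕ → ℕ × (ℤ × ℤ))} {E : List (ℝ × (ℝ × ℝ))} (h : List.Forall₂ R G E) :
    Tendsto (fun n : ℕ => (G.map (fun f => ((f n).1 : ℝ) *
      I (((f n).2.1 : ℝ) / (f n).1, ((f n).2.2 : ℝ) / (f n).1))).sum / n) atTop
      (𝓝 (cost I E)) := by
  induction h with
  | nil => simp [cost]
  | @cons f e G E hfe hGE ih =>
    have hne : e.1 ≠ 0 := hfe.pos.ne'
    have hx : Tendsto (fun n : ℕ => ((f n).2.1 : ℝ) / (f n).1) atTop (𝓝 (e.2.1 / e.1)) := by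
      refine (hfe.x.div hfe.t hne).congr' ?_
      filter_upwards [eventually_gt_atTop 0] with n hn
      have h3 : (n : ℝ) ≠ 0 := by positivity
      simp only [Pi.div_apply]
      rw [div_div_div_cancel_right₀ h3]
    have hy : Tendsto (fun n : ℕ => ((f n).2.2 : ℝ) / (f n).1) atTop (𝓝 (e.2.2 / e.1)) := by
      refine (hfe.y.div hfe.t hne).congr' ?_
      filter_upwards [eventually_gt_atTop 0] with n hn
      have h3 : (n : ℝ) ≠ 0 := by positivity
      simp only [Pi.div_apply]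
      rw [div_div_div_cancel_right₀ h3]
    have ho : IsOpen {v : ℝ × ℝ | |v.1| + |v.2| < 1} :=
      isOpen_lt (by fun_prop) continuous_const
    have hmem : (e.2.1 / e.1, e.2.2 / e.1) ∈ {v : ℝ × ℝ | |v.1| + |v.2| < 1} := by
      show |e.2.1 / e.1| + |e.2.2 / e.1| < 1
      rw [abs_div, abs_div, abs_of_pos hfe.pos, ← add_div, div_lt_one hfe.pos]
      exact hfe.lt
    have hc : ContinuousAt I (e.2.1 / e.1, e.2.2 / e.1) := hI.continuousAt (ho.mem_nhds hmem)
    have h1 := (hfe.t.mul (hc.tendsto.comp (hx.prodMk_nhds hy))).add ih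
    have h2 : cost I (e :: E) = e.1 * I (e.2.1 / e.1, e.2.2 / e.1) + cost I E := by
      unfold cost
      simp
    rw [h2]
    refine h1.congr fun n => ?_
    simp only [List.map_cons, List.sum_cons, Function.comp]
    ring

lemma T_ev {G : List (ℕ → ℕ × (ℤ × ℤ))} {E : List (ℝ × (ℝ × ℝ))} (h : List.Forall₂ R G E) :
    ∀ᶠ n : ℕ in atTop, ∀ f ∈ G, 2 ≤ (f n).1 ∧ |(f n).2.1| + |(f n).2.2| ≤ ((f n).1 : ℤ) := by
  induction h with
  | nil => simp
  | @cons f e G E hfe hGE ih =>
    have h1 := (hfe.t.sub (hfe.x.abs.add hfe.y.abs)).eventually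
      (lt_mem_nhds (sub_pos.2 hfe.lt))
    have h2 := hfe.t.eventually (lt_mem_nhds hfe.pos)
    filter_upwards [ih, h1, h2, eventually_gt_atTop 0] with n hn1 hn2 hn3 hn4
    intro f' hf'
    rcases List.mem_cons.1 hf' with rfl | hf'
    · have h3 : (0 : ℝ) < n := by positivity
      constructor
      · have h5 : 0 < (f' n).1 := by
          by_contra hc
          have h6 : (f' n).1 = 0 := by omega
          rw [h6] at hn3
          simp at hn3
        have h7 := hfe.e1 n
        exact Nat.le_of_dvd h5 h7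
      · have h5 : (|((f' n).2.1 : ℝ)| + |((f' n).2.2 : ℝ)|) < ((f' n).1 : ℝ) := by
          rw [abs_div, abs_div, abs_of_pos h3, ← add_div, ← sub_div] at hn2
          have := (div_pos_iff_of_pos_right h3).1 hn2
          linarith
        have h6 : |(f' n).2.1| + |(f' n).2.2| < ((f' n).1 : ℤ) := by exact_mod_cast h5
        exact h6.le
    · exact hn1 f' hf'

lemma T_le {G : List (ℕ → ℕ × (ℤ × ℤ))} {E : List (ℝ × (ℝ × ℝ))} (h : List.Forall₂ R G E)
    (n : ℕ) : (((G.map (fun f => (f n).1)).sum : ℕ) : ℝ) ≤ n * (E.map Prod.fst).sum := by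
  induction h with
  | nil => simp
  | @cons f e G E hfe hGE ih =>
    simp only [List.map_cons, List.sum_cons]
    rw [Nat.cast_add, mul_add]
    have := hfe.le n
    linarith

lemma R_mem {G : List (ℕ → ℕ × (ℤ × ℤ))} {E : List (ℝ × (ℝ × ℝ))} (h : List.Forall₂ R G E) :
    ∀ f ∈ G, ∃ e, R f e := by
  induction h with
  | nil => simp
  | @cons f e G E hfe hGE ih =>
    intro f' hf'
    rcases List.mem_cons.1 hf' with rfl | hf'
    · exact ⟨e, hfe⟩
    · exact ih f' hf'

/-! ### the basic approximation -/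

lemma floor_T (a : ℝ) : Tendsto (fun n : ℕ => ((2 * ⌊a / 2 * n⌋ : ℤ) : ℝ) / n) atTop (𝓝 a) := by
  have h0 : Tendsto (fun n : ℕ => a - 2 * ((1 : ℝ) / n)) atTop (𝓝 (a - 2 * 0)) :=
    tendsto_const_nhds.sub (tendsto_const_nhds.mul tendsto_one_div_atTop_nhds_zero_nat)
  rw [mul_zero, sub_zero] at h0
  refine tendsto_of_tendsto_of_tendsto_of_le_of_le' h0 tendsto_const_nhds ?_ ?_
  · filter_upwards [eventually_gt_atTop 0] with n hn
    have h3 : (0 : ℝ) < n := by positivity
    rw [le_div_iff₀ h3]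
    push_cast
    have h4 := Int.sub_one_lt_floor (a / 2 * (n : ℝ))
    have h5 : (a - 2 * (1 / (n : ℝ))) * n = a * n - 2 := by
      field_simp
    rw [h5]
    linarith
  · filter_upwards [eventually_gt_atTop 0] with n hn
    have h3 : (0 : ℝ) < n := by positivity
    rw [div_le_iff₀ h3]
    push_cast
    have h4 := Int.floor_le (a / 2 * (n : ℝ))
    linarith

lemma nfloor_T {a : ℝ} (ha : 0 < a) :
    Tendsto (fun n : ℕ => ((2 * ⌊a / 2 * n⌋₊ : ℕ) : ℝ) / n) atTop (𝓝 a) := by
  refine (floor_T a).congr fun n => ?_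
  have h1 : (0 : ℝ) ≤ a / 2 * n := by positivity
  have h2 := natCast_floor_eq_intCast_floor h1
  push_cast
  rw [h2]

/-- the approximation of one edge -/
noncomputable def g (e : ℝ × (ℝ × ℝ)) (n : ℕ) : ℕ × (ℤ × ℤ) :=
  (2 * ⌊e.1 / 2 * n⌋₊, (2 * ⌊e.2.1 / 2 * n⌋, 2 * ⌊e.2.2 / 2 * n⌋))

lemma g_R {e : ℝ × (ℝ × ℝ)} (h1 : 0 < e.1) (h2 : |e.2.1| + |e.2.2| < e.1) : R (g e) e where
  t := nfloor_T h1
  x := floor_T _
  y := floor_T _
  le n := by
    unfold g
    push_cast
    have h3 : (0 : ℝ) ≤ e.1 / 2 * n := by positivity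
    have h4 := Nat.floor_le h3
    linarith
  e1 n := ⟨_, rfl⟩
  e2 n := ⟨_, rfl⟩
  e3 n := ⟨_, rfl⟩
  pos := h1
  lt := h2

lemma gs_R {E : List (ℝ × (ℝ × ℝ))} (h : ∀ e ∈ E, 0 < e.1 ∧ |e.2.1| + |e.2.2| < e.1) :
    List.Forall₂ R (E.map g) E := by
  induction E with
  | nil => simp
  | cons e E ih =>
    simp only [List.map_cons]
    have h1 := h e (List.mem_cons_self ..)
    exact List.Forall₂.cons (g_R h1.1 h1.2) (ih fun e' he' => h e' (List.mem_cons_of_mem _ he'))

lemma sm_even {G : List (ℕ → ℕ × (ℤ × ℤ))} {E : List (ℝ × (ℝ × ℝ))} (h : List.Forall₂ R G E)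
    (n : ℕ) : (2 : ℤ) ∣ (sm G n).1 ∧ (2 : ℤ) ∣ (sm G n).2 := by
  induction h with
  | nil => simp [sm]
  | @cons f e G E hfe hGE ih =>
    rw [sm_cons]
    exact ⟨dvd_add (hfe.e2 n) ih.1, dvd_add (hfe.e3 n) ih.2⟩

/-! ### removing the zero vectors -/

/-- the edges which are not zero -/
def fl (L : List (ℕ × (ℤ × ℤ))) : List (ℕ × (ℤ × ℤ)) := L.filter (fun e => decide (e.2 ≠ 0))

lemma fl_cons_zero {e : ℕ × (ℤ × ℤ)} (h : e.2 = 0) (L : List (ℕ × (ℤ × ℤ))) :
    fl (e :: L) = fl L := by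
  unfold fl
  rw [List.filter_cons_of_neg]
  simp [h]

lemma fl_cons_ne {e : ℕ × (ℤ × ℤ)} (h : e.2 ≠ 0) (L : List (ℕ × (ℤ × ℤ))) :
    fl (e :: L) = e :: fl L := by
  unfold fl
  rw [List.filter_cons_of_pos]
  simp [h]

lemma fl_sum (L : List (ℕ × (ℤ × ℤ))) :
    ((fl L).map Prod.snd).sum = (L.map Prod.snd).sum := by
  induction L with
  | nil => simp [fl]
  | cons e L ih =>
    by_cases h : e.2 = 0
    · rw [fl_cons_zero h, ih]
      simp [h]
    · rw [fl_cons_ne h]
      simp [ih]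

lemma fl_S2 (L : List (ℕ × (ℤ × ℤ))) :
    S2 ((fl L).map Prod.snd) = S2 (L.map Prod.snd) := by
  induction L with
  | nil => simp [fl]
  | cons e L ih =>
    by_cases h : e.2 = 0
    · rw [fl_cons_zero h, ih]
      simp [h, S2, det]
    · rw [fl_cons_ne h]
      simp only [List.map_cons, S2]
      rw [ih, fl_sum]

lemma fl_l1 (L : List (ℕ × (ℤ × ℤ))) :
    (((fl L).map Prod.snd).map l1).sum = ((L.map Prod.snd).map l1).sum := by
  induction L with
  | nil => simp [fl]
  | cons e L ih =>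
    by_cases h : e.2 = 0
    · rw [fl_cons_zero h, ih]
      simp [h, l1]
    · rw [fl_cons_ne h]
      simp only [List.map_cons, List.sum_cons]
      rw [ih]

lemma fl_fst (L : List (ℕ × (ℤ × ℤ))) :
    ((fl L).map Prod.fst).sum ≤ (L.map Prod.fst).sum := by
  induction L with
  | nil => simp [fl]
  | cons e L ih =>
    by_cases h : e.2 = 0
    · rw [fl_cons_zero h]
      simp only [List.map_cons, List.sum_cons]
      omega
    · rw [fl_cons_ne h]
      simp only [List.map_cons, List.sum_cons]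
      omega

lemma fl_cost {I : ℝ × ℝ → ℝ} (hI : I 0 = 0) (L : List (ℕ × (ℤ × ℤ))) :
    ((fl L).map (fun e => (e.1 : ℝ) * I ((e.2.1 : ℝ) / e.1, (e.2.2 : ℝ) / e.1))).sum =
      (L.map (fun e => (e.1 : ℝ) * I ((e.2.1 : ℝ) / e.1, (e.2.2 : ℝ) / e.1))).sum := by
  induction L with
  | nil => simp [fl]
  | cons e L ih =>
    by_cases h : e.2 = 0
    · rw [fl_cons_zero h, ih]
      have h1 : ((0 : ℝ), (0 : ℝ)) = 0 := rfl
      simp [h, h1, hI]
    · rw [fl_cons_ne h]
      simp only [List.map_cons, List.sum_cons]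
      rw [ih]

end ModLAT

open ModLAT Filter Topology in
theorem lat : StmtLAT := by
  intro I hI hI0 u u' E huu hE ε hε
  obtain ⟨hE1, hE2, hE3, hE4⟩ := hE
  cases E with
  | nil => simp at hE2
  | cons e₀ E' =>
    have hR' := gs_R (E := E') fun e he => hE1 e (List.mem_cons_of_mem _ he)
    have h0 := hE1 e₀ (List.mem_cons_self ..)
    have hs := T_sum hR'
    have hsum : e₀.2 + (E'.map Prod.snd).sum = 0 := by
      simpa using hE3
    have hx0 : e₀.2.1 = -((E'.map Prod.snd).sum).1 := by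
      have := congrArg Prod.fst hsum
      simp only [Prod.fst_add, Prod.fst_zero] at this
      linarith
    have hy0 : e₀.2.2 = -((E'.map Prod.snd).sum).2 := by
      have := congrArg Prod.snd hsum
      simp only [Prod.snd_add, Prod.snd_zero] at this
      linarith
    let f₀ : ℕ → ℕ × (ℤ × ℤ) := fun n => (2 * ⌊e₀.1 / 2 * n⌋₊, -sm (E'.map g) n)
    have hf₀ : R f₀ e₀ :=
      { t := nfloor_T h0.1
        x := by
          rw [hx0]
          refine hs.1.neg.congr fun n => ?_
          show _ = (((-sm (E'.map g) n).1 : ℤ) : ℝ) / n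
          rw [Prod.fst_neg]
          push_cast
          ring
        y := by
          rw [hy0]
          refine hs.2.neg.congr fun n => ?_
          show _ = (((-sm (E'.map g) n).2 : ℤ) : ℝ) / n
          rw [Prod.snd_neg]
          push_cast
          ring
        le := (g_R h0.1 h0.2).le
        e1 := fun n => ⟨_, rfl⟩
        e2 := fun n => by
          have := (sm_even hR' n).1
          exact (dvd_neg (b := (sm (E'.map g) n).1)).2 this
        e3 := fun n => by
          have := (sm_even hR' n).2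
          exact (dvd_neg (b := (sm (E'.map g) n).2)).2 this
        pos := h0.1
        lt := h0.2 }
    set G := f₀ :: E'.map g with hG
    have hR : List.Forall₂ R G (e₀ :: E') := List.Forall₂.cons hf₀ hR'
    have hlen : G.length = (e₀ :: E').length := hR.length_eq
    have a1 := T_ev hR
    have a2 : ∀ᶠ n : ℕ in atTop, u' < (((S2 (G.map (fun f => (f n).2)) : ℤ) : ℝ) / (n : ℝ) ^ 2) / 2 -
        2 * ((((G.map (fun f => l1 (f n).2)).sum : ℤ) : ℝ) / (n : ℝ) ^ 2) := by
      have h1 := ((T_S2 hR).div_const 2).sub ((T_l1 hR).const_mul 2)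
      apply h1.eventually
      apply lt_mem_nhds
      linarith
    have a3 := (T_cost hI hR).eventually (gt_mem_nhds (lt_add_of_pos_right _ hε))
    obtain ⟨n₀, hn₀⟩ := eventually_atTop.1 (a1.and (a2.and (a3.and (eventually_gt_atTop 0))))
    refine ⟨n₀, fun n hn => ?_⟩
    obtain ⟨b1, b2, b3, b4⟩ := hn₀ n hn
    have h3 : (0 : ℝ) < n := by exact_mod_cast b4
    have hsnd : (G.map (fun f => f n)).map Prod.snd = G.map (fun f => (f n).2) := by
      rw [List.map_map]
      rfl
    refine ⟨fl (G.map (fun f => f n)), ?_, ?_, ?_, ?_, ?_, ?_⟩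
    · refine le_trans (List.length_filter_le _ _) ?_
      rw [List.length_map, hlen]
    · intro e he
      unfold fl at he
      rw [List.mem_filter] at he
      obtain ⟨he1, he2⟩ := he
      obtain ⟨f, hf, rfl⟩ := List.mem_map.1 he1
      have hb := b1 f hf
      obtain ⟨e', hfe⟩ := R_mem hR f hf
      refine ⟨by simpa using he2, hb.1, ?_, hb.2⟩
      have c1 := hfe.e1 n
      have c2 := hfe.e2 n
      have c3 := hfe.e3 n
      omega
    · refine le_trans (fl_fst _) ?_
      have h5 := T_le hR n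
      rw [hE2] at h5
      have h6 : (G.map (fun f => f n)).map Prod.fst = G.map (fun f => (f n).1) := by
        rw [List.map_map]
        rfl
      rw [h6]
      have h7 : (((G.map (fun f => (f n).1)).sum : ℕ) : ℝ) ≤ ((2 * n : ℕ) : ℝ) := by
        push_cast at h5 ⊢
        linarith
      exact_mod_cast h7
    · rw [fl_sum, hsnd]
      show sm G n = 0
      rw [hG, sm_cons]
      show -sm (E'.map g) n + sm (E'.map g) n = 0
      exact neg_add_cancel _
    · rw [fl_S2, fl_l1, hsnd]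
      have h5 : (G.map (fun f => (f n).2)).map l1 = G.map (fun f => l1 (f n).2) := by
        rw [List.map_map]
        rfl
      rw [h5]
      have h6 := (mul_lt_mul_of_pos_right b2 (by positivity : (0 : ℝ) < (n : ℝ) ^ 2)).le
      refine le_trans h6 (le_of_eq ?_)
      field_simp
    · rw [fl_cost hI0, List.map_map]
      have h5 := b3
      rw [div_lt_iff₀ h3] at h5
      refine le_trans (le_of_eq ?_) (le_trans h5.le (le_of_eq (by ring)))
      rfl

end Pool.Agent.T6.H44.AR
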