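import Pool.Agent.T6.H44.AR.Defs3

/-!
Project AR, part 2, module LEG: duality between the rate function and the sets `KE I E`.
-/

set_option autoImplicit false

open MeasureTheory

namespace Pool.Agent.T6.H44.AR

namespace ModLEG

/-- the values -/
def vals (I : ℝ × ℝ → ℝ) (E : ℝ) (v : ℝ × ℝ) : Set ℝ :=
  (fun t : ℝ => t * (I (v.1 / t, v.2 / t) + E)) '' {t | 0 < t ∧ |v.1| + |v.2| ≤ t}

noncomputable def phi (I : ℝ × ℝ → ℝ) (E : ℝ) (v : ℝ × ℝ) : ℝ := sInf (vals I E v)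

theorem dia_of {t : ℝ} {v : ℝ × ℝ} (ht : 0 < t) (hv : |v.1| + |v.2| ≤ t) :
    ((v.1 / t, v.2 / t) : ℝ × ℝ) ∈ Dia := by
  show |v.1 / t| + |v.2 / t| ≤ 1
  rw [abs_div, abs_div, abs_of_pos ht, ← add_div, div_le_one ht]
  exact hv

theorem vals_ne (I : ℝ × ℝ → ℝ) (E : ℝ) (v : ℝ × ℝ) : (vals I E v).Nonempty := by
  refine ⟨_, |v.1| + |v.2| + 1, ⟨?_, ?_⟩, rfl⟩
  · positivity
  · linarith

theorem vals_nonneg {I : ℝ × ℝ → ℝ} (hI : Rt I) {E : ℝ} (hE : 0 < E) {v : ℝ × ℝ} :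
    ∀ x ∈ vals I E v, 0 ≤ x := by
  rintro x ⟨t, ⟨ht, hv⟩, rfl⟩
  have := hI.nonneg _ (dia_of ht hv)
  simp only
  positivity

theorem phi_le {I : ℝ × ℝ → ℝ} (hI : Rt I) {E : ℝ} (hE : 0 < E) {v : ℝ × ℝ} {t : ℝ} (ht : 0 < t)
    (hv : |v.1| + |v.2| ≤ t) : phi I E v ≤ t * (I (v.1 / t, v.2 / t) + E) :=
  csInf_le ⟨0, vals_nonneg hI hE⟩ ⟨t, ⟨ht, hv⟩, rfl⟩

theorem le_phi {I : ℝ × ℝ → ℝ} {E : ℝ} {v : ℝ × ℝ} {x : ℝ}
    (h : ∀ t, 0 < t → |v.1| + |v.2| ≤ t → x ≤ t * (I (v.1 / t, v.2 / t) + E)) :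
    x ≤ phi I E v := by
  apply le_csInf (vals_ne I E v)
  rintro y ⟨t, ⟨ht, hv⟩, rfl⟩
  exact h t ht hv

theorem phi_smul_le {I : ℝ × ℝ → ℝ} (hI : Rt I) {E : ℝ} (hE : 0 < E) {c : ℝ} (hc : 0 < c)
    (v : ℝ × ℝ) : phi I E (c • v) ≤ c * phi I E v := by
  rw [mul_comm, ← div_le_iff₀ hc]
  apply le_phi
  intro t ht hv
  rw [div_le_iff₀ hc]
  have h1 : |(c • v).1| + |(c • v).2| ≤ c * t := by
    simp only [Prod.smul_fst, Prod.smul_snd, smul_eq_mul]
    rw [abs_mul, abs_mul, abs_of_pos hc, ← mul_add]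
    exact mul_le_mul_of_nonneg_left hv hc.le
  refine (phi_le hI hE (mul_pos hc ht) h1).trans (le_of_eq ?_)
  simp only [Prod.smul_fst, Prod.smul_snd, smul_eq_mul]
  rw [mul_div_mul_left _ _ hc.ne', mul_div_mul_left _ _ hc.ne']
  ring

theorem phi_smul {I : ℝ × ℝ → ℝ} (hI : Rt I) {E : ℝ} (hE : 0 < E) {c : ℝ} (hc : 0 < c)
    (v : ℝ × ℝ) : phi I E (c • v) = c * phi I E v := by
  apply le_antisymm (phi_smul_le hI hE hc v)
  have h1 := phi_smul_le hI hE (inv_pos.2 hc) (c • v)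
  rw [smul_smul, inv_mul_cancel₀ hc.ne', one_smul] at h1
  have h2 := mul_le_mul_of_nonneg_left h1 hc.le
  rwa [← mul_assoc, mul_inv_cancel₀ hc.ne', one_mul] at h2

theorem phi_add {I : ℝ × ℝ → ℝ} (hI : Rt I) {E : ℝ} (hE : 0 < E) (v w : ℝ × ℝ) :
    phi I E (v + w) ≤ phi I E v + phi I E w := by
  have key : ∀ t, 0 < t → |v.1| + |v.2| ≤ t → ∀ s, 0 < s → |w.1| + |w.2| ≤ s →
      phi I E (v + w) ≤ t * (I (v.1 / t, v.2 / t) + E) + s * (I (w.1 / s, w.2 / s) + E) := by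
    intro t ht hv s hs hw
    have hts : 0 < t + s := by linarith
    have h1 : |(v + w).1| + |(v + w).2| ≤ t + s := by
      have := abs_add_le v.1 w.1
      have := abs_add_le v.2 w.2
      simp only [Prod.fst_add, Prod.snd_add]
      linarith
    refine (phi_le hI hE hts h1).trans ?_
    have h2 := hI.conv.2 (dia_of ht hv) (dia_of hs hw)
      (show 0 ≤ t / (t + s) by positivity) (show 0 ≤ s / (t + s) by positivity)
      (by rw [← add_div, div_self hts.ne'])
    have e : (t / (t + s)) • ((v.1 / t, v.2 / t) : ℝ × ℝ) +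
        (s / (t + s)) • ((w.1 / s, w.2 / s) : ℝ × ℝ) =
        ((v + w).1 / (t + s), (v + w).2 / (t + s)) := by
      ext
      · simp only [Prod.fst_add, Prod.smul_fst, smul_eq_mul]
        field_simp
      · simp only [Prod.snd_add, Prod.smul_snd, smul_eq_mul]
        field_simp
    rw [e] at h2
    simp only [smul_eq_mul] at h2
    have h3 := mul_le_mul_of_nonneg_left h2 hts.le
    have e2 : (t + s) * (t / (t + s) * I (v.1 / t, v.2 / t) + s / (t + s) * I (w.1 / s, w.2 / s)) =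
        t * I (v.1 / t, v.2 / t) + s * I (w.1 / s, w.2 / s) := by
      field_simp
    rw [e2] at h3
    linarith
  have h1 : ∀ s, 0 < s → |w.1| + |w.2| ≤ s →
      phi I E (v + w) - s * (I (w.1 / s, w.2 / s) + E) ≤ phi I E v := by
    intro s hs hw
    apply le_phi
    intro t ht hv
    have := key t ht hv s hs hw
    linarith
  have h2 : phi I E (v + w) - phi I E v ≤ phi I E w := by
    apply le_phi
    intro s hs hw
    have := h1 s hs hw
    linarith
  linarith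

theorem zero_mem {I : ℝ × ℝ → ℝ} (hI : Rt I) {E : ℝ} (hE : 0 < E) : (0 : ℝ × ℝ) ∈ KE I E := by
  intro w hw
  simp only [Prod.fst_zero, Prod.snd_zero, zero_mul, add_zero]
  have := hI.nonneg w hw
  linarith

theorem le_sup {I : ℝ × ℝ → ℝ} {E : ℝ} {h : ℝ × ℝ} (hh : h ∈ KE I E) (v : ℝ × ℝ) :
    h.1 * v.1 + h.2 * v.2 ≤ sup (KE I E) v := by
  unfold sup
  apply le_csSup
  · refine ⟨(|v.1| + |v.2| + 1) * (E + I (v.1 / (|v.1| + |v.2| + 1), v.2 / (|v.1| + |v.2| + 1))), ?_⟩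
    rintro x ⟨k, hk, rfl⟩
    have ht : 0 < |v.1| + |v.2| + 1 := by positivity
    have k1 := mul_le_mul_of_nonneg_left
      (hk _ (dia_of ht (show |v.1| + |v.2| ≤ |v.1| + |v.2| + 1 by linarith))) ht.le
    simp only at k1 ⊢
    have k2 : (|v.1| + |v.2| + 1) * (k.1 * (v.1 / (|v.1| + |v.2| + 1)) +
        k.2 * (v.2 / (|v.1| + |v.2| + 1))) = k.1 * v.1 + k.2 * v.2 := by
      field_simp
    rw [k2] at k1
    exact k1
  · exact ⟨h, hh, rfl⟩

end ModLEG

open ModLEG in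
theorem leg : StmtLEG := by
  intro I hI E hE v η hη
  rcases eq_or_ne v 0 with h0 | h0
  · subst h0
    refine ⟨η / E, div_pos hη hE, ?_, ?_⟩
    · simp only [Prod.fst_zero, Prod.snd_zero, abs_zero, add_zero]
      positivity
    · simp only [Prod.fst_zero, Prod.snd_zero, zero_div]
      have h1 : I (0, 0) = 0 := hI.zero
      have h2 := le_sup (zero_mem hI hE) (0 : ℝ × ℝ)
      simp only [Prod.fst_zero, Prod.snd_zero, mul_zero, add_zero] at h2
      rw [h1, zero_add, div_mul_cancel₀ _ hE.ne']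
      linarith
  · obtain ⟨g, hg1, hg2⟩ := exists_extension_of_le_sublinear
      (LinearPMap.mkSpanSingleton (σ := RingHom.id ℝ) v (phi I E v) h0) (phi I E)
      (fun c hc x => phi_smul hI hE hc x) (fun x y => phi_add hI hE x y) (by
        rintro ⟨x, hx⟩
        obtain ⟨c, rfl⟩ := Submodule.mem_span_singleton.1 hx
        have hval : (LinearPMap.mkSpanSingleton (σ := RingHom.id ℝ) v (phi I E v) h0) ⟨c • v, hx⟩ =
            c * phi I E v := LinearPMap.mkSpanSingleton'_apply v (phi I E v) _ c hx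
        rw [hval]
        simp only
        rcases lt_trichotomy c 0 with h | h | h
        · have h1 := phi_add hI hE (c • v) ((-c) • v)
          rw [neg_smul, add_neg_cancel, ← neg_smul, phi_smul hI hE (show 0 < -c by linarith)] at h1
          have h2 : 0 ≤ phi I E 0 := le_csInf (vals_ne I E 0) (vals_nonneg hI hE)
          linarith
        · rw [h, zero_mul, zero_smul]
          exact le_csInf (vals_ne I E 0) (vals_nonneg hI hE)
        · rw [phi_smul hI hE h])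
    have hgv : g v = phi I E v := by
      have hm : v ∈ (LinearPMap.mkSpanSingleton (σ := RingHom.id ℝ) v (phi I E v) h0).domain :=
        Submodule.mem_span_singleton_self v
      have h1 := hg1 ⟨v, hm⟩
      simp only at h1
      rw [h1]
      exact LinearPMap.mkSpanSingleton_apply ℝ ℝ h0 (phi I E v)
    obtain ⟨h, hh⟩ : ∃ h : ℝ × ℝ, h = (g (1, 0), g (0, 1)) := ⟨_, rfl⟩
    have hgw : ∀ w : ℝ × ℝ, g w = h.1 * w.1 + h.2 * w.2 := by
      intro w
      have e : w = w.1 • ((1, 0) : ℝ × ℝ) + w.2 • ((0, 1) : ℝ × ℝ) := by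
        ext <;> simp
      conv_lhs => rw [e, map_add, map_smul, map_smul]
      rw [hh]
      simp only [smul_eq_mul]
      ring
    have hK : h ∈ KE I E := by
      intro w hw
      rw [← hgw]
      have h1 := phi_le hI hE (v := w) one_pos hw
      simp only [div_one, one_mul] at h1
      have h2 := hg2 w
      have e : ((w.1, w.2) : ℝ × ℝ) = w := rfl
      rw [e] at h1
      linarith
    have h3 := le_sup hK v
    rw [← hgw, hgv] at h3
    obtain ⟨x, ⟨t, ⟨ht, hv⟩, rfl⟩, hx⟩ := exists_lt_of_csInf_lt (vals_ne I E v)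
      (show sInf (vals I E v) < phi I E v + η by unfold phi; linarith)
    exact ⟨t, ht, hv, by simp only at hx; linarith⟩

end Pool.Agent.T6.H44.AR
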