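import Pool.Agent.T6.H44.AR.Defs

/-!
Module P1 of project AR: adding the four sides of a small square increases the area of a closed
polygon at first order.
-/

set_option autoImplicit false

namespace Pool.Agent.T6.H44.AR
namespace ModP1

theorem S2_append (A B : List (ℝ × ℝ)) : S2 (A ++ B) = S2 A + S2 B + det B.sum A.sum := by
  induction A with
  | nil => simp [S2, det]
  | cons v A ih =>
    simp only [List.cons_append, S2, ih, List.sum_append, List.sum_cons, det, Prod.fst_add,
      Prod.snd_add]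
    ring

theorem S2_insert (A B : List (ℝ × ℝ)) (e : ℝ × ℝ) :
    S2 (A ++ e :: B) = S2 (A ++ B) + det e (A.sum + A.sum - (A ++ B).sum) := by
  simp only [S2_append, S2, List.sum_append, List.sum_cons, det, Prod.fst_add, Prod.snd_add,
    Prod.fst_sub, Prod.snd_sub]
  ring

/-- all the vertices of `L0` are present in `M`, up to the error `ex`, `ey` -/
def Inv (L0 M : List (ℝ × ℝ)) (ex ey : ℝ) : Prop :=
  ∀ t, ∃ M1 M2, M = M1 ++ M2 ∧ |2 * M1.sum.1 - M.sum.1 - 2 * (vt L0 t).1| ≤ ex ∧
    |2 * M1.sum.2 - M.sum.2 - 2 * (vt L0 t).2| ≤ ey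

theorem inv_insert {L0 A B : List (ℝ × ℝ)} {ex ey : ℝ} (h : Inv L0 (A ++ B) ex ey) (e : ℝ × ℝ) :
    Inv L0 (A ++ e :: B) (ex + |e.1|) (ey + |e.2|) := by
  intro t
  obtain ⟨M1, M2, hM, h1, h2⟩ := h t
  rcases List.append_eq_append_iff.1 hM with ⟨C, hC1, hC2⟩ | ⟨C, hC1, hC2⟩
  · -- `M1 = A ++ C`, `B = C ++ M2`
    refine ⟨A ++ e :: C, M2, by rw [hC2]; simp, ?_, ?_⟩
    · have : 2 * (A ++ e :: C).sum.1 - (A ++ e :: B).sum.1 - 2 * (vt L0 t).1 =
          (2 * M1.sum.1 - (A ++ B).sum.1 - 2 * (vt L0 t).1) + e.1 := by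
        rw [hC1, hC2]
        simp only [List.sum_append, List.sum_cons, Prod.fst_add]
        ring
      rw [this]
      exact (abs_add_le _ _).trans (by linarith)
    · have : 2 * (A ++ e :: C).sum.2 - (A ++ e :: B).sum.2 - 2 * (vt L0 t).2 =
          (2 * M1.sum.2 - (A ++ B).sum.2 - 2 * (vt L0 t).2) + e.2 := by
        rw [hC1, hC2]
        simp only [List.sum_append, List.sum_cons, Prod.snd_add]
        ring
      rw [this]
      exact (abs_add_le _ _).trans (by linarith)
  · -- `A = M1 ++ C`, `M2 = C ++ B`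
    refine ⟨M1, C ++ e :: B, by rw [hC1]; simp, ?_, ?_⟩
    · have : 2 * M1.sum.1 - (A ++ e :: B).sum.1 - 2 * (vt L0 t).1 =
          (2 * M1.sum.1 - (A ++ B).sum.1 - 2 * (vt L0 t).1) + -e.1 := by
        simp only [List.sum_append, List.sum_cons, Prod.fst_add]
        ring
      rw [this]
      exact (abs_add_le _ _).trans (by rw [abs_neg]; linarith)
    · have : 2 * M1.sum.2 - (A ++ e :: B).sum.2 - 2 * (vt L0 t).2 =
          (2 * M1.sum.2 - (A ++ B).sum.2 - 2 * (vt L0 t).2) + -e.2 := by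
        simp only [List.sum_append, List.sum_cons, Prod.snd_add]
        ring
      rw [this]
      exact (abs_add_le _ _).trans (by rw [abs_neg]; linarith)

/-- inserting one edge -/
theorem insert_one {L0 M : List (ℝ × ℝ)} {ex ey : ℝ} (h : Inv L0 M ex ey) (e : ℝ × ℝ) (t : ℕ) :
    ∃ M' : List (ℝ × ℝ), M'.Perm (e :: M) ∧ Inv L0 M' (ex + |e.1|) (ey + |e.2|) ∧
      ∃ X : ℝ × ℝ, S2 M' = S2 M + det e X ∧ |X.1 - 2 * (vt L0 t).1| ≤ ex ∧
        |X.2 - 2 * (vt L0 t).2| ≤ ey := by
  obtain ⟨A, B, hM, h1, h2⟩ := h t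
  subst hM
  refine ⟨A ++ e :: B, List.perm_middle, inv_insert h e, A.sum + A.sum - (A ++ B).sum,
    S2_insert A B e, ?_, ?_⟩
  · rw [Prod.fst_sub, Prod.fst_add, ← two_mul]
    exact h1
  · rw [Prod.snd_sub, Prod.snd_add, ← two_mul]
    exact h2

/-- `∮ 2 y dx` -/
def T : ℝ × ℝ → List (ℝ × ℝ) → ℝ
  | _, [] => 0
  | P, v :: L => v.1 * (2 * P.2 + v.2) + T (P + v) L

theorem T_eq (L : List (ℝ × ℝ)) : ∀ P, T P L = S2 L + 2 * P.2 * L.sum.1 + L.sum.1 * L.sum.2 := by
  induction L with
  | nil => intro P; simp [T, S2]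
  | cons v L ih =>
    intro P
    simp only [T, S2, ih, det, List.sum_cons, Prod.fst_add, Prod.snd_add]
    ring

theorem T_append (U W : List (ℝ × ℝ)) : ∀ P, T P (U ++ W) = T P U + T (P + U.sum) W := by
  induction U with
  | nil => intro P; simp [T]
  | cons v U ih =>
    intro P
    simp only [List.cons_append, T, ih, List.sum_cons]
    rw [add_assoc P v U.sum]
    ring

theorem T_up (c : ℝ) (U : List (ℝ × ℝ)) : ∀ P : ℝ × ℝ, (∀ v ∈ U, 0 ≤ v.1) →
    (∀ j, (P + (U.take j).sum).2 ≤ c) → T P U ≤ 2 * c * U.sum.1 := by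
  induction U with
  | nil => intro P _ _; simp [T]
  | cons v U ih =>
    intro P hv hP
    have h0 := hP 0
    have h1 := hP 1
    have hv0 := hv v (by simp)
    have h2 := ih (P + v) (fun w hw => hv w (by simp [hw])) (fun j => by
      have := hP (j + 1)
      simpa [add_assoc] using this)
    simp only [T, List.sum_cons, Prod.fst_add]
    simp at h0 h1
    nlinarith

theorem T_lo (c : ℝ) (U : List (ℝ × ℝ)) : ∀ P : ℝ × ℝ, (∀ v ∈ U, v.1 ≤ 0) →
    (∀ j, c ≤ (P + (U.take j).sum).2) → T P U ≤ 2 * c * U.sum.1 := by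
  induction U with
  | nil => intro P _ _; simp [T]
  | cons v U ih =>
    intro P hv hP
    have h0 := hP 0
    have h1 := hP 1
    have hv0 := hv v (by simp)
    have h2 := ih (P + v) (fun w hw => hv w (by simp [hw])) (fun j => by
      have := hP (j + 1)
      simpa [add_assoc] using this)
    simp only [T, List.sum_cons, Prod.fst_add]
    simp at h0 h1
    nlinarith

theorem vt_min (L : List (ℝ × ℝ)) (j : ℕ) : vt L j = vt L (min j L.length) := by
  unfold vt
  rcases le_total j L.length with h | h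
  · rw [min_eq_left h]
  · rw [min_eq_right h, List.take_of_length_le h, List.take_length]

theorem exists_top (L : List (ℝ × ℝ)) (g : ℝ × ℝ → ℝ) : ∃ t, ∀ j, g (vt L j) ≤ g (vt L t) := by
  obtain ⟨t, -, ht⟩ := Finset.exists_max_image (Finset.range (L.length + 1)) (fun j => g (vt L j))
    ⟨0, by simp⟩
  refine ⟨t, fun j => ?_⟩
  rw [vt_min L j]
  exact ht _ (by simp)

/-- the area of a convex polygon is at most width times height -/
theorem area_le {U W : List (ℝ × ℝ)} (h : Shape U W) {top bot : ℝ}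
    (htop : ∀ j, (vt (U ++ W) j).2 ≤ top) (hbot : ∀ j, bot ≤ (vt (U ++ W) j).2) :
    S2 (U ++ W) ≤ 2 * (top - bot) * U.sum.1 := by
  have hs := h.sum0
  have hW : W.sum.1 = - U.sum.1 := by
    have := congrArg Prod.fst hs
    rw [List.sum_append] at this
    simp at this
    linarith
  have e1 := T_eq (U ++ W) 0
  rw [hs] at e1
  simp at e1
  rw [← e1, T_append]
  have hU1 : ∀ v ∈ U, 0 ≤ v.1 := by
    intro v hv
    obtain ⟨A, B, hAB⟩ := List.append_of_mem hv
    rcases h.up A v B hAB with h1 | h1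
    · exact h1.le
    · exact h1.1.ge
  have hW1 : ∀ v ∈ W, v.1 ≤ 0 := by
    intro v hv
    obtain ⟨A, B, hAB⟩ := List.append_of_mem hv
    rcases h.lo A v B hAB with h1 | h1 | h1
    · exact h1.le
    · exact h1.1.le
    · exact h1.1.le
  have hu := T_up top U 0 hU1 (fun j => by
    rcases le_total j U.length with hj | hj
    · have := htop j
      unfold vt at this
      rw [List.take_append_of_le_length hj] at this
      simpa using this
    · have := htop U.length
      unfold vt at this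
      rw [List.take_append_of_le_length le_rfl, List.take_length] at this
      rw [List.take_of_length_le hj]
      simpa using this)
  have hw := T_lo bot W (0 + U.sum) hW1 (fun j => by
    have := hbot (U.length + j)
    unfold vt at this
    rw [List.take_length_add_append, List.sum_append] at this
    simpa using this)
  rw [hW] at hw
  linarith

theorem S2_filter (L : List (ℝ × ℝ)) :
    S2 (L.filter (fun v => decide (v ≠ 0))) = S2 L ∧
      (L.filter (fun v => decide (v ≠ 0))).sum = L.sum := by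
  induction L with
  | nil => simp
  | cons v L ih =>
    obtain ⟨h1, h2⟩ := ih
    by_cases hv : v = 0
    · subst hv
      rw [List.filter_cons_of_neg (by simp)]
      refine ⟨by rw [h1]; simp [S2, det], by rw [h2]; simp⟩
    · rw [List.filter_cons_of_pos (by simpa using hv)]
      refine ⟨by simp only [S2, h1, h2], by rw [List.sum_cons, h2, List.sum_cons]⟩

end ModP1

open ModP1 in
theorem p1 (h1 : StmtR1) (h2 : StmtR2) : StmtP1 := by
  classical
  intro L hL hpos s hs
  set Ln := L.filter (fun v => decide (v ≠ 0)) with hLn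
  set Lz := L.filter (fun v => !decide (v ≠ 0)) with hLz
  obtain ⟨f1, f2⟩ := S2_filter L
  rw [← hLn] at f1 f2
  have hperm : (Ln ++ Lz).Perm L := List.filter_append_perm _ L
  obtain ⟨L0, q1, q2, q3, q4⟩ := h1 (ℝ × ℝ) id Ln (by rw [List.map_id, f2, hL])
  rw [List.map_id, List.map_id] at q2
  rw [List.map_id] at q3
  simp only [List.map_id] at q4
  have hsum0 : L0.sum = 0 := by rw [q1.sum_eq, f2, hL]
  have hne : ∀ v ∈ L0, v ≠ 0 := by
    intro v hv
    have := q1.mem_iff.1 hv
    rw [hLn, List.mem_filter] at this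
    simpa using this.2
  have hpos0 : 0 < S2 L0 := by rw [f1] at q2; linarith
  obtain ⟨b, hsh⟩ := h2 L0 hne hsum0 hpos0 q3 q4
  have hUW : L0.take b ++ L0.drop b = L0 := List.take_append_drop b L0
  obtain ⟨tt, htt⟩ := exists_top L0 (fun v => v.2)
  obtain ⟨tb, htb⟩ := exists_top L0 (fun v => - v.2)
  have harea := area_le hsh (top := (vt L0 tt).2) (bot := (vt L0 tb).2)
    (fun j => by rw [hUW]; exact htt j) (fun j => by rw [hUW]; exact neg_le_neg_iff.1 (htb j))
  rw [hUW] at harea
  set k := (L0.take b).sum.1 with hk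
  have hkpos : 0 < k := hsh.pos
  have hh : 0 ≤ (vt L0 tt).2 - (vt L0 tb).2 := sub_nonneg.2 (htt tb)
  set hgt := (vt L0 tt).2 - (vt L0 tb).2 with hhgt
  have hroot : Real.sqrt (2 * S2 L) ≤ k + hgt := by
    rw [Real.sqrt_le_left (by positivity)]
    rw [f1] at q2
    nlinarith [sq_nonneg (k - hgt)]
  -- insertion
  have i0 : Inv L0 L0 0 0 := by
    intro t
    refine ⟨L0.take t, L0.drop t, (List.take_append_drop t L0).symm, ?_, ?_⟩
    · rw [hsum0]; simp [vt]
    · rw [hsum0]; simp [vt]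
  obtain ⟨M1, p1, i1, X1, e1, a1, -⟩ := insert_one i0 (0, -s) b
  obtain ⟨M2, p2, i2, X2, e2, a2, -⟩ := insert_one i1 (0, s) 0
  obtain ⟨M3, p3, i3, X3, e3, -, a3⟩ := insert_one i2 (s, 0) tt
  obtain ⟨M4, p4, -, X4, e4, -, a4⟩ := insert_one i3 (-s, 0) tb
  have habs : |s| = s := abs_of_nonneg hs
  simp only [det, abs_zero, abs_neg, add_zero, zero_add, habs] at e1 e2 e3 e4 a1 a2 a3 a4
  have b1 : X1.1 = 2 * k := by
    have := abs_nonpos_iff.1 a1
    have h3 : (vt L0 b).1 = k := rfl
    linarith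
  have b2 : X2.1 = 0 := by
    have := abs_nonpos_iff.1 a2
    have h3 : (vt L0 0).1 = 0 := by simp [vt]
    linarith
  obtain ⟨a31, a32⟩ := abs_le.1 a3
  obtain ⟨a41, a42⟩ := abs_le.1 a4
  have hS : S2 L0 + 2 * s * (k + hgt) - 8 * s ^ 2 ≤ S2 M4 := by
    rw [e4, e3, e2, e1, b1, b2]
    have c1 : s * (2 * (vt L0 tt).2 - (s + s)) ≤ s * X3.2 :=
      mul_le_mul_of_nonneg_left (by linarith) hs
    have c2 : s * X4.2 ≤ s * (2 * (vt L0 tb).2 + (s + s)) :=
      mul_le_mul_of_nonneg_left (by linarith) hs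
    nlinarith [sq_nonneg s]
  -- the zero vectors
  have hz : ∀ v ∈ Lz, v = 0 := by
    intro v hv
    rw [hLz, List.mem_filter] at hv
    simpa using hv.2
  have hzS : ∀ Z : List (ℝ × ℝ), (∀ v ∈ Z, v = 0) → S2 Z = 0 ∧ Z.sum = 0 := by
    intro Z
    induction Z with
    | nil => intro _; simp [S2]
    | cons v Z ih =>
      intro h
      obtain ⟨g1, g2⟩ := ih (fun w hw => h w (by simp [hw]))
      have hv : v = 0 := h v (by simp)
      subst hv
      simp [S2, g1, g2, det]
  obtain ⟨z1, z2⟩ := hzS Lz hz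
  refine ⟨M4 ++ Lz, ?_, ?_⟩
  · have r1 : M4.Perm ((-s, 0) :: (s, 0) :: (0, s) :: (0, -s) :: L0) :=
      p4.trans (((p3.trans ((p2.trans (p1.cons _)).cons _))).cons _)
    have r2 : (M4 ++ Lz).Perm (((-s, 0) :: (s, 0) :: (0, s) :: (0, -s) :: Ln) ++ Lz) :=
      (r1.trans ((((q1.cons _).cons _).cons _).cons _)).append_right _
    have r3 : (((-s, 0) :: (s, 0) :: (0, s) :: (0, -s) :: Ln) ++ Lz).Perm
        ((-s, 0) :: (s, 0) :: (0, s) :: (0, -s) :: L) :=
      ((((hperm.cons _).cons _).cons _).cons _)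
    refine (r2.trans r3).trans ?_
    show List.Perm ([(-s, 0), (s, 0), (0, s), (0, -s)] ++ L) ([(s, 0), (0, s), (-s, 0), (0, -s)] ++ L)
    refine List.Perm.append_right _ ?_
    exact (List.Perm.swap _ _ _).trans ((List.Perm.swap _ _ _).cons _)
  · rw [S2_append, z1, z2]
    have : 2 * s * Real.sqrt (2 * S2 L) ≤ 2 * s * (k + hgt) :=
      mul_le_mul_of_nonneg_left hroot (by positivity)
    rw [f1] at q2
    simp only [det, Prod.fst_zero, Prod.snd_zero, zero_mul, sub_zero, add_zero]
    linarith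

end Pool.Agent.T6.H44.AR
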