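import Pool.Agent.T6.H44.AR.Defs

/-!
Project AR, module P2: perturbation of an admissible polygon.
-/

set_option autoImplicit false

namespace Pool.Agent.T6.H44.AR

namespace ModP2

/-- scaling of a vector -/
def sc (c : ℝ) (v : ℝ × ℝ) : ℝ × ℝ := (c * v.1, c * v.2)

theorem sum_sc (c : ℝ) (L : List (ℝ × ℝ)) : (L.map (sc c)).sum = sc c L.sum := by
  induction L with
  | nil =>
    simp [sc]
    rfl
  | cons v L ih =>
    rw [List.map_cons, List.sum_cons, ih, List.sum_cons]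
    unfold sc
    ext <;> simp <;> ring

theorem S2_sc (c : ℝ) (L : List (ℝ × ℝ)) : S2 (L.map (sc c)) = c ^ 2 * S2 L := by
  induction L with
  | nil => simp [S2]
  | cons v L ih =>
    rw [List.map_cons, S2, ih, S2, sum_sc]
    unfold det sc
    ring

theorem lift_perm {α β : Type} (g : α → β) (l : List β) (E : List α) (h : l.Perm (E.map g)) :
    ∃ E' : List α, E'.Perm E ∧ E'.map g = l := by
  classical
  induction l generalizing E with
  | nil =>
    have h1 : E = [] := by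
      have := h.length_eq
      simp at this
      exact List.eq_nil_of_length_eq_zero this.symm
    exact ⟨[], by rw [h1], rfl⟩
  | cons b l ih =>
    have hb : b ∈ E.map g := h.subset List.mem_cons_self
    obtain ⟨e, he, hge⟩ := List.mem_map.1 hb
    have h1 : E.Perm (e :: E.erase e) := List.perm_cons_erase he
    have h2 : (b :: l).Perm (b :: (E.erase e).map g) := by
      refine h.trans ((h1.map g).trans ?_)
      rw [List.map_cons, hge]
    obtain ⟨E', hE', hm⟩ := ih _ (List.Perm.cons_inv h2)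
    refine ⟨e :: E', (hE'.cons e).trans h1.symm, ?_⟩
    rw [List.map_cons, hge, hm]

theorem continuity (q lam : ℝ) (hq : 0 < q) (hq2 : q < 1 / 2) (hlam : 0 < lam)
    (hl : lam < q * (1 - 2 * q) / 2) :
    ∃ η : ℝ, 0 < η ∧ η < 1 ∧ η < q ^ 2 ∧
      2 * (q ^ 2 + η) ≤ ((1 - lam) * (1 - η)) ^ 2 * (2 * (q ^ 2 - η)) +
        2 * ((1 - η) * (lam / 2)) *
          Real.sqrt (2 * (((1 - lam) * (1 - η)) ^ 2 * (2 * (q ^ 2 - η)))) -
        8 * ((1 - η) * (lam / 2)) ^ 2 := by
  let G : ℝ → ℝ := fun η => ((1 - lam) * (1 - η)) ^ 2 * (2 * (q ^ 2 - η)) +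
        2 * ((1 - η) * (lam / 2)) *
          Real.sqrt (2 * (((1 - lam) * (1 - η)) ^ 2 * (2 * (q ^ 2 - η)))) -
        8 * ((1 - η) * (lam / 2)) ^ 2 - 2 * (q ^ 2 + η)
  have hl1 : lam < 1 := by nlinarith
  have hG : Continuous G := by
    show Continuous fun η : ℝ => _
    fun_prop
  have hsq : Real.sqrt (2 * (((1 - lam) * (1 - 0)) ^ 2 * (2 * (q ^ 2 - 0)))) =
      2 * (1 - lam) * q := by
    have h1 : 2 * (((1 - lam) * (1 - 0)) ^ 2 * (2 * (q ^ 2 - 0))) = (2 * (1 - lam) * q) ^ 2 := by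
      ring
    rw [h1]
    exact Real.sqrt_sq (by nlinarith)
  have hG0 : 0 < G 0 := by
    show 0 < ((1 - lam) * (1 - 0)) ^ 2 * (2 * (q ^ 2 - 0)) +
        2 * ((1 - 0) * (lam / 2)) *
          Real.sqrt (2 * (((1 - lam) * (1 - 0)) ^ 2 * (2 * (q ^ 2 - 0)))) -
        8 * ((1 - 0) * (lam / 2)) ^ 2 - 2 * (q ^ 2 + 0)
    rw [hsq]
    have h1 : ((1 - lam) * (1 - 0)) ^ 2 * (2 * (q ^ 2 - 0)) +
        2 * ((1 - 0) * (lam / 2)) * (2 * (1 - lam) * q) -
        8 * ((1 - 0) * (lam / 2)) ^ 2 - 2 * (q ^ 2 + 0) =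
        lam * (2 * q * (1 - 2 * q) - lam * (2 + 2 * q - 2 * q ^ 2)) := by ring
    rw [h1]
    apply mul_pos hlam
    have h2 : 2 + 2 * q - 2 * q ^ 2 ≤ 4 := by nlinarith
    have h3 : lam * (2 + 2 * q - 2 * q ^ 2) ≤ lam * 4 := mul_le_mul_of_nonneg_left h2 hlam.le
    linarith
  have h1 : ∀ᶠ η in nhds (0 : ℝ), 0 < G η := hG.continuousAt.eventually (lt_mem_nhds hG0)
  have h2 : ∀ᶠ η in nhdsWithin (0 : ℝ) (Set.Ioi 0), 0 < G η := h1.filter_mono nhdsWithin_le_nhds
  have h3 : ∀ᶠ η in nhdsWithin (0 : ℝ) (Set.Ioi 0), η ∈ Set.Ioo (0 : ℝ) (min 1 (q ^ 2)) :=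
    Ioo_mem_nhdsGT (lt_min one_pos (by positivity))
  obtain ⟨η, h4, h5⟩ := (h2.and h3).exists
  refine ⟨η, h5.1, h5.2.trans_le (min_le_left _ _), h5.2.trans_le (min_le_right _ _), ?_⟩
  have h6 : 0 < ((1 - lam) * (1 - η)) ^ 2 * (2 * (q ^ 2 - η)) +
        2 * ((1 - η) * (lam / 2)) *
          Real.sqrt (2 * (((1 - lam) * (1 - η)) ^ 2 * (2 * (q ^ 2 - η)))) -
        8 * ((1 - η) * (lam / 2)) ^ 2 - 2 * (q ^ 2 + η) := h4
  linarith

end ModP2

open ModP2

/-- **P2** -/
theorem p2 (hP1 : StmtP1) : StmtP2 := by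
  intro I hI hI0 hIn hIB u hu hu4 ε hε
  obtain ⟨B, hB⟩ := hIB
  have h0D : (0 : ℝ × ℝ) ∈ Dia := by
    show |(0 : ℝ)| + |(0 : ℝ)| ≤ 1
    simp
  have hB0 : 0 ≤ B := by
    have := hB 0 h0D
    rw [hI0] at this
    exact this
  have hq : 0 < Real.sqrt u := Real.sqrt_pos.2 hu
  have hqq : Real.sqrt u ^ 2 = u := Real.sq_sqrt hu.le
  have hq2 : Real.sqrt u < 1 / 2 := by
    rw [Real.sqrt_lt' (by norm_num)]
    norm_num
    linarith
  set q := Real.sqrt u with hqdef
  have hκ : 0 < q * (1 - 2 * q) := mul_pos hq (by linarith)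
  obtain ⟨lam, hlam, hl1, hl2⟩ : ∃ lam : ℝ, 0 < lam ∧ lam < q * (1 - 2 * q) / 2 ∧
      lam * (2 * B + 1) ≤ ε := by
    have h1 : 0 < ε / (2 * B + 1) := by positivity
    refine ⟨min (q * (1 - 2 * q) / 4) (ε / (2 * B + 1)), lt_min (by linarith) h1, ?_, ?_⟩
    · exact (min_le_left _ _).trans_lt (by linarith)
    · calc min (q * (1 - 2 * q) / 4) (ε / (2 * B + 1)) * (2 * B + 1)
          ≤ ε / (2 * B + 1) * (2 * B + 1) :=
            mul_le_mul_of_nonneg_right (min_le_right _ _) (by positivity)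
        _ = ε := by field_simp
  have hl3 : lam < 1 := by nlinarith
  obtain ⟨η, hη0, hη1, hηu, hmain⟩ := continuity q lam hq hq2 hlam hl1
  rw [hqq] at hηu hmain
  refine ⟨η, hη0, fun E hE => ?_⟩
  obtain ⟨hE1, hE2, hE3, hE4⟩ := hE
  set s : ℝ := (1 - η) * (lam / 2) with hs
  set c : ℝ := (1 - lam) * (1 - η) with hc
  have hs0 : 0 < s := mul_pos (by linarith) (by linarith)
  have hc0 : 0 < c := mul_pos (by linarith) (by linarith)
  have hsl : s < lam / 2 := by
    rw [hs]; nlinarith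
  let g : ℝ × (ℝ × ℝ) → ℝ × (ℝ × ℝ) := fun e => ((1 - lam) * e.1, sc c e.2)
  let base : List (ℝ × (ℝ × ℝ)) := [(lam / 2, (s, 0)), (lam / 2, (0, s)), (lam / 2, (-s, 0)),
    (lam / 2, (0, -s))]
  let E1 : List (ℝ × (ℝ × ℝ)) := base ++ E.map g
  set L : List (ℝ × ℝ) := (E.map Prod.snd).map (sc c) with hL
  have hsnd : E1.map Prod.snd = [(s, 0), (0, s), (-s, 0), (0, -s)] ++ L := by
    show (base ++ E.map g).map Prod.snd = _
    rw [List.map_append, hL, List.map_map, List.map_map]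
    rfl
  have hL0 : L.sum = 0 := by
    rw [hL, sum_sc, hE3]
    simp [sc]
  have ha : c ^ 2 * (2 * (u - η)) ≤ S2 L := by
    rw [hL, S2_sc]
    exact mul_le_mul_of_nonneg_left hE4 (by positivity)
  have ha0 : 0 < c ^ 2 * (2 * (u - η)) := mul_pos (by positivity) (by linarith)
  obtain ⟨L', hL', hS⟩ := hP1 L hL0 (ha0.trans_le ha) s hs0.le
  rw [← hsnd] at hL'
  obtain ⟨E', hE', hm⟩ := lift_perm Prod.snd L' E1 hL'
  have hmem : ∀ e ∈ E', e ∈ E1 := fun e he => hE'.subset he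
  have hA : ∀ e ∈ E1, 0 < e.1 ∧ |e.2.1| + |e.2.2| < e.1 := by
    intro e he
    rcases List.mem_append.1 he with h1 | h1
    · have h2 : e = (lam / 2, (s, 0)) ∨ e = (lam / 2, (0, s)) ∨ e = (lam / 2, (-s, 0)) ∨
          e = (lam / 2, (0, -s)) := by
        simpa [base] using h1
      have hab : |s| = s := abs_of_pos hs0
      rcases h2 with rfl | rfl | rfl | rfl
      · exact ⟨by simpa using by linarith, by simpa [hab] using hsl⟩
      · exact ⟨by simpa using by linarith, by simpa [hab] using hsl⟩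
      · exact ⟨by simpa using by linarith, by simpa [hab] using hsl⟩
      · exact ⟨by simpa using by linarith, by simpa [hab] using hsl⟩
    · obtain ⟨e', he', rfl⟩ := List.mem_map.1 h1
      obtain ⟨h3, h4⟩ := hE1 e' he'
      refine ⟨mul_pos (by linarith) h3, ?_⟩
      show |c * e'.2.1| + |c * e'.2.2| < (1 - lam) * e'.1
      rw [abs_mul c, abs_mul c, abs_of_pos hc0, ← mul_add]
      have h5 : c * (|e'.2.1| + |e'.2.2|) ≤ c * e'.1 := mul_le_mul_of_nonneg_left h4 hc0.le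
      have h6 : c * e'.1 < (1 - lam) * e'.1 := by
        apply mul_lt_mul_of_pos_right _ h3
        rw [hc]
        nlinarith
      linarith
  have hfst : (E1.map Prod.fst).sum = 2 := by
    show ((base ++ E.map g).map Prod.fst).sum = 2
    rw [List.map_append, List.sum_append, List.map_map]
    have h1 : (List.map (Prod.fst ∘ g) E) = (E.map Prod.fst).map (fun t => (1 - lam) * t) := by
      rw [List.map_map]; rfl
    rw [h1, List.sum_map_mul_left, List.map_id', hE2]
    simp [base]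
    ring
  refine ⟨E', ⟨fun e he => hA e (hmem e he), ?_, ?_, ?_⟩, ?_⟩
  · rw [(hE'.map Prod.fst).sum_eq]; exact hfst
  · rw [(hE'.map Prod.snd).sum_eq, hsnd, List.sum_append, hL0]
    ext <;> simp
  · rw [hm]
    have h1 : Real.sqrt (2 * (c ^ 2 * (2 * (u - η)))) ≤ Real.sqrt (2 * S2 L) :=
      Real.sqrt_le_sqrt (by linarith)
    have h2 : 2 * s * Real.sqrt (2 * (c ^ 2 * (2 * (u - η)))) ≤ 2 * s * Real.sqrt (2 * S2 L) :=
      mul_le_mul_of_nonneg_left h1 (by positivity)
    linarith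
  · -- the cost
    have hcost : cost I E' = cost I E1 := (hE'.map _).sum_eq
    rw [hcost]
    show ((base ++ E.map g).map (fun e => e.1 * I (e.2.1 / e.1, e.2.2 / e.1))).sum ≤ _
    rw [List.map_append, List.sum_append, List.map_map]
    have hl2' : lam / 2 ≠ 0 := by positivity
    have hsr : s / (lam / 2) = 1 - η := by
      rw [hs]; field_simp
    have hd1 : ∀ x y : ℝ, |x| + |y| = 1 - η → lam / 2 * I (x, y) ≤ lam / 2 * B := by
      intro x y hxy
      apply mul_le_mul_of_nonneg_left _ (by positivity)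
      apply hB
      show |x| + |y| ≤ 1
      rw [hxy]; linarith
    have h1η : |1 - η| = 1 - η := abs_of_pos (by linarith)
    have hbase : (base.map (fun e => e.1 * I (e.2.1 / e.1, e.2.2 / e.1))).sum ≤ 2 * lam * B := by
      simp only [base, List.map_cons, List.map_nil, List.sum_cons, List.sum_nil, zero_div, neg_div,
        hsr]
      have e1 := hd1 (1 - η) 0 (by rw [h1η, abs_zero, add_zero])
      have e2 := hd1 0 (1 - η) (by rw [h1η, abs_zero, zero_add])
      have e3 := hd1 (-(1 - η)) 0 (by rw [abs_neg, h1η, abs_zero, add_zero])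
      have e4 := hd1 0 (-(1 - η)) (by rw [abs_neg, h1η, abs_zero, zero_add])
      linarith
    have hrest : (List.map ((fun e => e.1 * I (e.2.1 / e.1, e.2.2 / e.1)) ∘ g) E).sum ≤
        (E.map (fun e => e.1 * I (e.2.1 / e.1, e.2.2 / e.1))).sum := by
      apply List.sum_le_sum
      intro e he
      obtain ⟨h3, h4⟩ := hE1 e he
      show (1 - lam) * e.1 * I (c * e.2.1 / ((1 - lam) * e.1), c * e.2.2 / ((1 - lam) * e.1)) ≤ _
      have hw : (e.2.1 / e.1, e.2.2 / e.1) ∈ Dia := by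
        show |e.2.1 / e.1| + |e.2.2 / e.1| ≤ 1
        rw [abs_div, abs_div, abs_of_pos h3, ← add_div, div_le_one h3]
        exact h4
      have h1l : (1 : ℝ) - lam ≠ 0 := by linarith
      have hpt : ((c * e.2.1 / ((1 - lam) * e.1), c * e.2.2 / ((1 - lam) * e.1)) : ℝ × ℝ) =
          η • (0 : ℝ × ℝ) + (1 - η) • (e.2.1 / e.1, e.2.2 / e.1) := by
        rw [hc]
        ext
        · simp
          field_simp
        · simp
          field_simp
      rw [hpt]
      have hconv := hI.2 h0D hw hη0.le (by linarith : (0 : ℝ) ≤ 1 - η) (by ring)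
      rw [smul_eq_mul, smul_eq_mul, hI0, mul_zero, zero_add] at hconv
      have hIw := hIn _ hw
      have h5 : I (η • (0 : ℝ × ℝ) + (1 - η) • (e.2.1 / e.1, e.2.2 / e.1)) ≤
          I (e.2.1 / e.1, e.2.2 / e.1) := by
        have h5a := mul_nonneg hη0.le hIw
        refine hconv.trans ?_
        linarith only [h5a]
      have h6 : (1 - lam) * e.1 * I (η • (0 : ℝ × ℝ) + (1 - η) • (e.2.1 / e.1, e.2.2 / e.1)) ≤
          (1 - lam) * e.1 * I (e.2.1 / e.1, e.2.2 / e.1) :=
        mul_le_mul_of_nonneg_left h5 (mul_nonneg (by linarith) h3.le)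
      have h7 : 0 ≤ e.1 * I (e.2.1 / e.1, e.2.2 / e.1) := mul_nonneg h3.le hIw
      have h8 := mul_nonneg hlam.le h7
      refine h6.trans ?_
      linarith only [h8]
    have hfin : cost I E = (E.map (fun e => e.1 * I (e.2.1 / e.1, e.2.2 / e.1))).sum := rfl
    rw [hfin]
    have h8 : 2 * lam * B ≤ ε := by linarith only [hl2, hlam]
    linarith only [h8, hbase, hrest]

end Pool.Agent.T6.H44.AR
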