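import Pool.Agent.T6.H44.AR.Defs3

set_option autoImplicit false

open MeasureTheory

namespace Pool.Agent.T6.H44.AR

namespace ModPZ

/-- `x ↦ (x 0, x 1)` -/
noncomputable def e (x : EuclideanSpace ℝ (Fin 2)) : ℝ × ℝ := (x 0, x 1)

/-- its inverse -/
noncomputable def e' (p : ℝ × ℝ) : EuclideanSpace ℝ (Fin 2) := !₂[p.1, p.2]

theorem e_e' (p : ℝ × ℝ) : e (e' p) = p := by
  simp [e, e']

theorem e'_e (x : EuclideanSpace ℝ (Fin 2)) : e' (e x) = x := by
  ext i
  fin_cases i <;> simp [e, e']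

theorem cont_e : Continuous e := by
  unfold e
  fun_prop

theorem cont_e' : Continuous e' := by
  unfold e'
  fun_prop

theorem inner_e (x y : EuclideanSpace ℝ (Fin 2)) :
    inner ℝ x y = (e x).1 * (e y).1 + (e x).2 * (e y).2 := by
  simp only [PiLp.inner_apply, Fin.sum_univ_two, e, RCLike.inner_apply, conj_trivial]
  ring

theorem hh_eq (K : Set (ℝ × ℝ)) (u : EuclideanSpace ℝ (Fin 2)) :
    H354ZN.hh (e ⁻¹' K) u = sup K (e u) := by
  unfold H354ZN.hh sup
  congr 1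
  ext r
  constructor
  · rintro ⟨y, hy, rfl⟩
    exact ⟨e y, hy, (inner_e y u).symm⟩
  · rintro ⟨p, hp, rfl⟩
    refine ⟨e' p, ?_, ?_⟩
    · change e (e' p) ∈ K
      rwa [e_e']
    · change inner ℝ (e' p) u = _
      rw [inner_e, e_e']

theorem hh_zon {N : ℕ} (z : Fin N → EuclideanSpace ℝ (Fin 2)) (u : EuclideanSpace ℝ (Fin 2)) :
    H354ZN.hh (H354ZN.ZonE z) u = ∑ j, |inner ℝ (z j) u| := by
  have hub : ∀ y ∈ H354ZN.ZonE z, inner ℝ y u ≤ ∑ j, |inner ℝ (z j) u| := by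
    rintro y ⟨t, ht, rfl⟩
    rw [sum_inner]
    refine Finset.sum_le_sum fun j _ => ?_
    rw [real_inner_smul_left]
    calc t j * inner ℝ (z j) u ≤ |t j * inner ℝ (z j) u| := le_abs_self _
      _ = |t j| * |inner ℝ (z j) u| := abs_mul _ _
      _ ≤ 1 * |inner ℝ (z j) u| := mul_le_mul_of_nonneg_right (ht j) (abs_nonneg _)
      _ = _ := one_mul _
  unfold H354ZN.hh
  apply le_antisymm
  · refine csSup_le ⟨_, 0, ⟨fun _ => 0, by simp, by simp⟩, rfl⟩ ?_
    rintro _ ⟨y, hy, rfl⟩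
    exact hub y hy
  · refine le_csSup ⟨_, by rintro _ ⟨y, hy, rfl⟩; exact hub y hy⟩ ?_
    refine ⟨∑ j, (if 0 ≤ inner ℝ (z j) u then (1 : ℝ) else -1) • z j,
      ⟨fun j => if 0 ≤ inner ℝ (z j) u then (1 : ℝ) else -1, ?_, rfl⟩, ?_⟩
    · intro j
      dsimp only
      split_ifs <;> simp
    · simp only
      rw [sum_inner]
      refine Finset.sum_congr rfl fun j _ => ?_
      rw [real_inner_smul_left]
      split_ifs with h
      · rw [one_mul, abs_of_nonneg h]
      · rw [abs_of_neg (not_le.1 h)]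
        ring

theorem sb_pre {K : Set (ℝ × ℝ)} (hc : Convex ℝ K) (hk : IsCompact K)
    (h0 : (0 : ℝ × ℝ) ∈ interior K) (hs : ∀ h ∈ K, -h ∈ K) : H354ZN.SB (e ⁻¹' K) := by
  refine ⟨?_, ?_, ?_, ?_⟩
  · intro x hx y hy a b ha hb hab
    have h := hc hx hy ha hb hab
    change e (a • x + b • y) ∈ K
    have : e (a • x + b • y) = a • e x + b • e y := by simp [e]
    rw [this]
    exact h
  · have h : e ⁻¹' K = e' '' K := by
      ext x
      constructor
      · intro hx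
        exact ⟨e x, hx, e'_e x⟩
      · rintro ⟨p, hp, rfl⟩
        change e (e' p) ∈ K
        rwa [e_e']
    rw [h]
    exact hk.image cont_e'
  · have h1 : e ⁻¹' interior K ⊆ interior (e ⁻¹' K) := preimage_interior_subset_interior_preimage cont_e
    apply h1
    change e 0 ∈ interior K
    have : e 0 = 0 := by simp [e]
    rwa [this]
  · intro x hx
    change e (-x) ∈ K
    have : e (-x) = -e x := by simp [e]
    rw [this]
    exact hs _ hx

end ModPZ

open ModPZ in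
theorem pz (hPLZ : H354ZN.S_PLZ) (hSAND : H354ZN.S_SAND) : StmtPZ := by
  intro K hc hk h0 hs ε hε hε1
  have hSB := sb_pre hc hk h0 hs
  obtain ⟨Z, ⟨N, z, rfl⟩, hZ⟩ := hSAND 2 _ hSB (hPLZ _ hSB) ε hε hε1
  refine ⟨N, fun j => e (z j), fun v => ?_⟩
  have h := hZ (e' v)
  rw [hh_eq, e_e', hh_zon] at h
  have h2 : ∑ j, |inner ℝ (z j) (e' v)| = ∑ j, |(e (z j)).1 * v.1 + (e (z j)).2 * v.2| := by
    refine Finset.sum_congr rfl fun j _ => ?_
    rw [inner_e, e_e']
  rw [h2] at h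
  exact h

end Pool.Agent.T6.H44.AR
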