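import Pool.Agent.T6.H44.AR.Defs

/-!
Project AR (helper44), MP_f6626d_co, module R1.
-/

set_option autoImplicit false

namespace Pool.Agent.T6.H44.AR

namespace ModR1

theorem S2_append {R : Type} [CommRing R] (A B : List (R × R)) :
    S2 (A ++ B) = S2 A + S2 B + det B.sum A.sum := by
  induction A with
  | nil => simp [S2, det]
  | cons v A ih =>
    simp only [List.cons_append, S2, ih, List.sum_append, List.sum_cons, det, Prod.fst_add,
      Prod.snd_add]
    ring

theorem swap (A B C D : List (ℝ × ℝ)) :
    S2 (A ++ B ++ C ++ D) - S2 (A ++ C ++ B ++ D) = 2 * det C.sum B.sum := by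
  simp only [S2_append, List.sum_append, det, Prod.fst_add, Prod.snd_add]
  ring

theorem rot (A B : List (ℝ × ℝ)) (h : (A ++ B).sum = 0) : S2 (B ++ A) = S2 (A ++ B) := by
  rw [List.sum_append] at h
  have h' : B.sum = -A.sum := by
    rw [eq_neg_iff_add_eq_zero, add_comm]; exact h
  simp only [S2_append, h', det, Prod.fst_neg, Prod.snd_neg]
  ring

theorem vt_add (L : List (ℝ × ℝ)) (a j : ℕ) :
    vt L (a + j) = vt L a + ((L.drop a).take j).sum := by
  unfold vt
  rw [List.take_add, List.sum_append]

end ModR1

open ModR1

theorem r1 : StmtR1 := by
  classical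
  intro α f E hE
  -- the maximal arrangement
  obtain ⟨E₀, hE₀, hmax⟩ := Finset.exists_max_image (E.permutations.toFinset)
    (fun L => S2 (L.map f)) ⟨E, by simp⟩
  have hp₀ : E₀.Perm E := by simpa using hE₀
  have hmax' : ∀ L : List α, L.Perm E → S2 (L.map f) ≤ S2 (E₀.map f) := by
    intro L hL
    exact hmax L (by simpa using hL)
  have hs₀ : (E₀.map f).sum = 0 := by rw [(hp₀.map f).sum_eq, hE]
  obtain ⟨a, ha, hmin⟩ := Finset.exists_min_image (Finset.range ((E₀.map f).length + 1))
    (fun k => (vt (E₀.map f) k).1) ⟨0, by simp⟩
  have ha' : a ≤ (E₀.map f).length := by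
    have := Finset.mem_range.mp ha; omega
  have hmin' : ∀ k, k ≤ (E₀.map f).length → (vt (E₀.map f) a).1 ≤ (vt (E₀.map f) k).1 := by
    intro k hk
    exact hmin k (Finset.mem_range.mpr (by omega))
  have hperm : (E₀.drop a ++ E₀.take a).Perm E₀ := by
    have h1 : (E₀.drop a ++ E₀.take a).Perm (E₀.take a ++ E₀.drop a) := List.perm_append_comm
    rwa [List.take_append_drop] at h1
  have hS : S2 ((E₀.drop a ++ E₀.take a).map f) = S2 (E₀.map f) := by
    have h1 := rot ((E₀.take a).map f) ((E₀.drop a).map f) (by
      rw [← List.map_append, List.take_append_drop]; exact hs₀)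
    rw [← List.map_append, ← List.map_append, List.take_append_drop] at h1
    exact h1
  refine ⟨E₀.drop a ++ E₀.take a, hperm.trans hp₀, ?_, ?_, ?_⟩
  · rw [hS]; exact hmax' E (List.Perm.refl _)
  · -- clockwise
    set E' := E₀.drop a ++ E₀.take a with hE'
    intro i j m hij hjm
    have e1 : E'.take i ++ (E'.take j).drop i = E'.take j := by
      conv_rhs => rw [← List.take_append_drop i (E'.take j)]
      rw [List.take_take, min_eq_left hij]
    have e2 : E'.take j ++ (E'.take m).drop j = E'.take m := by
      conv_rhs => rw [← List.take_append_drop j (E'.take m)]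
      rw [List.take_take, min_eq_left hjm]
    have e3 : E'.take i ++ (E'.take j).drop i ++ (E'.take m).drop j ++ E'.drop m = E' := by
      rw [e1, e2, List.take_append_drop]
    have hB : (((E'.take j).drop i).map f).sum = vt (E'.map f) j - vt (E'.map f) i := by
      unfold vt
      rw [eq_sub_iff_add_eq, add_comm, ← List.sum_append, ← List.map_take, ← List.map_take,
        ← List.map_append, e1]
    have hC : (((E'.take m).drop j).map f).sum = vt (E'.map f) m - vt (E'.map f) j := by
      unfold vt
      rw [eq_sub_iff_add_eq, add_comm, ← List.sum_append, ← List.map_take, ← List.map_take,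
        ← List.map_append, e2]
    have hsw := swap ((E'.take i).map f) (((E'.take j).drop i).map f)
      (((E'.take m).drop j).map f) ((E'.drop m).map f)
    rw [hB, hC] at hsw
    have h1 : (E'.take i).map f ++ ((E'.take j).drop i).map f ++
        ((E'.take m).drop j).map f ++ (E'.drop m).map f = E'.map f := by
      rw [← List.map_append, ← List.map_append, ← List.map_append, e3]
    have h2 : S2 ((E'.take i).map f ++ ((E'.take m).drop j).map f ++
        ((E'.take j).drop i).map f ++ (E'.drop m).map f) ≤ S2 (E'.map f) := by
      rw [← List.map_append, ← List.map_append, ← List.map_append, hS]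
      refine hmax' _ ?_
      refine List.Perm.trans ?_ (hperm.trans hp₀)
      have h3 : (E'.take i ++ (E'.take m).drop j ++ (E'.take j).drop i ++ E'.drop m).Perm
          (E'.take i ++ (E'.take j).drop i ++ (E'.take m).drop j ++ E'.drop m) := by
        refine List.Perm.append_right _ ?_
        rw [List.append_assoc, List.append_assoc]
        exact List.Perm.append_left _ List.perm_append_comm
      rw [e3] at h3
      exact h3
    rw [h1] at hsw
    linarith
  · intro j
    have hlen : (vt (E₀.map f) (E₀.map f).length) = 0 := by
      unfold vt; rw [List.take_length]; exact hs₀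
    unfold vt
    rw [List.map_append, List.map_drop, List.map_take, List.take_append, List.sum_append,
      Prod.fst_add]
    set L := E₀.map f with hL
    have h1 : ((L.drop a).take j).sum = vt L (a + j) - vt L a := by
      rw [vt_add]; abel
    rw [h1, List.length_drop, List.take_take]
    by_cases hj : j ≤ L.length - a
    · have : j - (L.length - a) = 0 := by omega
      rw [this]
      simp only [zero_le, inf_of_le_left, List.take_zero, List.sum_nil, Prod.fst_zero, add_zero,
        Prod.fst_sub]
      have := hmin' (a + j) (by omega)
      linarith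
    · have h2 : vt L (a + j) = 0 := by
        unfold vt
        rw [List.take_of_length_le (by omega)]
        exact hs₀
      rw [h2]
      have h3 := hmin' (min (j - (L.length - a)) a) (by
        have := min_le_right (j - (L.length - a)) a
        omega)
      have h4 : (L.take (min (j - (L.length - a)) a)).sum = vt L (min (j - (L.length - a)) a) := rfl
      rw [h4]
      simp only [zero_sub, Prod.fst_neg]
      linarith

end Pool.Agent.T6.H44.AR
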