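import Pool.Agent.T6.H44.AR.Defs

/-! Module R2 of project AR: the two chains of a clockwise polygon of positive area. -/

set_option autoImplicit false

namespace Pool.Agent.T6.H44.AR

namespace ModR2

theorem core (x y : ℕ → ℝ) (N : ℕ) (hx0 : x 0 = 0) (hy0 : y 0 = 0)
    (hN : ∀ j, N ≤ j → x j = x N)
    (hC : ∀ i j m, i ≤ j → j ≤ m → 0 ≤ (x m - x j) * (y j - y i) - (y m - y j) * (x j - x i))
    (hpos : ∀ j, 0 ≤ x j)
    (hS : ∀ p q : ℝ, (p ≠ 0 ∨ q ≠ 0) → (∀ s, p * y s - q * x s = 0) → False)
    (hne : ∀ i < N, x (i + 1) = x i → y (i + 1) ≠ y i) :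
    ∃ b, (∀ j, x j ≤ x b) ∧ 0 < x b ∧
      (∀ i, i < b → i < N →
        x i < x (i + 1) ∨ (x (i + 1) = x i ∧ y i < y (i + 1) ∧ x i = 0)) ∧
      (∀ i, b ≤ i → i < N →
        x (i + 1) < x i ∨ (x (i + 1) = x i ∧ y i < y (i + 1) ∧ x i = 0) ∨
          (x (i + 1) = x i ∧ y (i + 1) < y i ∧ x i = x b)) := by
  classical
  have hex : ∃ b, ∀ j, x j ≤ x b := by
    obtain ⟨b, hb, hmax⟩ := Finset.exists_max_image (Finset.range (N + 1)) x ⟨0, by simp⟩
    refine ⟨b, fun j => ?_⟩
    rcases le_or_gt j N with h | h
    · exact hmax j (Finset.mem_range.2 (by omega))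
    · rw [hN j h.le]; exact hmax N (by simp)
  obtain ⟨b, hb, hfirst⟩ : ∃ b, (∀ j, x j ≤ x b) ∧ ∀ i < b, x i < x b := by
    refine ⟨Nat.find hex, Nat.find_spec hex, fun i hi => ?_⟩
    have h1 := Nat.find_min hex hi
    push Not at h1
    obtain ⟨j, hj⟩ := h1
    exact lt_of_lt_of_le hj (Nat.find_spec hex j)
  have hk : 0 < x b := by
    by_contra h
    push Not at h
    refine hS 0 1 (Or.inr one_ne_zero) fun s => ?_
    have h1 := hb s
    have h2 := hpos s
    have h3 : x s = 0 := by linarith
    rw [h3]; ring
  have inner : ∀ i s, (x (i + 1) - x i) * (y s - y i) - (y (i + 1) - y i) * (x s - x i) ≤ 0 := by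
    intro i s
    rcases le_or_gt s i with h | h
    · have := hC s i (i + 1) h (by omega)
      linarith
    · have := hC i (i + 1) s (by omega) (by omega)
      linarith
  -- determinants with the chord
  have up : ∀ s, s ≤ b → 0 ≤ x b * y s - y b * x s := by
    intro s hs
    have := hC 0 s b (Nat.zero_le _) hs
    rw [hx0, hy0] at this
    linarith
  have dn : ∀ s, b ≤ s → x b * y s - y b * x s ≤ 0 := by
    intro s hs
    have := hC 0 b s (Nat.zero_le _) hs
    rw [hx0, hy0] at this
    linarith
  -- the chord and the line of an edge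
  have key : ∀ i, ∀ a w : ℝ, 0 ≤ a → a ≤ x b →
      (x (i + 1) - x i) * (w - y i) = (y (i + 1) - y i) * (a - x i) →
      0 ≤ (x (i + 1) - x i) * (x b * w - y b * a) := by
    intro i a w ha0 hak hline
    have h0 := inner i 0
    have h1 := inner i b
    rw [hx0, hy0] at h0
    have e1 := mul_nonneg (sub_nonneg.2 hak) (neg_nonneg.2 h0)
    have e2 := mul_nonneg ha0 (neg_nonneg.2 h1)
    have e3 : (x (i + 1) - x i) * (x b * w - y b * a) =
        (x b - a) * -((x (i + 1) - x i) * (0 - y i) - (y (i + 1) - y i) * (0 - x i)) +
        a * -((x (i + 1) - x i) * (y b - y i) - (y (i + 1) - y i) * (x b - x i)) := by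
      linear_combination x b * hline
    linarith
  -- vertical edges
  have vup : ∀ i, x (i + 1) = x i → y i < y (i + 1) → x i = 0 := by
    intro i h1 h2
    have h3 := inner i 0
    rw [h1, hx0, hy0] at h3
    have h4 := hpos i
    have h5 : 0 < y (i + 1) - y i := by linarith
    by_contra h6
    have h7 : 0 < x i := lt_of_le_of_ne h4 (Ne.symm h6)
    have := mul_pos h5 h7
    linarith
  have vdn : ∀ i, x (i + 1) = x i → y (i + 1) < y i → x i = x b := by
    intro i h1 h2
    have h3 := inner i b
    rw [h1] at h3
    have h4 := hb i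
    have h5 : 0 < y i - y (i + 1) := by linarith
    by_contra h6
    have h7 : 0 < x b - x i := by
      have := lt_of_le_of_ne h4 h6
      linarith
    have := mul_pos h5 h7
    linarith
  -- upper edges to the left
  have hupper : ∀ i, i < b → ¬ x (i + 1) < x i := by
    intro i hib hlt
    have ha := hfirst i hib
    have ha0 : 0 < x i := lt_of_le_of_lt (hpos (i + 1)) hlt
    have hv : x (i + 1) - x i < 0 := by linarith
    have d1 : x b * y i - y b * x i = 0 := by
      have h1 := key i (x i) (y i) ha0.le ha.le (by ring)
      have h2 := up i hib.le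
      nlinarith
    have d2 : x b * y (i + 1) - y b * x (i + 1) = 0 := by
      have h1 := key i (x (i + 1)) (y (i + 1)) (hpos _) (hb _) (by ring)
      have h2 := up (i + 1) hib
      nlinarith
    refine hS (x b) (y b) (Or.inl hk.ne') fun s => ?_
    have g1 : 0 ≤ x b * y s - y b * x s := by
      have h1 := inner i s
      have h2 : x b * ((x (i + 1) - x i) * (y s - y i) - (y (i + 1) - y i) * (x s - x i)) =
          (x (i + 1) - x i) * (x b * y s - y b * x s) := by
        linear_combination (x s - x i) * d1 - (x s - x i) * d2 - (x (i + 1) - x i) * d1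
      by_contra hneg
      push Not at hneg
      have h3 := mul_pos_of_neg_of_neg hv hneg
      have h4 := mul_nonneg hk.le (neg_nonneg.2 h1)
      linarith
    have g2 : x b * y s - y b * x s ≤ 0 := by
      rcases le_or_gt b s with hs | hs
      · exact dn s hs
      · rcases le_or_gt s i with hsi | hsi
        · have h1 := hC s i b hsi hib.le
          have h2 : x b * ((x b - x i) * (y i - y s) - (y b - y i) * (x i - x s)) =
              -((x b - x i) * (x b * y s - y b * x s)) := by
            linear_combination (x b - x s) * d1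
          have h3 := mul_nonneg hk.le h1
          by_contra hneg
          push Not at hneg
          have h4 := mul_pos (sub_pos.2 ha) hneg
          linarith
        · have h1 := hC 0 i s (Nat.zero_le _) hsi.le
          rw [hx0, hy0] at h1
          have h2 : x b * ((x s - x i) * (y i - 0) - (y s - y i) * (x i - 0)) =
              -(x i * (x b * y s - y b * x s)) := by
            linear_combination (x s) * d1
          have h3 := mul_nonneg hk.le h1
          by_contra hneg
          push Not at hneg
          have h4 := mul_pos ha0 hneg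
          linarith
    linarith
  -- lower edges to the right
  have hlower : ∀ i, b ≤ i → ¬ x i < x (i + 1) := by
    intro i hib hlt
    have ha : x i < x b := lt_of_lt_of_le hlt (hb _)
    have ha0 : 0 < x (i + 1) := lt_of_le_of_lt (hpos i) hlt
    have hv : 0 < x (i + 1) - x i := by linarith
    have d1 : x b * y i - y b * x i = 0 := by
      have h1 := key i (x i) (y i) (hpos _) ha.le (by ring)
      have h2 := dn i hib
      nlinarith
    have d2 : x b * y (i + 1) - y b * x (i + 1) = 0 := by
      have h1 := key i (x (i + 1)) (y (i + 1)) (hpos _) (hb _) (by ring)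
      have h2 := dn (i + 1) (by omega)
      nlinarith
    refine hS (x b) (y b) (Or.inl hk.ne') fun s => ?_
    have g1 : x b * y s - y b * x s ≤ 0 := by
      have h1 := inner i s
      have h2 : x b * ((x (i + 1) - x i) * (y s - y i) - (y (i + 1) - y i) * (x s - x i)) =
          (x (i + 1) - x i) * (x b * y s - y b * x s) := by
        linear_combination (x s - x i) * d1 - (x s - x i) * d2 - (x (i + 1) - x i) * d1
      by_contra hneg
      push Not at hneg
      have h3 := mul_pos hv hneg
      have h4 := mul_nonneg hk.le (neg_nonneg.2 h1)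
      linarith
    have g2 : 0 ≤ x b * y s - y b * x s := by
      rcases le_or_gt s b with hs | hs
      · exact up s hs
      · rcases le_or_gt s (i + 1) with hsi | hsi
        · have h1 := hC 0 s (i + 1) (Nat.zero_le _) hsi
          rw [hx0, hy0] at h1
          have h2 : x b * ((x (i + 1) - x s) * (y s - 0) - (y (i + 1) - y s) * (x s - 0)) =
              x (i + 1) * (x b * y s - y b * x s) := by
            linear_combination (-(x s)) * d2
          have h3 := mul_nonneg hk.le h1
          by_contra hneg
          push Not at hneg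
          have h4 := mul_neg_of_pos_of_neg ha0 hneg
          linarith
        · have h1 := hC b i s hib (by omega)
          have h2 : x b * ((x s - x i) * (y i - y b) - (y s - y i) * (x i - x b)) =
              (x b - x i) * (x b * y s - y b * x s) := by
            linear_combination (x s - x b) * d1
          have h3 := mul_nonneg hk.le h1
          by_contra hneg
          push Not at hneg
          have h4 := mul_neg_of_pos_of_neg (sub_pos.2 ha) hneg
          linarith
    linarith
  refine ⟨b, hb, hk, fun i hib hiN => ?_, fun i hib hiN => ?_⟩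
  · rcases lt_trichotomy (x i) (x (i + 1)) with h | h | h
    · exact Or.inl h
    · right
      rcases lt_trichotomy (y i) (y (i + 1)) with h' | h' | h'
      · exact ⟨h.symm, h', vup i h.symm h'⟩
      · exact absurd h'.symm (hne i hiN h.symm)
      · exact absurd (vdn i h.symm h') (hfirst i hib).ne
    · exact absurd h (hupper i hib)
  · rcases lt_trichotomy (x (i + 1)) (x i) with h | h | h
    · exact Or.inl h
    · right
      rcases lt_trichotomy (y i) (y (i + 1)) with h' | h' | h'
      · exact Or.inl ⟨h, h', vup i h h'⟩
      · exact absurd h'.symm (hne i hiN h)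
      · exact Or.inr ⟨h, h', vdn i h h'⟩
    · exact absurd h (hlower i hib)

theorem s2_zero (p q : ℝ) (hpq : p ≠ 0 ∨ q ≠ 0) (L : List (ℝ × ℝ))
    (h : ∀ v ∈ L, p * v.2 - q * v.1 = 0) : S2 L = 0 ∧ p * L.sum.2 - q * L.sum.1 = 0 := by
  induction L with
  | nil => simp [S2]
  | cons v L ih =>
    obtain ⟨h1, h2⟩ := ih fun w hw => h w (List.mem_cons_of_mem _ hw)
    have h3 := h v List.mem_cons_self
    constructor
    · rw [S2, h1, add_zero]
      change L.sum.1 * v.2 - L.sum.2 * v.1 = 0
      rcases hpq with hp | hq
      · apply mul_left_cancel₀ hp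
        linear_combination L.sum.1 * h3 - v.1 * h2
      · apply mul_left_cancel₀ hq
        linear_combination L.sum.2 * h3 - v.2 * h2
    · rw [List.sum_cons, Prod.fst_add, Prod.snd_add]
      linear_combination h3 + h2

theorem vt_split (L A : List (ℝ × ℝ)) (v : ℝ × ℝ) (B : List (ℝ × ℝ)) (h : L = A ++ v :: B) :
    vt L A.length = A.sum ∧ vt L (A.length + 1) = A.sum + v ∧ A.length < L.length := by
  subst h
  refine ⟨?_, ?_, ?_⟩
  · rw [vt, List.take_left]
  · have h1 : A ++ v :: B = (A ++ [v]) ++ B := by simp
    have h2 : A.length + 1 = (A ++ [v]).length := by simp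
    rw [vt, h1, h2, List.take_left]
    simp
  · simp

end ModR2

/-- **R2**: the two chains of a clockwise polygon of positive area -/
theorem r2 : StmtR2 := by
  intro L hL hsum hS2 hcw hpos
  have hV : ∀ i (hi : i < L.length), vt L (i + 1) = vt L i + L[i] := fun i hi =>
    List.sum_take_succ L i hi
  obtain ⟨b, h1, h2, h3, h4⟩ := ModR2.core (fun j => (vt L j).1) (fun j => (vt L j).2) L.length
    (by simp [vt]) (by simp [vt])
    (fun j hj => by
      have e1 : L.take j = L := List.take_of_length_le hj
      have e2 : L.take L.length = L := List.take_of_length_le le_rfl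
      simp only [vt, e1, e2])
    (fun i j m hij hjm => by
      have h := hcw i j m hij hjm
      simpa only [det, Prod.fst_sub, Prod.snd_sub] using h)
    hpos
    (fun p q hpq h => by
      refine absurd (ModR2.s2_zero p q hpq L fun v hv => ?_).1 hS2.ne'
      obtain ⟨i, hi, rfl⟩ := List.mem_iff_getElem.1 hv
      have e := hV i hi
      have e1 : (vt L (i + 1)).1 = (vt L i).1 + L[i].1 := by rw [e]; rfl
      have e2 : (vt L (i + 1)).2 = (vt L i).2 + L[i].2 := by rw [e]; rfl
      have g1 := h i
      have g2 := h (i + 1)
      rw [e1, e2] at g2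
      linear_combination g2 - g1)
    (fun i hi hx hy => by
      have e := hV i hi
      apply hL _ (List.getElem_mem hi)
      have e1 : (vt L (i + 1)).1 = (vt L i).1 + L[i].1 := by rw [e]; rfl
      have e2 : (vt L (i + 1)).2 = (vt L i).2 + L[i].2 := by rw [e]; rfl
      ext
      · show L[i].1 = 0
        linarith
      · show L[i].2 = 0
        linarith)
  have hUW : L.take b ++ L.drop b = L := List.take_append_drop b L
  have hUs : (L.take b).sum = vt L b := rfl
  refine ⟨b, ⟨?_, ?_, ?_, ?_, ?_, ?_⟩⟩
  · rw [hUW]; exact hsum
  · rw [hUW]; exact hcw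
  · intro j
    rw [hUW]
    exact ⟨hpos j, h1 j⟩
  · exact h2
  · intro A v B hA
    have hLA : L = A ++ v :: (B ++ L.drop b) := by
      conv_lhs => rw [← hUW, hA]
      simp
    obtain ⟨e1, e2, e3⟩ := ModR2.vt_split L A v _ hLA
    have hlen : A.length < b := by
      have h5 : (L.take b).length = A.length + (B.length + 1) := by rw [hA]; simp
      have h6 : (L.take b).length ≤ b := by simp
      omega
    have h7 := h3 A.length hlen e3
    simp only [e1, e2, Prod.fst_add, Prod.snd_add] at h7
    rcases h7 with h7 | ⟨h7, h8, h9⟩
    · left; linarith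
    · right; exact ⟨by linarith, by linarith, h9⟩
  · intro A v B hA
    have hLA : L = (L.take b ++ A) ++ v :: B := by
      conv_lhs => rw [← hUW, hA]
      simp
    obtain ⟨e1, e2, e3⟩ := ModR2.vt_split L (L.take b ++ A) v _ hLA
    have hbL : b ≤ L.length := by
      by_contra h
      push Not at h
      have h5 : L.drop b = [] := List.drop_eq_nil_of_le h.le
      rw [h5] at hA
      simp at hA
    have hlen : b ≤ (L.take b ++ A).length := by
      rw [List.length_append, List.length_take]
      omega
    have h7 := h4 _ hlen e3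
    simp only [e1, e2] at h7
    simp only [Prod.fst_add, Prod.snd_add] at h7
    rcases h7 with h7 | ⟨h7, h8, h9⟩ | ⟨h7, h8, h9⟩
    · left; linarith
    · right; left; exact ⟨by linarith, by linarith, h9⟩
    · right; right; exact ⟨by linarith, by linarith, h9⟩

end Pool.Agent.T6.H44.AR
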