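import Pool.Agent.T6.H44.AR.Defs3

/-!
Project AR, part 2: module SYM (the area of a closed polygon is at most the area of the
symmetrised one).
-/

set_option autoImplicit false

namespace Pool.Agent.T6.H44.AR

namespace ModSYM

open Finset

/-! ### level crossing -/

/-- truncation to the interval `[c - h, c + h]` -/
noncomputable def clp (c h y : ℝ) : ℝ := max (c - h) (min (c + h) y)

theorem clp_hi {c h y : ℝ} (hh : 0 ≤ h) (hy : c + h ≤ y) : clp c h y = c + h := by
  unfold clp
  rw [min_eq_left hy, max_eq_right (by linarith)]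

theorem clp_lo {c h y : ℝ} (hh : 0 ≤ h) (hy : y ≤ c - h) : clp c h y = c - h := by
  unfold clp
  rw [min_eq_right (by linarith), max_eq_left hy]

theorem clp_lip (c h y z : ℝ) : |clp c h z - clp c h y| ≤ |z - y| := by
  have h1 : |clp c h z - clp c h y| ≤
      max |(c - h) - (c - h)| |min (c + h) z - min (c + h) y| :=
    abs_max_sub_max_le_max _ _ _ _
  have h2 : |min (c + h) z - min (c + h) y| ≤ max |(c + h) - (c + h)| |z - y| :=
    abs_min_sub_min_le_max _ _ _ _
  rw [sub_self, abs_zero, max_eq_right (abs_nonneg _)] at h1 h2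
  exact h1.trans h2

/-- a closed sequence which takes the values `≥ c + h` and `≤ c - h` -/
theorem cross {Y : ℕ → ℝ} {n : ℕ} (hY : Y n = Y 0) {c h : ℝ} (hh : 0 ≤ h) {a b : ℕ} (ha : a ≤ n)
    (hb : b ≤ n) (hYa : c + h ≤ Y a) (hYb : Y b ≤ c - h) :
    4 * h ≤ ∑ i ∈ range n, |clp c h (Y (i + 1)) - clp c h (Y i)| := by
  set g : ℕ → ℝ := fun i => clp c h (Y i) with hg
  have hga : g a = c + h := clp_hi hh hYa
  have hgb : g b = c - h := clp_lo hh hYb
  have hgn : g n = g 0 := by
    show clp c h (Y n) = clp c h (Y 0)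
    rw [hY]
  have key : ∀ p q : ℕ, p ≤ q → |g q - g p| ≤ ∑ i ∈ Ico p q, |g (i + 1) - g i| := by
    intro p q hpq
    have h1 := dist_le_Ico_sum_dist g hpq
    simp only [Real.dist_eq] at h1
    rw [abs_sub_comm (g q) (g p)]
    refine h1.trans (le_of_eq ?_)
    refine Finset.sum_congr rfl fun i _ => ?_
    rw [abs_sub_comm]
  have main : ∀ p q : ℕ, p ≤ q → q ≤ n → 2 * |g q - g p| ≤
      ∑ i ∈ range n, |g (i + 1) - g i| := by
    intro p q hpq hq
    have h1 := key p q hpq
    have h2 := key 0 p (Nat.zero_le p)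
    have h3 := key q n hq
    have h4 : |g q - g p| ≤ |g p - g 0| + |g n - g q| := by
      rw [hgn]
      have e : g q - g p = -((g p - g 0) + (g 0 - g q)) := by ring
      rw [e, abs_neg]
      exact abs_add_le _ _
    rw [Finset.range_eq_Ico, ← Finset.sum_Ico_consecutive _ (Nat.zero_le p) (hpq.trans hq),
      ← Finset.sum_Ico_consecutive _ hpq hq]
    linarith
  rcases le_total a b with hab | hab
  · have h1 := main a b hab hb
    rw [hga, hgb] at h1
    have e : c - h - (c + h) = -(2 * h) := by ring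
    rw [e, abs_neg, abs_of_nonneg (by linarith)] at h1
    linarith
  · have h1 := main b a hab ha
    rw [hga, hgb] at h1
    have e : c + h - (c - h) = 2 * h := by ring
    rw [e, abs_of_nonneg (by linarith)] at h1
    linarith

/-- the edges that cross the band -/
theorem term_le {c h y z η : ℝ} (hh : 0 ≤ h) (hη : |z - y| ≤ 2 * η) :
    |clp c h z - clp c h y| ≤ if |(y + z) / 2 - c| < h + η then |z - y| else 0 := by
  split_ifs with h1
  · exact clp_lip c h y z
  · push Not at h1
    have h2 := abs_le.1 hη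
    rcases le_abs.1 h1 with h3 | h3
    · rw [clp_hi hh (by linarith : c + h ≤ z), clp_hi hh (by linarith : c + h ≤ y), sub_self,
        abs_zero]
    · rw [clp_lo hh (by linarith : z ≤ c - h), clp_lo hh (by linarith : y ≤ c - h), sub_self,
        abs_zero]

/-- the level crossing inequality -/
theorem level {Y : ℕ → ℝ} {n : ℕ} (hY : Y n = Y 0) {η : ℝ} (hη0 : 0 ≤ η)
    (hη : ∀ i < n, |Y (i + 1) - Y i| ≤ 2 * η) : ∃ c : ℝ, ∀ j < n,
    4 * |(Y j + Y (j + 1)) / 2 - c| ≤ 4 * η + ∑ i ∈ range n,
      if |(Y i + Y (i + 1)) / 2 - c| < |(Y j + Y (j + 1)) / 2 - c| then |Y (i + 1) - Y i|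
        else 0 := by
  obtain ⟨a, ha, hamax⟩ := Finset.exists_max_image (range (n + 1)) Y ⟨0, by simp⟩
  obtain ⟨b, hb, hbmin⟩ := Finset.exists_min_image (range (n + 1)) Y ⟨0, by simp⟩
  have ha' : a ≤ n := by
    have := mem_range.1 ha
    omega
  have hb' : b ≤ n := by
    have := mem_range.1 hb
    omega
  have hmax : ∀ i ≤ n, Y i ≤ Y a := fun i hi => hamax i (mem_range.2 (by omega))
  have hmin : ∀ i ≤ n, Y b ≤ Y i := fun i hi => hbmin i (mem_range.2 (by omega))
  refine ⟨(Y a + Y b) / 2, ?_⟩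
  intro j hj
  set c := (Y a + Y b) / 2 with hc
  have hsum0 : 0 ≤ ∑ i ∈ range n,
      if |(Y i + Y (i + 1)) / 2 - c| < |(Y j + Y (j + 1)) / 2 - c| then |Y (i + 1) - Y i|
        else 0 := by
    apply Finset.sum_nonneg
    intro i _
    split_ifs
    · exact abs_nonneg _
    · exact le_rfl
  by_cases hh : 0 ≤ |(Y j + Y (j + 1)) / 2 - c| - η
  · have hr : |(Y j + Y (j + 1)) / 2 - c| ≤ (Y a - Y b) / 2 := by
      rw [abs_le]
      have h1 := hmax j hj.le
      have h2 := hmax (j + 1) hj
      have h3 := hmin j hj.le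
      have h4 := hmin (j + 1) hj
      constructor <;> linarith
    have h1 := cross hY hh ha' hb' (c := c) (by linarith) (by linarith)
    have h2 : ∑ i ∈ range n, |clp c (|(Y j + Y (j + 1)) / 2 - c| - η) (Y (i + 1)) -
        clp c (|(Y j + Y (j + 1)) / 2 - c| - η) (Y i)| ≤ ∑ i ∈ range n,
        if |(Y i + Y (i + 1)) / 2 - c| < |(Y j + Y (j + 1)) / 2 - c| then |Y (i + 1) - Y i|
          else 0 := by
      apply Finset.sum_le_sum
      intro i hi
      have h3 := term_le (c := c) (y := Y i) (z := Y (i + 1)) hh (hη i (mem_range.1 hi))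
      rw [sub_add_cancel] at h3
      exact h3
    linarith
  · push Not at hh
    linarith

/-! ### the area formula -/

theorem sum_getD (L : List (ℝ × ℝ)) (f : ℝ × ℝ → ℝ) :
    (L.map f).sum = ∑ i ∈ range L.length, f (L.getD i 0) := by
  induction L with
  | nil => simp
  | cons v L ih =>
    rw [List.map_cons, List.sum_cons, List.length_cons, Finset.sum_range_succ', ih, add_comm]
    simp

/-- the heights of the vertices -/
noncomputable def ht (L : List (ℝ × ℝ)) (j : ℕ) : ℝ := ∑ i ∈ range j, (L.getD i 0).2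

theorem ht_cons (v : ℝ × ℝ) (L : List (ℝ × ℝ)) (j : ℕ) : ht (v :: L) (j + 1) = v.2 + ht L j := by
  unfold ht
  rw [Finset.sum_range_succ', add_comm]
  simp

theorem ht_end (L : List (ℝ × ℝ)) : ht L L.length = L.sum.2 := by
  have h := sum_getD L (fun v => v.2)
  unfold ht
  rw [← h]
  induction L with
  | nil => simp
  | cons v L ih =>
    rw [List.map_cons, List.sum_cons, List.sum_cons, Prod.snd_add, ih (sum_getD L _)]

theorem fst_sum (L : List (ℝ × ℝ)) : ∑ i ∈ range L.length, (L.getD i 0).1 = L.sum.1 := by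
  rw [← sum_getD L (fun v => v.1)]
  induction L with
  | nil => simp
  | cons v L ih =>
    rw [List.map_cons, List.sum_cons, List.sum_cons, Prod.fst_add, ih]

theorem S2_eq (L : List (ℝ × ℝ)) : S2 L =
    ∑ j ∈ range L.length, (L.getD j 0).1 * (ht L j + ht L (j + 1)) - L.sum.1 * L.sum.2 := by
  induction L with
  | nil => simp [S2]
  | cons v L ih =>
    have h1 : S2 (v :: L) = det L.sum v + S2 L := rfl
    rw [h1, ih, List.length_cons, Finset.sum_range_succ']
    have h2 : ∑ k ∈ range L.length, ((v :: L).getD (k + 1) 0).1 *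
        (ht (v :: L) (k + 1) + ht (v :: L) (k + 1 + 1)) =
        ∑ k ∈ range L.length, ((L.getD k 0).1 * (ht L k + ht L (k + 1)) +
          2 * v.2 * (L.getD k 0).1) := by
      refine Finset.sum_congr rfl fun k _ => ?_
      rw [ht_cons, ht_cons]
      simp only [List.getD_cons_succ]
      ring
    rw [h2, Finset.sum_add_distrib, ← Finset.mul_sum, fst_sum]
    have h3 : ht (v :: L) 0 = 0 := by simp [ht]
    have h4 : ht (v :: L) (0 + 1) = v.2 := by simp [ht]
    rw [h3, h4]
    simp only [List.getD_cons_zero, det, List.sum_cons, Prod.fst_add, Prod.snd_add]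
    ring

/-- the inequality with an error -/
theorem coarse (L : List (ℝ × ℝ)) (hL : L.sum = 0) {η : ℝ} (hη0 : 0 ≤ η)
    (hη : ∀ v ∈ L, |v.2| ≤ 2 * η) : 2 * S2 L ≤ 4 * η * (L.map fun v => |v.1|).sum +
      (L.map fun v => (L.map fun w => Mk v w).sum).sum / 2 := by
  set n := L.length with hn
  set x : ℕ → ℝ := fun i => (L.getD i 0).1 with hx
  set y : ℕ → ℝ := fun i => (L.getD i 0).2 with hy
  have hstep : ∀ i, ht L (i + 1) - ht L i = y i := by
    intro i
    unfold ht
    rw [Finset.sum_range_succ]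
    ring
  have hY : ht L n = ht L 0 := by
    rw [ht_end, hL]
    simp [ht]
  have hmem : ∀ i < n, |y i| ≤ 2 * η := by
    intro i hi
    have : L.getD i 0 ∈ L := by
      rw [List.getD_eq_getElem _ _ hi]
      exact List.getElem_mem hi
    exact hη _ this
  obtain ⟨c, hc⟩ := level hY hη0 (fun i hi => by rw [hstep]; exact hmem i hi)
  set r : ℕ → ℝ := fun j => |(ht L j + ht L (j + 1)) / 2 - c| with hr
  have hc' : ∀ j < n, 4 * r j ≤ 4 * η + ∑ i ∈ range n, if r i < r j then |y i| else 0 := by
    intro j hj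
    have := hc j hj
    simp only [hstep] at this
    exact this
  have hS : 2 * S2 L = ∑ j ∈ range n, x j * (4 * ((ht L j + ht L (j + 1)) / 2 - c)) := by
    rw [S2_eq, hL]
    have h1 : ∑ j ∈ range n, x j * (4 * ((ht L j + ht L (j + 1)) / 2 - c)) =
        ∑ j ∈ range n, (2 * (x j * (ht L j + ht L (j + 1))) - 4 * c * x j) := by
      refine Finset.sum_congr rfl fun j _ => ?_
      ring
    have h2 : ∑ j ∈ range n, x j = 0 := by
      rw [hx, fst_sum, hL]
      rfl
    rw [h1, Finset.sum_sub_distrib, ← Finset.mul_sum, ← Finset.mul_sum, h2]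
    show 2 * (∑ j ∈ range n, x j * (ht L j + ht L (j + 1)) - (0 : ℝ) * 0) = _
    ring
  have hS2 : 2 * S2 L ≤ ∑ j ∈ range n, |x j| * (4 * η +
      ∑ i ∈ range n, if r i < r j then |y i| else 0) := by
    rw [hS]
    apply Finset.sum_le_sum
    intro j hj
    calc x j * (4 * ((ht L j + ht L (j + 1)) / 2 - c)) ≤
        |x j * (4 * ((ht L j + ht L (j + 1)) / 2 - c))| := le_abs_self _
      _ = |x j| * (4 * r j) := by
        rw [abs_mul, abs_mul, abs_of_pos (by norm_num : (0 : ℝ) < 4)]
      _ ≤ _ := mul_le_mul_of_nonneg_left (hc' j (mem_range.1 hj)) (abs_nonneg _)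
  set A : ℕ → ℕ → ℝ := fun i j => if r i < r j then |x j| * |y i| else 0 with hA
  have hsplit : ∑ j ∈ range n, |x j| * (4 * η + ∑ i ∈ range n, if r i < r j then |y i| else 0) =
      4 * η * ∑ j ∈ range n, |x j| + ∑ j ∈ range n, ∑ i ∈ range n, A i j := by
    rw [Finset.mul_sum, ← Finset.sum_add_distrib]
    refine Finset.sum_congr rfl fun j _ => ?_
    rw [mul_add, Finset.mul_sum]
    congr 1
    · ring
    · refine Finset.sum_congr rfl fun i _ => ?_
      simp only [hA, mul_ite, mul_zero]
  have hAA : 2 * ∑ j ∈ range n, ∑ i ∈ range n, A i j ≤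
      ∑ j ∈ range n, ∑ i ∈ range n, Mk (L.getD j 0) (L.getD i 0) := by
    have h1 : 2 * ∑ j ∈ range n, ∑ i ∈ range n, A i j =
        ∑ j ∈ range n, ∑ i ∈ range n, (A i j + A j i) := by
      simp only [Finset.sum_add_distrib]
      rw [Finset.sum_comm (f := fun j i => A j i), two_mul]
    rw [h1]
    apply Finset.sum_le_sum
    intro j _
    apply Finset.sum_le_sum
    intro i _
    have e1 : |x j| * |y i| ≤ Mk (L.getD j 0) (L.getD i 0) := by
      unfold Mk
      rw [← abs_mul]
      exact le_max_left _ _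
    have e2 : |x i| * |y j| ≤ Mk (L.getD j 0) (L.getD i 0) := by
      unfold Mk
      rw [← abs_mul]
      exact le_max_right _ _
    have e0 : 0 ≤ Mk (L.getD j 0) (L.getD i 0) := le_trans (by positivity) e1
    simp only [hA]
    split_ifs with h2 h3 h3
    · exact absurd h3 (not_lt.2 h2.le)
    · linarith
    · linarith
    · linarith
  have f1 : (L.map fun v => |v.1|).sum = ∑ j ∈ range n, |x j| := sum_getD L _
  have f2 : (L.map fun v => (L.map fun w => Mk v w).sum).sum =
      ∑ j ∈ range n, ∑ i ∈ range n, Mk (L.getD j 0) (L.getD i 0) := by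
    rw [sum_getD L (fun v => (L.map fun w => Mk v w).sum)]
    refine Finset.sum_congr rfl fun j _ => ?_
    exact sum_getD L _
  rw [f1, f2]
  linarith

/-! ### subdivision -/

/-- every vector is replaced by `N` copies of its `N`-th part -/
noncomputable def sub (N : ℕ) (L : List (ℝ × ℝ)) : List (ℝ × ℝ) :=
  L.flatMap fun v => List.replicate N ((N : ℝ)⁻¹ • v)

theorem S2_app (A B : List (ℝ × ℝ)) : S2 (A ++ B) = S2 A + S2 B + det B.sum A.sum := by
  induction A with
  | nil => simp [S2, det]
  | cons v A ih =>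
    simp only [List.cons_append, S2, ih, List.sum_append, List.sum_cons, det, Prod.fst_add,
      Prod.snd_add]
    ring

theorem S2_rep (k : ℕ) (v : ℝ × ℝ) : S2 (List.replicate k v) = 0 := by
  induction k with
  | zero => simp [S2]
  | succ k ih =>
    rw [List.replicate_succ]
    show det (List.replicate k v).sum v + S2 (List.replicate k v) = 0
    rw [ih, List.sum_replicate]
    show (k • v).1 * v.2 - (k • v).2 * v.1 + 0 = 0
    rw [Prod.smul_fst, Prod.smul_snd, nsmul_eq_mul, nsmul_eq_mul]
    ring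

theorem rep_sum {N : ℕ} (hN : 0 < N) (v : ℝ × ℝ) :
    (List.replicate N ((N : ℝ)⁻¹ • v)).sum = v := by
  have h : (N : ℝ) ≠ 0 := by positivity
  rw [List.sum_replicate, ← Nat.cast_smul_eq_nsmul ℝ, smul_smul, mul_inv_cancel₀ h, one_smul]

theorem sub_sum {N : ℕ} (hN : 0 < N) (L : List (ℝ × ℝ)) : (sub N L).sum = L.sum := by
  induction L with
  | nil => simp [sub]
  | cons v L ih =>
    unfold sub at ih ⊢
    rw [List.flatMap_cons, List.sum_append, ih, rep_sum hN, List.sum_cons]

theorem sub_S2 {N : ℕ} (hN : 0 < N) (L : List (ℝ × ℝ)) : S2 (sub N L) = S2 L := by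
  induction L with
  | nil => simp [sub]
  | cons v L ih =>
    have h1 : sub N (v :: L) = List.replicate N ((N : ℝ)⁻¹ • v) ++ sub N L := by
      unfold sub
      rw [List.flatMap_cons]
    rw [h1, S2_app, S2_rep, ih, sub_sum hN, rep_sum hN]
    show 0 + S2 L + det L.sum v = det L.sum v + S2 L
    ring

theorem sub_map {N : ℕ} (L : List (ℝ × ℝ)) (f : ℝ × ℝ → ℝ) :
    ((sub N L).map f).sum = (L.map fun v => N * f ((N : ℝ)⁻¹ • v)).sum := by
  induction L with
  | nil => simp [sub]
  | cons v L ih =>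
    have h1 : sub N (v :: L) = List.replicate N ((N : ℝ)⁻¹ • v) ++ sub N L := by
      unfold sub
      rw [List.flatMap_cons]
    rw [h1, List.map_append, List.sum_append, ih, List.map_replicate, List.sum_replicate,
      List.map_cons, List.sum_cons, nsmul_eq_mul]

theorem Mk_smul (a : ℝ) (v w : ℝ × ℝ) : Mk (a • v) (a • w) = a ^ 2 * Mk v w := by
  unfold Mk
  simp only [Prod.smul_fst, Prod.smul_snd, smul_eq_mul]
  have e1 : a * v.1 * (a * w.2) = a ^ 2 * (v.1 * w.2) := by ring
  have e2 : a * w.1 * (a * v.2) = a ^ 2 * (w.1 * v.2) := by ring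
  rw [e1, e2, abs_mul, abs_mul (a ^ 2), abs_of_nonneg (by positivity : (0 : ℝ) ≤ a ^ 2),
    mul_max_of_nonneg _ _ (by positivity)]

theorem fine (L : List (ℝ × ℝ)) (hL : L.sum = 0) (N : ℕ) (hN : 0 < N) :
    2 * S2 L ≤ 2 * (L.map fun v => |v.2|).sum * (L.map fun v => |v.1|).sum * (N : ℝ)⁻¹ +
      (L.map fun v => (L.map fun w => Mk v w).sum).sum / 2 := by
  have hNr : (0 : ℝ) < N := by exact_mod_cast hN
  have hη0 : 0 ≤ (L.map fun v => |v.2|).sum := by
    apply List.sum_nonneg
    intro a ha
    obtain ⟨v, _, rfl⟩ := List.mem_map.1 ha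
    exact abs_nonneg _
  have h1 := coarse (sub N L) (by rw [sub_sum hN, hL])
    (η := (L.map fun v => |v.2|).sum * (N : ℝ)⁻¹ / 2) (by positivity) (by
      intro w hw
      unfold sub at hw
      obtain ⟨v, hv, hw⟩ := List.mem_flatMap.1 hw
      rw [List.eq_of_mem_replicate hw]
      simp only [Prod.smul_snd, smul_eq_mul, abs_mul, abs_inv, Nat.abs_cast]
      have h2 : |v.2| ≤ (L.map fun v => |v.2|).sum := by
        apply List.single_le_sum
        · intro a ha
          obtain ⟨v, _, rfl⟩ := List.mem_map.1 ha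
          exact abs_nonneg _
        · exact List.mem_map.2 ⟨v, hv, rfl⟩
      calc (N : ℝ)⁻¹ * |v.2| ≤ (N : ℝ)⁻¹ * (L.map fun v => |v.2|).sum := by gcongr
        _ = 2 * ((L.map fun v => |v.2|).sum * (N : ℝ)⁻¹ / 2) := by ring)
  rw [sub_S2 hN] at h1
  have e1 : ((sub N L).map fun v => |v.1|).sum = (L.map fun v => |v.1|).sum := by
    rw [sub_map]
    congr 1
    apply List.map_congr_left
    intro v _
    simp only [Prod.smul_fst, smul_eq_mul, abs_mul, abs_inv, Nat.abs_cast]
    rw [mul_inv_cancel_left₀ hNr.ne']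
  have e2 : ((sub N L).map fun v => ((sub N L).map fun w => Mk v w).sum).sum =
      (L.map fun v => (L.map fun w => Mk v w).sum).sum := by
    rw [sub_map]
    congr 1
    apply List.map_congr_left
    intro v _
    rw [sub_map, ← List.sum_map_mul_left]
    congr 1
    apply List.map_congr_left
    intro w _
    rw [Mk_smul]
    field_simp
  rw [e1, e2] at h1
  refine h1.trans (le_of_eq ?_)
  ring

end ModSYM

/-- module SYM -/
theorem sym : StmtSYM := by
  intro L hL
  have h1 : ∀ᶠ N : ℕ in Filter.atTop, 2 * S2 L ≤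
      2 * (L.map fun v => |v.2|).sum * (L.map fun v => |v.1|).sum * (N : ℝ)⁻¹ +
      (L.map fun v => (L.map fun w => Mk v w).sum).sum / 2 := by
    filter_upwards [Filter.eventually_gt_atTop 0] with N hN using ModSYM.fine L hL N hN
  have h2 : Filter.Tendsto (fun N : ℕ =>
      2 * (L.map fun v => |v.2|).sum * (L.map fun v => |v.1|).sum * (N : ℝ)⁻¹ +
      (L.map fun v => (L.map fun w => Mk v w).sum).sum / 2) Filter.atTop
      (nhds (2 * (L.map fun v => |v.2|).sum * (L.map fun v => |v.1|).sum * 0 +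
      (L.map fun v => (L.map fun w => Mk v w).sum).sum / 2)) :=
    (tendsto_inv_atTop_nhds_zero_nat.const_mul _).add_const _
  have h3 := ge_of_tendsto h2 h1
  rw [mul_zero, zero_add] at h3
  unfold GG BB
  linarith

end Pool.Agent.T6.H44.AR
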