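import Pool.Agent.T6.H44.AR.ZC

set_option autoImplicit false

open MeasureTheory

namespace Pool.Agent.T6.H44.AR

open ModZC in
theorem vz (hTILE : H354ZN.S_TILE) (hVOL : H354ZN.S_VOL) (hKS : H354ZN.S_KSUM) : StmtVZ := by
  intro N z
  have hvol : volume.real (Zn z) = volume.real (H354ZN.Zon (m := 1) (zp z)) := by
    rw [← zon_pre z, Measure.real, Measure.real, vol_pre]
  have hDt := Dt_eq z hKS
  rw [hvol]
  constructor
  · have h := hTILE 1 N (zp z)
    rw [hDt] at h
    calc 2 * ∑ i, ∑ j, |det (z i) (z j)| = 2 ^ (1 + 1) * (D z / 2) := by unfold D; ring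
      _ ≤ _ := h
  · intro h0
    have h := hVOL 1 N (zp z) (by rw [hDt]; exact half_pos h0)
    rw [hDt] at h
    calc _ ≤ 2 ^ (1 + 1) * (D z / 2) := h
      _ = 2 * ∑ i, ∑ j, |det (z i) (z j)| := by unfold D; ring

end Pool.Agent.T6.H44.AR
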