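import Pool.Agent.T6.H44.AR.Defs3

/-! Module WUL (helper24): Wulff's inequality for symmetric bodies. -/

set_option autoImplicit false

open MeasureTheory

namespace Pool.Agent.T6.H44.AR

namespace ModWUL

theorem abs_pair (a b : ℝ) : |a - b| + |a + b| = 2 * max |a| |b| := by
  rcases le_total |a| |b| with h | h
  · rw [max_eq_right h]
    rcases abs_cases a with ⟨h1, h1'⟩ | ⟨h1, h1'⟩ <;> rcases abs_cases b with ⟨h2, h2'⟩ | ⟨h2, h2'⟩ <;>
      rcases abs_cases (a - b) with ⟨h3, h3'⟩ | ⟨h3, h3'⟩ <;>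
      rcases abs_cases (a + b) with ⟨h4, h4'⟩ | ⟨h4, h4'⟩ <;> rw [h1, h2] at h <;>
      rw [h3, h4, h2] <;> linarith
  · rw [max_eq_left h]
    rcases abs_cases a with ⟨h1, h1'⟩ | ⟨h1, h1'⟩ <;> rcases abs_cases b with ⟨h2, h2'⟩ | ⟨h2, h2'⟩ <;>
      rcases abs_cases (a - b) with ⟨h3, h3'⟩ | ⟨h3, h3'⟩ <;>
      rcases abs_cases (a + b) with ⟨h4, h4'⟩ | ⟨h4, h4'⟩ <;> rw [h1, h2] at h <;>
      rw [h3, h4, h1] <;> linarith

/-- reflection -/
def cj (v : ℝ × ℝ) : ℝ × ℝ := (v.1, -v.2)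

theorem det_four (v w : ℝ × ℝ) :
    |det v w| + |det v (cj w)| + (|det (cj v) w| + |det (cj v) (cj w)|) = 4 * Mk v w := by
  have h1 : |det v w| + |det v (cj w)| = 2 * Mk v w := by
    have := abs_pair (v.1 * w.2) (w.1 * v.2)
    unfold Mk det cj
    rw [← this]
    have e1 : |v.1 * w.2 - v.2 * w.1| = |v.1 * w.2 - w.1 * v.2| := by
      congr 1; ring
    have e2 : |v.1 * -w.2 - v.2 * w.1| = |v.1 * w.2 + w.1 * v.2| := by
      rw [← abs_neg]; congr 1; ring
    show |v.1 * w.2 - v.2 * w.1| + |v.1 * -w.2 - v.2 * w.1| = _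
    rw [e1, e2]
  have h2 : |det (cj v) w| + |det (cj v) (cj w)| = 2 * Mk v w := by
    have := abs_pair (v.1 * w.2) (w.1 * v.2)
    unfold Mk det cj
    rw [← this]
    show |v.1 * w.2 - -v.2 * w.1| + |v.1 * -w.2 - -v.2 * w.1| = _
    have e1 : |v.1 * w.2 - -v.2 * w.1| = |v.1 * w.2 + w.1 * v.2| := by
      congr 1; ring
    have e2 : |v.1 * -w.2 - -v.2 * w.1| = |v.1 * w.2 - w.1 * v.2| := by
      rw [← abs_neg]; congr 1; ring
    rw [e1, e2, add_comm]
  rw [h1, h2]
  ring

theorem sup_bdd {K : Set (ℝ × ℝ)} (hK : IsCompact K) (v : ℝ × ℝ) :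
    BddAbove ((fun h : ℝ × ℝ => h.1 * v.1 + h.2 * v.2) '' K) := by
  apply IsCompact.bddAbove
  apply hK.image
  fun_prop

theorem le_sup {K : Set (ℝ × ℝ)} (hK : IsCompact K) (v : ℝ × ℝ) {h : ℝ × ℝ} (hh : h ∈ K) :
    h.1 * v.1 + h.2 * v.2 ≤ sup K v :=
  le_csSup (sup_bdd hK v) ⟨h, hh, rfl⟩

theorem det_le {K : Set (ℝ × ℝ)} (hK : IsCompact K) (hR : Refl K) (v : ℝ × ℝ) {x : ℝ × ℝ}
    (hx : x ∈ K) : |det v x| ≤ sup K (v.2, v.1) := by
  rw [abs_le]
  have h1 := le_sup hK (v.2, v.1) (hR x hx).1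
  have h2 := le_sup hK (v.2, v.1) (hR x hx).2
  have e1 : (-x.1, x.2).1 * (v.2, v.1).1 + (-x.1, x.2).2 * (v.2, v.1).2 = det v x := by
    unfold det
    show -x.1 * v.2 + x.2 * v.1 = v.1 * x.2 - v.2 * x.1
    ring
  have e2 : (x.1, -x.2).1 * (v.2, v.1).1 + (x.1, -x.2).2 * (v.2, v.1).2 = - det v x := by
    unfold det
    show x.1 * v.2 + -x.2 * v.1 = -(v.1 * x.2 - v.2 * x.1)
    ring
  rw [e1] at h1
  rw [e2] at h2
  constructor <;> linarith

theorem sup_nonneg {K : Set (ℝ × ℝ)} (hK : IsCompact K) (hR : Refl K) (v : ℝ × ℝ) :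
    0 ≤ sup K v := by
  rcases K.eq_empty_or_nonempty with h | ⟨x, hx⟩
  · subst h
    unfold sup
    rw [Set.image_empty, Real.sSup_empty]
  · have := det_le hK hR (v.2, v.1) hx
    exact (abs_nonneg _).trans this

theorem sup_refl {K : Set (ℝ × ℝ)} (hR : Refl K) (a b : ℝ) : sup K (-a, b) = sup K (a, b) := by
  unfold sup
  congr 1
  ext y
  constructor
  · rintro ⟨h, hh, rfl⟩
    exact ⟨(-h.1, h.2), (hR h hh).1, by simp only; ring⟩
  · rintro ⟨h, hh, rfl⟩
    exact ⟨(-h.1, h.2), (hR h hh).1, by simp only; ring⟩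

theorem sum_get {α : Type} (M : List α) (f : α → ℝ) :
    ∑ j : Fin M.length, f (M.get j) = (M.map f).sum := by
  rw [← Fin.sum_univ_fun_getElem]
  rfl

theorem sum_four (L : List (ℝ × ℝ)) :
    (((L ++ L.map cj).map fun v => ((L ++ L.map cj).map fun w => |det v w|).sum).sum) =
      32 * GG L := by
  have inner : ∀ v : ℝ × ℝ, ((L ++ L.map cj).map fun w => |det v w|).sum =
      (L.map fun w => |det v w| + |det v (cj w)|).sum := by
    intro v
    rw [List.map_append, List.sum_append, List.map_map, ← List.sum_map_add]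
    rfl
  rw [List.map_append, List.sum_append, List.map_map, ← List.sum_map_add]
  have : (L.map fun v => (((L ++ L.map cj).map fun w => |det v w|).sum +
      ((fun v => ((L ++ L.map cj).map fun w => |det v w|).sum) ∘ cj) v)) =
      L.map fun v => (L.map fun w => 4 * Mk v w).sum := by
    apply List.map_congr_left
    intro v _
    show ((L ++ L.map cj).map fun w => |det v w|).sum +
      ((L ++ L.map cj).map fun w => |det (cj v) w|).sum = _
    rw [inner v, inner (cj v), ← List.sum_map_add]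
    congr 1
    apply List.map_congr_left
    intro w _
    exact det_four v w
  rw [this]
  unfold GG BB
  have h2 : ∀ v : ℝ × ℝ, (L.map fun w => 4 * Mk v w).sum = 4 * (L.map fun w => Mk v w).sum :=
    fun v => List.sum_map_mul_left _ _ _
  have h3 : (L.map fun v => (L.map fun w => 4 * Mk v w).sum) =
      L.map fun v => 4 * (L.map fun w => Mk v w).sum :=
    List.map_congr_left fun v _ => h2 v
  rw [h3, List.sum_map_mul_left]
  ring

end ModWUL

theorem wul (h : StmtWZ) : StmtWUL := by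
  intro K hK hR L
  obtain ⟨M, hM⟩ : ∃ M : List (ℝ × ℝ), M = L ++ L.map ModWUL.cj := ⟨_, rfl⟩
  have h1 := h M.length (fun j => M.get j) K (fun j => sup K ((M.get j).2, (M.get j).1)) hK
    (fun j => ModWUL.sup_nonneg hK hR _) (fun j x hx => ModWUL.det_le hK hR _ hx)
  have h2 : ∑ j : Fin M.length, sup K ((M.get j).2, (M.get j).1) =
      2 * (L.map fun v => sup K (v.2, v.1)).sum := by
    rw [ModWUL.sum_get M (fun v => sup K (v.2, v.1)), hM, List.map_append, List.sum_append,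
      List.map_map, two_mul]
    congr 2
    apply List.map_congr_left
    intro v _
    exact ModWUL.sup_refl hR v.2 v.1
  have h3 : ∑ i : Fin M.length, ∑ j : Fin M.length, |det (M.get i) (M.get j)| = 32 * GG L := by
    have : ∀ i : Fin M.length, ∑ j : Fin M.length, |det (M.get i) (M.get j)| =
        (M.map fun w => |det (M.get i) w|).sum := fun i =>
      ModWUL.sum_get M (fun w => |det (M.get i) w|)
    rw [Finset.sum_congr rfl fun i _ => this i,
      ModWUL.sum_get M (fun v => (M.map fun w => |det v w|).sum), hM]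
    exact ModWUL.sum_four L
  rw [h2, h3] at h1
  have h4 : volume.real K * (32 * GG L / 2) = 4 ^ 2 * (volume.real K * GG L) := by ring
  rw [h4, Real.sqrt_mul (by norm_num), Real.sqrt_sq (by norm_num)] at h1
  linarith

end Pool.Agent.T6.H44.AR
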