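import Pool.Agent.T6.H44.AR.ZC

set_option autoImplicit false

open MeasureTheory
open scoped Matrix

namespace Pool.Agent.T6.H44.AR

namespace ModWZ

/-- a line through the origin has area zero -/
theorem line_null (v : ℝ × ℝ) (hv : v ≠ 0) : volume {x : ℝ × ℝ | det v x = 0} = 0 := by
  let φ : (ℝ × ℝ) →ₗ[ℝ] ℝ :=
    v.1 • LinearMap.snd ℝ ℝ ℝ - v.2 • LinearMap.fst ℝ ℝ ℝ
  have hφ : ∀ x, φ x = det v x := by
    intro x
    simp [φ, det]
  have hset : {x : ℝ × ℝ | det v x = 0} = (LinearMap.ker φ : Set (ℝ × ℝ)) := by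
    ext x
    simp [hφ]
  rw [hset]
  apply Measure.addHaar_submodule
  intro htop
  apply hv
  have h1 : φ (1, 0) = 0 := by
    have : ((1, 0) : ℝ × ℝ) ∈ LinearMap.ker φ := by rw [htop]; trivial
    exact this
  have h2 : φ (0, 1) = 0 := by
    have : ((0, 1) : ℝ × ℝ) ∈ LinearMap.ker φ := by rw [htop]; trivial
    exact this
  rw [hφ] at h1 h2
  simp [det] at h1 h2
  exact Prod.ext h2 h1

end ModWZ

open ModZC ModWZ in
theorem wz (hLOG : H354ZN.S_LOG) (hKS : H354ZN.S_KSUM) : StmtWZ := by
  intro N z K l hK hl hb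
  have hDdef : (∑ i, ∑ j, |det (z i) (z j)|) = D z := rfl
  rw [hDdef]
  have hlsum : 0 ≤ ∑ j, l j := Finset.sum_nonneg fun j _ => hl j
  rcases (measureReal_nonneg (μ := volume) (s := K)).eq_or_lt with hV | hV
  · rw [← hV]
    simpa using hlsum
  rcases (D_nonneg z).eq_or_lt with hD | hD
  · rw [← hD]
    simpa using hlsum
  set V : ℝ := volume.real K with hVdef
  set Q : ℝ := D z / 2 with hQ
  have hQ0 : 0 < Q := half_pos hD
  have hDt : H354ZN.Dt (m := 1) (zp z) = Q := Dt_eq z hKS
  set L : Set (Fin 2 → ℝ) := (fun x : Fin 2 → ℝ => ((x 0, x 1) : ℝ × ℝ)) ⁻¹' K with hL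
  have hLc : IsCompact L := comp_pre hK
  have hLv : volume.real L = V := by rw [Measure.real, hL, vol_pre]; rfl
  -- positivity
  have hlpos : ∀ j, z j ≠ 0 → 0 < l j := by
    intro j hj
    rcases (hl j).eq_or_lt with h | h
    · exfalso
      have hsub : K ⊆ {x : ℝ × ℝ | det (z j) x = 0} := by
        intro x hx
        have h1 := hb j x hx
        rw [← h] at h1
        exact abs_nonpos_iff.1 h1
      have h2 : volume K = 0 := measure_mono_null hsub (line_null _ hj)
      have h3 : V = 0 := by rw [hVdef, Measure.real, h2]; rfl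
      linarith
    · exact h
  let k : Fin N → ℝ := fun j => ∑ i, |det (z j) (z i)|
  have hk0 : ∀ j, 0 ≤ k j := fun j => Finset.sum_nonneg fun i _ => abs_nonneg _
  have hksum : ∑ j, k j = 2 * Q := by
    change D z = 2 * Q
    rw [hQ]; ring
  have hkpos : ∀ j, 0 < k j → z j ≠ 0 := by
    intro j hj h0
    have : k j = 0 := by
      apply Finset.sum_eq_zero
      intro i _
      rw [h0]
      simp [det]
    linarith
  -- the function on index sets
  classical
  let lI : Finset (Fin N) → ℝ := fun I => ∑ j ∈ I, l j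
  have hlI : ∀ j, lI {j} = l j := fun j => Finset.sum_singleton _ _
  have hmem : ∀ I ∈ H354ZN.Ps 1 N, ∃ j, I = {j} := by
    intro I hI
    have := (Finset.mem_powersetCard.1 hI).2
    exact Finset.card_eq_one.1 this
  have hXne : ∀ j, H354ZN.X (m := 1) (zp z) {j} ≠ 0 → z j ≠ 0 := by
    intro j h h0
    apply h
    funext i
    fin_cases i
    · exact (X_zero z j).trans (by rw [h0]; rfl)
    · exact (X_one z j).trans (by rw [h0]; simp)
  have hmain := hLOG 1 N (zp z) L lI hLc (by rw [hLv]; exact hV) (by rw [hDt]; exact hQ0)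
    (by
      intro I hI hX
      obtain ⟨j, rfl⟩ := hmem I hI
      rw [hlI]
      exact hlpos j (hXne j hX))
    (by
      intro I hI hX x hx
      obtain ⟨j, rfl⟩ := hmem I hI
      rw [hlI, X_dot, abs_neg]
      exact hb j _ hx)
  rw [sum_Ps, hDt, hLv] at hmain
  have hmain2 : ∑ j, k j / Q * Real.log (k j / l j) ≤ Real.log (4 * Q / V) := by
    refine le_trans (le_of_eq ?_) (hmain.trans (le_of_eq ?_))
    · refine Finset.sum_congr rfl fun j _ => ?_
      rw [kk_eq, hlI]
    · norm_num
  -- Jensen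
  have hw : ∑ j, k j / (2 * Q) = 1 := by
    rw [← Finset.sum_div, hksum, div_self (by positivity)]
  have hJ := convexOn_exp.map_sum_le (t := (Finset.univ : Finset (Fin N)))
    (w := fun j => k j / (2 * Q)) (p := fun j => Real.log (l j / k j))
    (fun j _ => div_nonneg (hk0 j) (by positivity)) hw (fun j _ => Set.mem_univ _)
  simp only [smul_eq_mul] at hJ
  have hR : ∑ j, k j / (2 * Q) * Real.exp (Real.log (l j / k j)) ≤ (∑ j, l j) / (2 * Q) := by
    rw [Finset.sum_div]
    refine Finset.sum_le_sum fun j _ => ?_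
    rcases (hk0 j).eq_or_lt with h | h
    · rw [← h]
      simp only [zero_div, zero_mul]
      exact div_nonneg (hl j) (by positivity)
    · have hl' := hlpos j (hkpos j h)
      rw [Real.exp_log (div_pos hl' h)]
      apply le_of_eq
      field_simp
  have hLhs : √(V / (4 * Q)) ≤ Real.exp (∑ j, k j / (2 * Q) * Real.log (l j / k j)) := by
    have h1 : ∑ j, k j / (2 * Q) * Real.log (l j / k j) =
        -(1 / 2) * ∑ j, k j / Q * Real.log (k j / l j) := by
      rw [Finset.mul_sum]
      refine Finset.sum_congr rfl fun j _ => ?_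
      rw [show l j / k j = (k j / l j)⁻¹ by rw [inv_div], Real.log_inv]
      field_simp
    rw [h1]
    have h2 : √(V / (4 * Q)) = Real.exp (-(1 / 2) * Real.log (4 * Q / V)) := by
      rw [Real.sqrt_eq_rpow, Real.rpow_def_of_pos (by positivity)]
      congr 1
      rw [show V / (4 * Q) = (4 * Q / V)⁻¹ by rw [inv_div], Real.log_inv]
      ring
    rw [h2]
    apply Real.exp_le_exp.2
    linarith
  have hfin : √(V / (4 * Q)) ≤ (∑ j, l j) / (2 * Q) := hLhs.trans (hJ.trans hR)
  have h4 : √(V * Q) = 2 * Q * √(V / (4 * Q)) := by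
    have h5 : V * Q = (2 * Q) ^ 2 * (V / (4 * Q)) := by field_simp; ring
    rw [h5, Real.sqrt_mul (by positivity), Real.sqrt_sq (by positivity)]
  rw [h4]
  calc 2 * Q * √(V / (4 * Q)) ≤ 2 * Q * ((∑ j, l j) / (2 * Q)) :=
        mul_le_mul_of_nonneg_left hfin (by positivity)
    _ = ∑ j, l j := by field_simp

end Pool.Agent.T6.H44.AR
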