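import Pool.Agent.T6.H44.AR.Defs

/-!
Project AR (helper44), MP_f6626d_co, module X1.
-/

set_option autoImplicit false

namespace Pool.Agent.T6.H44.AR

namespace ModX1

theorem par_sum {Z : ℝ × ℝ} (L : List (ℝ × ℝ)) (h : ∀ e ∈ L, det Z e = 0) :
    det Z L.sum = 0 := by
  induction L with
  | nil => simp [det]
  | cons e L ih =>
    have h1 := h e (by simp)
    have h2 := ih fun e' he' => h e' (by simp [he'])
    simp only [List.sum_cons, det, Prod.fst_add, Prod.snd_add] at h1 h2 ⊢
    linarith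

theorem par_S2 {Z : ℝ × ℝ} (hZ : Z.1 ≠ 0) (L : List (ℝ × ℝ)) (h : ∀ e ∈ L, det Z e = 0) :
    S2 L = 0 := by
  induction L with
  | nil => simp [S2]
  | cons e L ih =>
    have h1 := h e (by simp)
    have h2 := ih fun e' he' => h e' (by simp [he'])
    have h3 := par_sum L fun e' he' => h e' (by simp [he'])
    simp only [S2, h2, add_zero]
    simp only [det] at h1 h3 ⊢
    have h4 : Z.1 * (L.sum.1 * e.2 - L.sum.2 * e.1) = 0 := by
      linear_combination (L.sum.1) * h1 - (e.1) * h3
    rcases mul_eq_zero.mp h4 with h5 | h5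
    · exact absurd h5 hZ
    · exact h5

theorem par_all {Z : ℝ × ℝ} (L : List (ℝ × ℝ)) (h : ∀ s, det Z (vt L s) = 0) :
    ∀ e ∈ L, det Z e = 0 := by
  intro e he
  obtain ⟨s, hs, rfl⟩ := List.getElem_of_mem he
  have h1 : vt L (s + 1) = vt L s + L[s] := by
    unfold vt
    rw [List.sum_take_succ L s hs]
  have h2 := h (s + 1)
  have h3 := h s
  rw [h1] at h2
  simp only [det, Prod.fst_add, Prod.snd_add] at h2 h3 ⊢
  linarith

/-- all vertices lie on the inner side of the edge `v` -/
theorem inner {L A B : List (ℝ × ℝ)} {v : ℝ × ℝ} (hcw : Cw L) (hL : L = A ++ v :: B) (s : ℕ) :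
    det v (vt L s - A.sum) ≤ 0 := by
  have hi : vt L A.length = A.sum := by
    unfold vt; rw [hL]; simp
  have hi1 : vt L (A.length + 1) = A.sum + v := by
    unfold vt; rw [hL]
    rw [List.take_append, List.take_of_length_le (by omega)]
    simp
  rcases le_or_gt s A.length with hs | hs
  · have h := hcw s A.length (A.length + 1) hs (by omega)
    rw [hi, hi1] at h
    simp only [det, Prod.fst_add, Prod.snd_add, Prod.fst_sub, Prod.snd_sub] at h ⊢
    linarith
  · have h := hcw A.length (A.length + 1) s (by omega) (by omega)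
    rw [hi, hi1] at h
    simp only [det, Prod.fst_add, Prod.snd_add, Prod.fst_sub, Prod.snd_sub] at h ⊢
    linarith

end ModX1

open ModX1

theorem x1 : StmtX1 := by
  intro U W hS hpos A v B hU A' v' B' hW z hz0 hz1 hdv hdv'
  set L := U ++ W with hL
  have hLA : L = A ++ v :: (B ++ W) := by rw [hL, hU]; simp
  have hLA' : L = (U ++ A') ++ v' :: B' := by rw [hL, hW]; simp
  have hin := fun s => inner hS.cw hLA s
  have hin' := fun s => inner hS.cw hLA' s
  have hk := hS.pos
  have hv0 : vt L 0 = 0 := by simp [vt]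
  have hvb : vt L U.length = U.sum := by
    unfold vt; rw [hL]; simp
  -- the signs of the first coordinates
  have hv1 : 0 < v.1 := by
    rcases hS.up A v B hU with h | ⟨h1, h2, h3⟩
    · exact h
    · exfalso
      simp only [det, Prod.fst_sub, Prod.snd_sub, h1, h3] at hdv
      nlinarith
  have hv1' : v'.1 < 0 := by
    rcases hS.lo A' v' B' hW with h | ⟨h1, h2, h3⟩ | ⟨h1, h2, h3⟩
    · exact h
    · exfalso
      simp only [det, Prod.fst_sub, Prod.snd_sub, h1, h3] at hdv'
      nlinarith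
    · exfalso
      simp only [det, Prod.fst_sub, Prod.snd_sub, h1, h3] at hdv'
      nlinarith
  have a0 := hin 0
  have ab := hin U.length
  have a0' := hin' 0
  have ab' := hin' U.length
  rw [hv0] at a0 a0'
  rw [hvb] at ab ab'
  set Z := U.sum with hZ
  set P := A.sum with hP
  set P' := (U ++ A').sum with hP'
  set lam := z.1 / Z.1 with hlam
  have hl0 : 0 < lam := div_pos hz0 hk
  have hl1 : 0 < 1 - lam := by
    have : lam < 1 := (div_lt_one hk).mpr hz1
    linarith
  have hz : z.1 = lam * Z.1 := by rw [hlam]; field_simp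
  simp only [det, Prod.fst_sub, Prod.snd_sub, Prod.fst_zero, Prod.snd_zero] at a0 ab a0' ab' hdv hdv'
  -- the point p = lam * Z
  have e1 : v.1 * (z.2 - P.2) - v.2 * (z.1 - P.1) =
      (1 - lam) * (v.1 * (0 - P.2) - v.2 * (0 - P.1)) +
        lam * (v.1 * (Z.2 - P.2) - v.2 * (Z.1 - P.1)) + v.1 * (z.2 - lam * Z.2) := by
    rw [hz]; ring
  have e2 : v'.1 * (z.2 - P'.2) - v'.2 * (z.1 - P'.1) =
      (1 - lam) * (v'.1 * (0 - P'.2) - v'.2 * (0 - P'.1)) +
        lam * (v'.1 * (Z.2 - P'.2) - v'.2 * (Z.1 - P'.1)) + v'.1 * (z.2 - lam * Z.2) := by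
    rw [hz]; ring
  have m1 := mul_nonpos_of_nonneg_of_nonpos hl1.le a0
  have m2 := mul_nonpos_of_nonneg_of_nonpos hl0.le ab
  have m1' := mul_nonpos_of_nonneg_of_nonpos hl1.le a0'
  have m2' := mul_nonpos_of_nonneg_of_nonpos hl0.le ab'
  have g1 : 0 ≤ v.1 * (z.2 - lam * Z.2) := by linarith
  have g2 : 0 ≤ v'.1 * (z.2 - lam * Z.2) := by linarith
  have g3 : z.2 - lam * Z.2 = 0 := by
    apply le_antisymm
    · by_contra hcon
      push Not at hcon
      have := mul_neg_of_neg_of_pos hv1' hcon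
      linarith
    · by_contra hcon
      push Not at hcon
      have := mul_neg_of_pos_of_neg hv1 hcon
      linarith
  rw [g3, mul_zero, add_zero] at e1 e2
  have n1 : (1 - lam) * (v.1 * (0 - P.2) - v.2 * (0 - P.1)) = 0 := by linarith
  have n2 : lam * (v.1 * (Z.2 - P.2) - v.2 * (Z.1 - P.1)) = 0 := by linarith
  have n1' : (1 - lam) * (v'.1 * (0 - P'.2) - v'.2 * (0 - P'.1)) = 0 := by linarith
  have n2' : lam * (v'.1 * (Z.2 - P'.2) - v'.2 * (Z.1 - P'.1)) = 0 := by linarith
  have p1 := (mul_eq_zero.mp n1).resolve_left hl1.ne'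
  have p2 := (mul_eq_zero.mp n2).resolve_left hl0.ne'
  have p1' := (mul_eq_zero.mp n1').resolve_left hl1.ne'
  have p2' := (mul_eq_zero.mp n2').resolve_left hl0.ne'
  have q : v.1 * Z.2 = v.2 * Z.1 := by linarith
  have q' : v'.1 * Z.2 = v'.2 * Z.1 := by linarith
  have hall : ∀ s, det Z (vt L s) = 0 := by
    intro s
    have i1 := hin s
    have i2 := hin' s
    simp only [det, Prod.fst_sub, Prod.snd_sub] at i1 i2 ⊢
    set x := vt L s with hx
    have j1 : v.1 * x.2 - v.2 * x.1 ≤ 0 := by linarith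
    have j2 : v'.1 * x.2 - v'.2 * x.1 ≤ 0 := by linarith
    have k1 : v.1 * (Z.1 * x.2 - Z.2 * x.1) ≤ 0 := by
      have : v.1 * (Z.1 * x.2 - Z.2 * x.1) = Z.1 * (v.1 * x.2 - v.2 * x.1) := by
        linear_combination -x.1 * q
      rw [this]
      exact mul_nonpos_of_nonneg_of_nonpos hk.le j1
    have k2 : v'.1 * (Z.1 * x.2 - Z.2 * x.1) ≤ 0 := by
      have : v'.1 * (Z.1 * x.2 - Z.2 * x.1) = Z.1 * (v'.1 * x.2 - v'.2 * x.1) := by
        linear_combination -x.1 * q'
      rw [this]
      exact mul_nonpos_of_nonneg_of_nonpos hk.le j2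
    apply le_antisymm
    · by_contra hcon
      push Not at hcon
      have := mul_pos hv1 hcon
      linarith
    · by_contra hcon
      push Not at hcon
      have := mul_pos_of_neg_of_neg hv1' hcon
      linarith
  have := par_S2 hk.ne' L (par_all L hall)
  linarith

end Pool.Agent.T6.H44.AR
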