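import Mathlib
import Pool.Agent.T6.H44.AR.Defs

/-!
Project AR (helper44), module X2 (helper43): the number of lattice points strictly inside a convex
lattice polygon.
-/

set_option autoImplicit false

namespace Pool.Agent.T6.H44.AR

namespace ModX2

/-- the height of the chain with the edges `L`, starting at `P`, at the abscissa `a` -/
noncomputable def yy : List (ℤ × ℤ) → (ℤ × ℤ) → ℤ → ℝ
  | [], _, _ => 0
  | v :: L, P, a =>
    if (P.1 ≤ a ∧ a < P.1 + v.1) ∨ (P.1 + v.1 ≤ a ∧ a < P.1) then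
      (P.2 : ℝ) + v.2 * (((a : ℝ) - P.1) / v.1)
    else yy L (P + v) a

/-- the points of the chain are on the edges -/
lemma yy_on (a : ℤ) : ∀ (L : List (ℤ × ℤ)) (P : ℤ × ℤ),
    ((P.1 ≤ a ∧ a < P.1 + L.sum.1) ∨ (P.1 + L.sum.1 ≤ a ∧ a < P.1)) →
    ∃ C w D, L = C ++ w :: D ∧ ∃ t : ℝ, 0 ≤ t ∧ t ≤ 1 ∧
      (a : ℝ) = (P.1 : ℝ) + C.sum.1 + w.1 * t ∧
      yy L P a = (P.2 : ℝ) + C.sum.2 + w.2 * t := by
  intro L
  induction L with
  | nil =>
    intro P h
    simp at h
    omega
  | cons v L ih =>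
    intro P h
    by_cases hc : (P.1 ≤ a ∧ a < P.1 + v.1) ∨ (P.1 + v.1 ≤ a ∧ a < P.1)
    · refine ⟨[], v, L, rfl, ((a : ℝ) - P.1) / v.1, ?_, ?_, ?_, ?_⟩
      · rcases hc with ⟨h1, h2⟩ | ⟨h1, h2⟩
        · have e1 : (0 : ℝ) ≤ (a : ℝ) - P.1 := by
            have : (P.1 : ℝ) ≤ a := by exact_mod_cast h1
            linarith
          have e2 : (0 : ℝ) ≤ v.1 := by exact_mod_cast (by omega : 0 ≤ v.1)
          exact div_nonneg e1 e2
        · have e1 : (a : ℝ) - P.1 ≤ 0 := by
            have : (a : ℝ) ≤ P.1 := by exact_mod_cast h2.le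
            linarith
          have e2 : (v.1 : ℝ) ≤ 0 := by exact_mod_cast (by omega : v.1 ≤ 0)
          exact div_nonneg_of_nonpos e1 e2
      · rcases hc with ⟨h1, h2⟩ | ⟨h1, h2⟩
        · have e2 : (0 : ℝ) < v.1 := by exact_mod_cast (by omega : 0 < v.1)
          rw [div_le_one e2]
          have : (a : ℝ) < P.1 + v.1 := by exact_mod_cast h2
          linarith
        · have e2 : (v.1 : ℝ) < 0 := by exact_mod_cast (by omega : v.1 < 0)
          rw [div_le_one_of_neg e2]
          have : (P.1 : ℝ) + v.1 ≤ a := by exact_mod_cast h1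
          linarith
      · have e2 : (v.1 : ℝ) ≠ 0 := by exact_mod_cast (by omega : v.1 ≠ 0)
        simp only [List.sum_nil, Prod.fst_zero, Int.cast_zero]
        field_simp
        ring
      · simp only [yy, hc, if_true, List.sum_nil, Prod.snd_zero, Int.cast_zero]
        ring
    · obtain ⟨C, w, D, e, t, h0, h1, h2, h3⟩ := ih (P + v) (by
        simp only [List.sum_cons, Prod.fst_add] at h ⊢
        omega)
      refine ⟨v :: C, w, D, by rw [e]; rfl, t, h0, h1, ?_, ?_⟩
      · rw [h2]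
        simp only [List.sum_cons, Prod.fst_add, Int.cast_add]
        ring
      · simp only [yy, hc, if_false]
        rw [h3]
        simp only [List.sum_cons, Prod.snd_add, Int.cast_add]
        ring

/-- the trapezoid sum -/
noncomputable def AA : List (ℤ × ℤ) → (ℤ × ℤ) → ℝ
  | [], _ => 0
  | v :: L, P => (v.1 : ℝ) * P.2 + v.1 * v.2 / 2 + AA L (P + v)

/-- the vertical variation -/
def VV (L : List (ℤ × ℤ)) : ℤ := (L.map fun v => |v.2|).sum

/-- the horizontal variation -/
def HH (L : List (ℤ × ℤ)) : ℤ := (L.map fun v => |v.1|).sum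

lemma VV_cons (v : ℤ × ℤ) (L : List (ℤ × ℤ)) : VV (v :: L) = |v.2| + VV L := by
  simp [VV]

lemma HH_cons (v : ℤ × ℤ) (L : List (ℤ × ℤ)) : HH (v :: L) = |v.1| + HH L := by
  simp [HH]

lemma VV_append (A B : List (ℤ × ℤ)) : VV (A ++ B) = VV A + VV B := by
  simp [VV]

lemma HH_append (A B : List (ℤ × ℤ)) : HH (A ++ B) = HH A + HH B := by
  simp [HH]

lemma abs_sum_le (L : List (ℤ × ℤ)) : |L.sum.2| ≤ VV L := by
  induction L with
  | nil => simp [VV]
  | cons v L ih =>
    rw [VV_cons, List.sum_cons, Prod.snd_add]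
    exact (abs_add_le _ _).trans (by linarith)

lemma abs_sum_le' (L : List (ℤ × ℤ)) : |L.sum.1| ≤ HH L := by
  induction L with
  | nil => simp [HH]
  | cons v L ih =>
    rw [HH_cons, List.sum_cons, Prod.fst_add]
    exact (abs_add_le _ _).trans (by linarith)

lemma l1_sum (L : List (ℤ × ℤ)) : (L.map l1).sum = HH L + VV L := by
  induction L with
  | nil => simp [HH, VV]
  | cons v L ih =>
    rw [List.map_cons, List.sum_cons, ih, HH_cons, VV_cons]
    simp only [l1]
    ring

lemma VV_nonneg (L : List (ℤ × ℤ)) : 0 ≤ VV L := (abs_nonneg _).trans (abs_sum_le L)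

lemma AA_append (A B : List (ℤ × ℤ)) (P : ℤ × ℤ) : AA (A ++ B) P = AA A P + AA B (P + A.sum) := by
  induction A generalizing P with
  | nil => simp [AA]
  | cons v A ih =>
    simp only [List.cons_append, AA, ih, List.sum_cons]
    rw [add_assoc P v A.sum]
    ring

lemma AA_S2 (L : List (ℤ × ℤ)) (P : ℤ × ℤ) :
    2 * AA L P = (S2 L : ℤ) + (((P + L.sum).1 * (P + L.sum).2 - P.1 * P.2 + det L.sum P : ℤ) : ℝ) := by
  induction L generalizing P with
  | nil => simp [AA, S2, det]
  | cons v L ih =>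
    have h := ih (P + v)
    simp only [AA, S2, det, List.sum_cons, Prod.fst_add, Prod.snd_add, Int.cast_add, Int.cast_sub,
      Int.cast_mul] at h ⊢
    linarith [h]

lemma sumIco (g : ℤ → ℝ) (p : ℤ) (m : ℕ) :
    ∑ a ∈ Finset.Ico p (p + m), g a = ∑ i ∈ Finset.range m, g (p + i) := by
  symm
  refine Finset.sum_nbij' (fun i : ℕ => p + i) (fun a => (a - p).toNat) ?_ ?_ ?_ ?_ ?_
  · intro i hi; simp at hi ⊢; omega
  · intro a ha; simp at ha ⊢; omega
  · intro i hi; simp
  · intro a ha; simp at ha ⊢; omega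
  · intro i hi; rfl

lemma arith (y w : ℝ) (m : ℕ) : ∑ i ∈ Finset.range m, (y + w * i) = m * y + w * (m * (m - 1) / 2) := by
  induction m with
  | zero => simp
  | succ m ih =>
    rw [Finset.sum_range_succ, ih]
    push_cast
    ring

lemma split (g : ℤ → ℝ) (a b c : ℤ) (h1 : a ≤ b) (h2 : b ≤ c) :
    ∑ x ∈ Finset.Ico a c, g x = ∑ x ∈ Finset.Ico a b, g x + ∑ x ∈ Finset.Ico b c, g x := by
  rw [← Finset.Ico_union_Ico_eq_Ico h1 h2, Finset.sum_union]
  exact Finset.Ico_disjoint_Ico_consecutive a b c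

/-- the sum of the heights of an upper chain -/
lemma sum_up (L : List (ℤ × ℤ)) (P : ℤ × ℤ) (hL : ∀ v ∈ L, 0 ≤ v.1) :
    AA L P - VV L / 2 ≤ ∑ a ∈ Finset.Ico P.1 (P.1 + L.sum.1), yy L P a := by
  induction L generalizing P with
  | nil => simp [AA, VV]
  | cons v L ih =>
    have hv : 0 ≤ v.1 := hL v (by simp)
    have hL' : ∀ w ∈ L, 0 ≤ w.1 := fun w hw => hL w (by simp [hw])
    have hs : 0 ≤ L.sum.1 := by
      clear ih hL
      induction L with
      | nil => simp
      | cons w L ih =>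
        rw [List.sum_cons, Prod.fst_add]
        have := ih (fun x hx => hL' x (by simp [hx]))
        have := hL' w (by simp)
        omega
    have h := ih (P + v) hL'
    rw [split _ P.1 (P.1 + v.1) _ (by omega) (by rw [List.sum_cons, Prod.fst_add]; omega)]
    have e2 : ∑ a ∈ Finset.Ico (P.1 + v.1) (P.1 + (v :: L).sum.1), yy (v :: L) P a =
        ∑ a ∈ Finset.Ico (P + v).1 ((P + v).1 + L.sum.1), yy L (P + v) a := by
      rw [List.sum_cons, Prod.fst_add, Prod.fst_add, ← add_assoc]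
      refine Finset.sum_congr rfl fun a ha => ?_
      rw [Finset.mem_Ico] at ha
      simp only [yy]
      rw [if_neg (by omega)]
    have e1 : ∑ a ∈ Finset.Ico P.1 (P.1 + v.1), yy (v :: L) P a =
        (v.1 : ℝ) * P.2 + v.1 * v.2 / 2 - (if v.1 = 0 then 0 else (v.2 : ℝ) / 2) := by
      obtain ⟨m, hm⟩ := Int.eq_ofNat_of_zero_le hv
      have e : ∀ a ∈ Finset.Ico P.1 (P.1 + v.1), yy (v :: L) P a =
          (P.2 : ℝ) + v.2 * (((a : ℝ) - P.1) / v.1) := by
        intro a ha
        rw [Finset.mem_Ico] at ha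
        simp only [yy]
        rw [if_pos (Or.inl ha)]
      rw [Finset.sum_congr rfl e, hm, sumIco]
      rcases Nat.eq_zero_or_pos m with rfl | hpos
      · simp
      · have hm' : (m : ℝ) ≠ 0 := by positivity
        have : ∀ i ∈ Finset.range m, (P.2 : ℝ) + v.2 * ((((P.1 + (i : ℤ) : ℤ) : ℝ) - P.1) / ((m : ℤ) : ℝ)) =
            (P.2 : ℝ) + ((v.2 : ℝ) / m) * i := by
          intro i _
          push_cast
          field_simp
          ring
        rw [Finset.sum_congr rfl this, arith, if_neg (by omega)]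
        push_cast
        field_simp
        ring
    rw [e1, e2]
    have hV : (VV (v :: L) : ℝ) = |(v.2 : ℝ)| + VV L := by
      rw [VV_cons]; push_cast; rfl
    rw [hV]
    simp only [AA]
    have hb : (if v.1 = 0 then 0 else (v.2 : ℝ) / 2) ≤ |(v.2 : ℝ)| / 2 := by
      split_ifs
      · positivity
      · linarith [le_abs_self (v.2 : ℝ)]
    linarith

/-- the sum of the heights of a lower chain -/
lemma sum_lo (L : List (ℤ × ℤ)) (P : ℤ × ℤ) (hL : ∀ v ∈ L, v.1 ≤ 0) :
    ∑ a ∈ Finset.Ico (P.1 + L.sum.1) P.1, yy L P a ≤ -AA L P + VV L / 2 := by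
  induction L generalizing P with
  | nil => simp [AA, VV]
  | cons v L ih =>
    have hv : v.1 ≤ 0 := hL v (by simp)
    have hL' : ∀ w ∈ L, w.1 ≤ 0 := fun w hw => hL w (by simp [hw])
    have hs : L.sum.1 ≤ 0 := by
      clear ih hL
      induction L with
      | nil => simp
      | cons w L ih =>
        rw [List.sum_cons, Prod.fst_add]
        have := ih (fun x hx => hL' x (by simp [hx]))
        have := hL' w (by simp)
        omega
    have h := ih (P + v) hL'
    rw [split _ _ (P.1 + v.1) P.1 (by rw [List.sum_cons, Prod.fst_add]; omega) (by omega)]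
    have e2 : ∑ a ∈ Finset.Ico (P.1 + (v :: L).sum.1) (P.1 + v.1), yy (v :: L) P a =
        ∑ a ∈ Finset.Ico ((P + v).1 + L.sum.1) (P + v).1, yy L (P + v) a := by
      rw [List.sum_cons, Prod.fst_add, Prod.fst_add, ← add_assoc]
      refine Finset.sum_congr rfl fun a ha => ?_
      rw [Finset.mem_Ico] at ha
      simp only [yy]
      rw [if_neg (by omega)]
    have e1 : ∑ a ∈ Finset.Ico (P.1 + v.1) P.1, yy (v :: L) P a =
        -((v.1 : ℝ) * P.2 + v.1 * v.2 / 2) + (if v.1 = 0 then 0 else (v.2 : ℝ) / 2) := by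
      obtain ⟨m, hm⟩ := Int.eq_ofNat_of_zero_le (a := -v.1) (by omega)
      have e : ∀ a ∈ Finset.Ico (P.1 + v.1) P.1, yy (v :: L) P a =
          (P.2 : ℝ) + v.2 * (((a : ℝ) - P.1) / v.1) := by
        intro a ha
        rw [Finset.mem_Ico] at ha
        simp only [yy]
        rw [if_pos (Or.inr ha)]
      have hv1 : v.1 = -(m : ℤ) := by omega
      have hP : P.1 = (P.1 + v.1) + (m : ℤ) := by omega
      rw [Finset.sum_congr rfl e]
      have e3 : ∑ a ∈ Finset.Ico (P.1 + v.1) P.1, ((P.2 : ℝ) + v.2 * (((a : ℝ) - P.1) / v.1)) =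
          ∑ a ∈ Finset.Ico (P.1 + v.1) ((P.1 + v.1) + (m : ℤ)),
            ((P.2 : ℝ) + v.2 * (((a : ℝ) - P.1) / v.1)) := by
        rw [← hP]
      rw [e3, sumIco]
      rcases Nat.eq_zero_or_pos m with rfl | hpos
      · have : v.1 = 0 := by omega
        simp [this]
      · have hm' : (m : ℝ) ≠ 0 := by positivity
        have hv1' : (v.1 : ℝ) = -(m : ℝ) := by rw [hv1]; push_cast; rfl
        have : ∀ i ∈ Finset.range m,
            (P.2 : ℝ) + v.2 * ((((P.1 + v.1 + (i : ℤ) : ℤ) : ℝ) - P.1) / (v.1 : ℝ)) =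
            ((P.2 : ℝ) + v.2) + (-(v.2 : ℝ) / m) * i := by
          intro i _
          push_cast
          rw [hv1']
          field_simp
          ring
        rw [Finset.sum_congr rfl this, arith, if_neg (by omega), hv1']
        field_simp
        ring
    rw [e1, e2]
    have hV : (VV (v :: L) : ℝ) = |(v.2 : ℝ)| + VV L := by
      rw [VV_cons]; push_cast; rfl
    rw [hV]
    simp only [AA]
    have hb : (if v.1 = 0 then 0 else (v.2 : ℝ) / 2) ≤ |(v.2 : ℝ)| / 2 := by
      split_ifs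
      · positivity
      · linarith [le_abs_self (v.2 : ℝ)]
    linarith

lemma cs_sum (L : List (ℤ × ℤ)) : (L.map cs).sum = cs L.sum := by
  induction L with
  | nil => exact Prod.ext (by simp [cs]) (by simp [cs])
  | cons v L ih =>
    rw [List.map_cons, List.sum_cons, ih, List.sum_cons]
    simp [cs]

lemma vt_len (A B : List (ℝ × ℝ)) : vt (A ++ B) A.length = A.sum := by
  simp [vt]

lemma vt_len' (A B : List (ℝ × ℝ)) (v : ℝ × ℝ) :
    vt (A ++ v :: B) (A.length + 1) = A.sum + v := by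
  have : A ++ v :: B = (A ++ [v]) ++ B := by simp
  rw [vt, this, List.take_append_of_le_length (by simp)]
  rw [List.take_of_length_le (by simp)]
  simp

/-- INNER for real lists -/
lemma inner' (L : List (ℝ × ℝ)) (h : Cw L) (A : List (ℝ × ℝ)) (v : ℝ × ℝ) (B : List (ℝ × ℝ))
    (e : L = A ++ v :: B) (s : ℕ) : det v (vt L s - A.sum) ≤ 0 := by
  have h1 : vt L A.length = A.sum := by rw [e]; exact vt_len _ _
  have h2 : vt L (A.length + 1) = A.sum + v := by rw [e]; exact vt_len' _ _ _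
  rcases Nat.lt_or_ge A.length s with hs | hs
  · have := h A.length (A.length + 1) s (by omega) hs
    rw [h1, h2] at this
    simp only [det, Prod.fst_sub, Prod.snd_sub, Prod.fst_add, Prod.snd_add] at this ⊢
    linarith
  · have := h s A.length (A.length + 1) hs (by omega)
    rw [h1, h2] at this
    simp only [det, Prod.fst_sub, Prod.snd_sub, Prod.fst_add, Prod.snd_add] at this ⊢
    linarith

/-- INNER for two decompositions of an integral list, and a point of the second edge -/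
lemma inner_pt (L : List (ℤ × ℤ)) (h : Cw (L.map cs)) (A : List (ℤ × ℤ)) (v : ℤ × ℤ)
    (B : List (ℤ × ℤ)) (e : L = A ++ v :: B) (C : List (ℤ × ℤ)) (w : ℤ × ℤ)
    (D : List (ℤ × ℤ)) (e' : L = C ++ w :: D) (t : ℝ) (h0 : 0 ≤ t) (h1 : t ≤ 1) :
    (v.1 : ℝ) * ((C.sum.2 : ℝ) + w.2 * t - A.sum.2) - v.2 * ((C.sum.1 : ℝ) + w.1 * t - A.sum.1)
      ≤ 0 := by
  have k1 := inner' (L.map cs) h (A.map cs) (cs v) (B.map cs) (by rw [e]; simp) C.length
  have k2 := inner' (L.map cs) h (A.map cs) (cs v) (B.map cs) (by rw [e]; simp) (C.length + 1)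
  have f1 : vt (L.map cs) C.length = cs C.sum := by
    rw [e', ← cs_sum]
    have := vt_len (C.map cs) ((w :: D).map cs)
    rw [List.length_map] at this
    rw [← this]; simp
  have f2 : vt (L.map cs) (C.length + 1) = cs C.sum + cs w := by
    rw [e', ← cs_sum]
    have := vt_len' (C.map cs) (D.map cs) (cs w)
    rw [List.length_map] at this
    rw [← this]; simp
  rw [f1, cs_sum] at k1
  rw [f2, cs_sum] at k2
  simp only [det, cs, Prod.fst_sub, Prod.snd_sub, Prod.fst_add, Prod.snd_add] at k1 k2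
  nlinarith [mul_nonneg (sub_nonneg.2 h1) (neg_nonneg.2 k1), mul_nonneg h0 (neg_nonneg.2 k2)]

end ModX2

open ModX2 in
theorem x2 : StmtX2 := by
  intro U W hS hpos
  have hcw : Cw ((U ++ W).map cs) := by rw [List.map_append]; exact hS.cw
  have hsum : (U ++ W).sum = 0 := by
    have := hS.sum0
    rw [← List.map_append, cs_sum] at this
    have h1 := congrArg Prod.fst this
    have h2 := congrArg Prod.snd this
    simp only [cs, Prod.fst_zero, Prod.snd_zero] at h1 h2
    exact Prod.ext (by exact_mod_cast h1) (by exact_mod_cast h2)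
  have hk : 0 < U.sum.1 := by
    have := hS.pos
    rw [cs_sum] at this
    simp only [cs] at this
    exact_mod_cast this
  have hup : ∀ A v B, U = A ++ v :: B → 0 < v.1 ∨ (v.1 = 0 ∧ 0 < v.2 ∧ A.sum.1 = 0) := by
    intro A v B e
    have := hS.up (A.map cs) (cs v) (B.map cs) (by rw [e]; simp)
    rw [cs_sum] at this
    simp only [cs] at this
    exact_mod_cast this
  have hlo : ∀ A v B, W = A ++ v :: B → v.1 < 0 ∨ (v.1 = 0 ∧ 0 < v.2 ∧ (U ++ A).sum.1 = 0) ∨
      (v.1 = 0 ∧ v.2 < 0 ∧ (U ++ A).sum.1 = U.sum.1) := by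
    intro A v B e
    have := hS.lo (A.map cs) (cs v) (B.map cs) (by rw [e]; simp)
    rw [← List.map_append, cs_sum, cs_sum] at this
    simp only [cs] at this
    exact_mod_cast this
  have hsW : W.sum = -U.sum := by
    rw [List.sum_append] at hsum
    exact (neg_eq_of_add_eq_zero_right hsum).symm
  set k := U.sum.1 with hkdef
  set yU : ℤ → ℝ := fun a => yy U 0 a with hyU
  set yL : ℤ → ℝ := fun a => yy W U.sum a with hyL
  have hU1 : ∀ v ∈ U, 0 ≤ v.1 := by
    intro v hv
    obtain ⟨A, B, e⟩ := List.append_of_mem hv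
    rcases hup A v B e with h | h
    · exact h.le
    · exact h.1.ge
  have hW1 : ∀ v ∈ W, v.1 ≤ 0 := by
    intro v hv
    obtain ⟨A, B, e⟩ := List.append_of_mem hv
    rcases hlo A v B e with h | h | h
    · exact h.le
    · exact h.1.le
    · exact h.1.le
  have onU : ∀ a, 0 ≤ a → a < k → ∃ C w D, U = C ++ w :: D ∧ ∃ t : ℝ, 0 ≤ t ∧ t ≤ 1 ∧
      (a : ℝ) = (C.sum.1 : ℝ) + w.1 * t ∧ yU a = (C.sum.2 : ℝ) + w.2 * t := by
    intro a h0 h1
    obtain ⟨C, w, D, e, t, a1, a2, a3, a4⟩ := yy_on a U 0 (Or.inl ⟨by simpa using h0, by simpa using h1⟩)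
    exact ⟨C, w, D, e, t, a1, a2, by simpa using a3, by simpa [hyU] using a4⟩
  have onL : ∀ a, 0 ≤ a → a < k → ∃ C w D, W = C ++ w :: D ∧ ∃ t : ℝ, 0 ≤ t ∧ t ≤ 1 ∧
      (a : ℝ) = (U.sum.1 : ℝ) + C.sum.1 + w.1 * t ∧
      yL a = (U.sum.2 : ℝ) + C.sum.2 + w.2 * t := by
    intro a h0 h1
    refine yy_on a W U.sum (Or.inr ⟨?_, h1⟩)
    rw [hsW, Prod.fst_neg]
    omega
  have bU : yU 0 ≤ VV U := by
    obtain ⟨C, w, D, e, t, a1, a2, -, a4⟩ := onU 0 le_rfl hk
    rw [a4, e, VV_append, VV_cons]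
    have h1 : (C.sum.2 : ℝ) ≤ VV C := by exact_mod_cast (le_abs_self _).trans (abs_sum_le C)
    have h2 : (0 : ℝ) ≤ VV D := by exact_mod_cast VV_nonneg D
    have h3 : (w.2 : ℝ) * t ≤ |(w.2 : ℝ)| := by
      calc (w.2 : ℝ) * t ≤ |(w.2 : ℝ)| * t := mul_le_mul_of_nonneg_right (le_abs_self _) a1
        _ ≤ |(w.2 : ℝ)| * 1 := mul_le_mul_of_nonneg_left a2 (abs_nonneg _)
        _ = _ := mul_one _
    push_cast
    linarith
  have bL : -(VV W : ℝ) ≤ yL 0 := by
    obtain ⟨C, w, D, e, t, a1, a2, -, a4⟩ := onL 0 le_rfl hk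
    have e5 : U.sum.2 + C.sum.2 = -w.2 - D.sum.2 := by
      have := congrArg Prod.snd hsW
      rw [e, List.sum_append, List.sum_cons, Prod.snd_add, Prod.snd_add, Prod.snd_neg] at this
      linarith
    have e6 : (U.sum.2 : ℝ) + C.sum.2 = -w.2 - D.sum.2 := by exact_mod_cast e5
    rw [a4, e6, e, VV_append, VV_cons]
    have h1 : (0 : ℝ) ≤ VV C := by exact_mod_cast VV_nonneg C
    have h2 : (D.sum.2 : ℝ) ≤ VV D := by exact_mod_cast (le_abs_self _).trans (abs_sum_le D)
    have h3 : (w.2 : ℝ) * (1 - t) ≤ |(w.2 : ℝ)| := by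
      calc (w.2 : ℝ) * (1 - t) ≤ |(w.2 : ℝ)| * (1 - t) :=
            mul_le_mul_of_nonneg_right (le_abs_self _) (by linarith)
        _ ≤ |(w.2 : ℝ)| * 1 := mul_le_mul_of_nonneg_left (by linarith) (abs_nonneg _)
        _ = _ := mul_one _
    push_cast
    linarith
  -- the set
  set X : Finset (ℤ × ℤ) := ((Finset.Ioo 0 k).sigma
    (fun a => Finset.Ioo ⌊yL a⌋ ⌈yU a⌉)).map (Equiv.sigmaEquivProd ℤ ℤ).toEmbedding with hX
  have memX : ∀ p : ℤ × ℤ, p ∈ X → 0 < p.1 ∧ p.1 < k ∧ yL p.1 < p.2 ∧ (p.2 : ℝ) < yU p.1 := by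
    intro p hp
    rw [hX, Finset.mem_map] at hp
    obtain ⟨q, hq, rfl⟩ := hp
    rw [Finset.mem_sigma, Finset.mem_Ioo, Finset.mem_Ioo] at hq
    exact ⟨hq.1.1, hq.1.2, Int.floor_lt.1 hq.2.1, Int.lt_ceil.1 hq.2.2⟩
  refine ⟨X, ?_, ?_⟩
  · have hcard : (∑ a ∈ Finset.Ioo 0 k, (yU a - yL a - 1)) ≤ (X.card : ℝ) := by
      rw [hX, Finset.card_map, Finset.card_sigma]
      push_cast
      refine Finset.sum_le_sum fun a _ => ?_
      rw [Int.card_Ioo]
      have h1 : ((⌈yU a⌉ - ⌊yL a⌋ - 1 : ℤ) : ℝ) ≤ ((⌈yU a⌉ - ⌊yL a⌋ - 1).toNat : ℝ) := by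
        exact_mod_cast Int.self_le_toNat _
      refine le_trans ?_ h1
      push_cast
      linarith [Int.le_ceil (yU a), Int.floor_le (yL a)]
    refine le_trans ?_ hcard
    have hsplit : ∑ a ∈ Finset.Ioo 0 k, (yU a - yL a - 1) =
        ∑ a ∈ Finset.Ico 0 k, (yU a - yL a - 1) - (yU 0 - yL 0 - 1) := by
      rw [← Finset.Ioo_insert_left hk, Finset.sum_insert (by simp)]
      ring
    rw [hsplit, Finset.sum_sub_distrib, Finset.sum_sub_distrib]
    have s1 := sum_up U 0 hU1
    have s2 := sum_lo W U.sum hW1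
    have e1 : U.sum.1 + W.sum.1 = 0 := by rw [hsW, Prod.fst_neg]; ring
    rw [e1] at s2
    rw [Prod.fst_zero, zero_add] at s1
    have hA : 2 * AA (U ++ W) 0 = (S2 (U ++ W) : ℤ) := by
      rw [AA_S2, hsum]
      simp [det]
    rw [AA_append, zero_add] at hA
    have hc : ∑ _a ∈ Finset.Ico (0 : ℤ) k, (1 : ℝ) = k := by
      rw [Finset.sum_const, Int.card_Ico, nsmul_eq_mul, mul_one, sub_zero]
      exact_mod_cast Int.toNat_of_nonneg hk.le
    rw [hc, l1_sum, HH_append, VV_append]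
    have hkH : (k : ℝ) ≤ HH U := by
      exact_mod_cast (le_abs_self _).trans (abs_sum_le' U)
    have hHU : (0 : ℝ) ≤ HH U := by
      exact_mod_cast (abs_nonneg _).trans (abs_sum_le' U)
    have hHW : (0 : ℝ) ≤ HH W := by
      exact_mod_cast (abs_nonneg _).trans (abs_sum_le' W)
    have hVU : (0 : ℝ) ≤ VV U := by exact_mod_cast VV_nonneg U
    have hVW : (0 : ℝ) ≤ VV W := by exact_mod_cast VV_nonneg W
    push_cast
    simp only [hyU, hyL] at bU bL ⊢
    linarith
  · intro p hp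
    obtain ⟨p0, pk, pL, pU⟩ := memX p hp
    refine ⟨p0, pk, ?_⟩
    intro A v B e
    obtain ⟨C, w, D, eC, t, t0, t1, ta, ty⟩ := onU p.1 p0.le pk
    obtain ⟨C', w', D', eC', t', t0', t1', ta', ty'⟩ := onL p.1 p0.le pk
    have i1 := inner_pt (U ++ W) hcw A v B e C w (D ++ W) (by rw [eC]; simp) t t0 t1
    have i2 := inner_pt (U ++ W) hcw A v B e (U ++ C') w' D' (by rw [eC']; simp) t' t0' t1'
    rw [List.sum_append, Prod.fst_add, Prod.snd_add] at i2
    push_cast at i2
    rw [← ta, ← ty] at i1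
    rw [← ta', ← ty'] at i2
    have key : v.1 > 0 ∨ v.1 < 0 ∨ (v.1 = 0 ∧ 0 < v.2 ∧ A.sum.1 = 0) ∨
        (v.1 = 0 ∧ v.2 < 0 ∧ A.sum.1 = k) := by
      rcases List.append_eq_append_iff.1 e with ⟨A', hA', hW'⟩ | ⟨C'', hU', hB⟩
      · -- A = U ++ A', W = A' ++ v :: B
        rcases hlo A' v B hW' with h | h | h
        · exact Or.inr (Or.inl h)
        · rw [← hA'] at h; exact Or.inr (Or.inr (Or.inl h))
        · rw [← hA'] at h; exact Or.inr (Or.inr (Or.inr h))
      · -- U = A ++ C'', v :: B = C'' ++ W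
        cases C'' with
        | nil =>
          rw [List.append_nil] at hU'
          rw [List.nil_append] at hB
          rcases hlo [] v B hB.symm with h | h | h
          · exact Or.inr (Or.inl h)
          · rw [List.append_nil, hU'] at h; exact Or.inr (Or.inr (Or.inl h))
          · rw [List.append_nil] at h
            rw [hkdef, ← hU']; exact Or.inr (Or.inr (Or.inr h))
        | cons x C'' =>
          rw [List.cons_append, List.cons.injEq] at hB
          obtain ⟨rfl, hB⟩ := hB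
          rcases hup A v C'' hU' with h | h
          · exact Or.inl h
          · exact Or.inr (Or.inr (Or.inl h))
    have goalR : ((det v (p - A.sum) : ℤ) : ℝ) < 0 := by
      simp only [det, Prod.fst_sub, Prod.snd_sub]
      push_cast
      rcases key with h | h | h | h
      · have h' : (0 : ℝ) < v.1 := by exact_mod_cast h
        nlinarith [mul_pos h' (sub_pos.2 pU)]
      · have h' : (v.1 : ℝ) < 0 := by exact_mod_cast h
        nlinarith [mul_pos (neg_pos.2 h') (sub_pos.2 pL)]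
      · have h1 : (v.1 : ℝ) = 0 := by exact_mod_cast h.1
        have h2 : (0 : ℝ) < v.2 := by exact_mod_cast h.2.1
        have h3 : (A.sum.1 : ℝ) = 0 := by exact_mod_cast h.2.2
        have h4 : (0 : ℝ) < p.1 := by exact_mod_cast p0
        rw [h1, h3]
        nlinarith [mul_pos h2 h4]
      · have h1 : (v.1 : ℝ) = 0 := by exact_mod_cast h.1
        have h2 : (v.2 : ℝ) < 0 := by exact_mod_cast h.2.1
        have h3 : (A.sum.1 : ℝ) = k := by exact_mod_cast h.2.2
        have h4 : (p.1 : ℝ) < k := by exact_mod_cast pk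
        rw [h1, h3]
        nlinarith [mul_pos (neg_pos.2 h2) (sub_pos.2 h4)]
    exact_mod_cast goalR

end Pool.Agent.T6.H44.AR
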