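import Pool.Agent.T6.H44.AR.Defs3

/-!
Translation of the library on zonotopes (`m = 1`) to the plane `ℝ × ℝ`.
-/

set_option autoImplicit false

open MeasureTheory
open scoped Matrix

namespace Pool.Agent.T6.H44.AR

namespace ModZC

/-- generators in the library form -/
noncomputable def zp {N : ℕ} (z : Fin N → ℝ × ℝ) : Fin N → Fin 2 → ℝ :=
  fun j => ![(z j).1, (z j).2]

/-- the double sum of the determinants -/
noncomputable def D {N : ℕ} (z : Fin N → ℝ × ℝ) : ℝ := ∑ i, ∑ j, |det (z i) (z j)|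

variable {N : ℕ} (z : Fin N → ℝ × ℝ)

theorem X_zero (j : Fin N) : H354ZN.X (m := 1) (zp z) {j} 0 = (z j).2 := by
  unfold H354ZN.X
  rw [dif_pos (Finset.card_singleton j)]
  rw [Matrix.det_fin_two]
  simp [H354ZN.rows, zp, Finset.orderEmbOfFin_singleton, Fin.cons]
  rfl

theorem X_one (j : Fin N) : H354ZN.X (m := 1) (zp z) {j} 1 = -(z j).1 := by
  unfold H354ZN.X
  rw [dif_pos (Finset.card_singleton j)]
  rw [Matrix.det_fin_two]
  simp [H354ZN.rows, zp, Finset.orderEmbOfFin_singleton, Fin.cons]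
  rfl

theorem X_dot (j : Fin N) (x : Fin 2 → ℝ) :
    H354ZN.X (m := 1) (zp z) {j} ⬝ᵥ x = -det (z j) (x 0, x 1) := by
  rw [show H354ZN.X (m := 1) (zp z) {j} ⬝ᵥ x =
    H354ZN.X (m := 1) (zp z) {j} 0 * x 0 + H354ZN.X (m := 1) (zp z) {j} 1 * x 1 from by
      unfold dotProduct
      exact Fin.sum_univ_two _]
  rw [X_zero, X_one]
  simp only [det]
  ring

theorem kk_eq (j : Fin N) : H354ZN.kk (m := 1) (zp z) {j} = ∑ i, |det (z j) (z i)| := by
  unfold H354ZN.kk
  refine Finset.sum_congr rfl fun i _ => ?_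
  rw [X_dot, abs_neg]
  rfl

theorem sum_Ps (f : Finset (Fin N) → ℝ) : ∑ I ∈ H354ZN.Ps 1 N, f I = ∑ j, f {j} := by
  unfold H354ZN.Ps
  rw [Finset.powersetCard_one, Finset.sum_map]
  rfl

theorem Dt_eq (hKS : H354ZN.S_KSUM) : H354ZN.Dt (m := 1) (zp z) = D z / 2 := by
  have h := hKS 1 N (zp z)
  rw [sum_Ps] at h
  have h2 : ∑ j, H354ZN.kk (m := 1) (zp z) {j} = D z :=
    Finset.sum_congr rfl fun j _ => kk_eq z j
  rw [h2] at h
  push_cast at h
  linarith

/-- volume of the preimage under `x ↦ (x 0, x 1)` -/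
theorem vol_pre (K : Set (ℝ × ℝ)) :
    volume ((fun x : Fin 2 → ℝ => (x 0, x 1)) ⁻¹' K) = volume K := by
  have h := (volume_preserving_finTwoArrow ℝ).measure_preimage_equiv K
  rw [← h]
  rfl

theorem cont_e : Continuous (fun x : Fin 2 → ℝ => ((x 0, x 1) : ℝ × ℝ)) := by fun_prop

theorem comp_pre {K : Set (ℝ × ℝ)} (hK : IsCompact K) :
    IsCompact ((fun x : Fin 2 → ℝ => (x 0, x 1)) ⁻¹' K) := by
  have h : (fun x : Fin 2 → ℝ => (x 0, x 1)) ⁻¹' K =
      (fun p : ℝ × ℝ => (![p.1, p.2] : Fin 2 → ℝ)) '' K := by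
    ext x
    constructor
    · intro hx
      refine ⟨(x 0, x 1), hx, ?_⟩
      funext i
      fin_cases i <;> rfl
    · rintro ⟨p, hp, rfl⟩
      exact hp
  rw [h]
  refine hK.image ?_
  refine continuous_pi fun i => ?_
  fin_cases i
  · exact continuous_fst
  · exact continuous_snd

theorem zon_pre : (fun x : Fin 2 → ℝ => ((x 0, x 1) : ℝ × ℝ)) ⁻¹' Zn z = H354ZN.Zon (zp z) := by
  ext x
  constructor
  · rintro ⟨t, ht, hx⟩
    refine ⟨t, ht, ?_⟩
    have h1 := congrArg Prod.fst hx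
    have h2 := congrArg Prod.snd hx
    simp only [Prod.fst_sum, Prod.snd_sum, Prod.smul_fst, Prod.smul_snd] at h1 h2
    funext i
    rw [Finset.sum_apply]
    fin_cases i
    · simpa [zp] using h1
    · simpa [zp] using h2
  · rintro ⟨t, ht, hx⟩
    refine ⟨t, ht, ?_⟩
    have h1 := congrFun hx 0
    have h2 := congrFun hx 1
    rw [Finset.sum_apply] at h1 h2
    refine Prod.ext ?_ ?_
    · simp only [Prod.fst_sum, Prod.smul_fst]
      simpa [zp] using h1
    · simp only [Prod.snd_sum, Prod.smul_snd]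
      simpa [zp] using h2

theorem D_nonneg : 0 ≤ D z := Finset.sum_nonneg fun _ _ => Finset.sum_nonneg fun _ _ => abs_nonneg _

end ModZC

end Pool.Agent.T6.H44.AR
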